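import Pool.Agent.Helper15.EIso.Fam

set_option linter.unusedSectionVars false

/-!
Equi-isoclinic `n`-planes in dimension `2 n`.
-/

namespace Helper15.EIso

open Matrix Kronecker BigOperators ComplexOrder

variable {m : Type*} [Fintype m] [DecidableEq m] {N : ℕ} {P : Fin N → Matrix m m ℂ} {nn lam : ℝ}

lemma Fam.sq_diff (h : Fam P nn lam) (hm : (Fintype.card m : ℝ) = 2 * nn) (h1 : lam < 1)
    {i j : Fin N} (hij : i ≠ j) :
    (P i - P j) * (P i - P j) = ((1 - lam : ℝ) : ℂ) • (1 : Matrix m m ℂ) := by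
  have hXX := h.idem i
  have hYY := h.idem j
  have hXYX := h.iso i j hij
  have hYXY := h.iso j i hij.symm
  set X := P i with hX
  set Y := P j with hY
  set K := (X - Y) * (X - Y) with hK
  have hK1 : K = X - X * Y - Y * X + Y := by
    rw [hK, sub_mul, mul_sub, mul_sub, hXX, hYY]; abel
  have hKX : K * X = ((1 - lam : ℝ) : ℂ) • X := by
    rw [hK1, add_mul, sub_mul, sub_mul, hXX, hXYX, Matrix.mul_assoc, hXX]
    push_cast
    rw [sub_smul, one_smul]; abel
  have hKY : K * Y = ((1 - lam : ℝ) : ℂ) • Y := by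
    rw [hK1, add_mul, sub_mul, sub_mul, hYY, hYXY, Matrix.mul_assoc, hYY]
    push_cast
    rw [sub_smul, one_smul]; abel
  have hKK : K * K = ((1 - lam : ℝ) : ℂ) • K := by
    conv_lhs => rw [hK1]
    rw [← hK1]
    conv_lhs =>
      rhs
      rw [hK1]
    rw [mul_add, mul_sub, mul_sub, ← Matrix.mul_assoc, ← Matrix.mul_assoc, hKX, hKY,
      smul_mul_assoc, smul_mul_assoc, ← smul_sub, ← smul_sub, ← smul_add, ← hK1]
  have hKh : Kᴴ = K := by
    rw [hK, conjTranspose_mul, conjTranspose_sub, hX, hY, h.herm, h.herm]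
  have htr : trace K = ((2 * nn * (1 - lam) : ℝ) : ℂ) := by
    rw [hK1, trace_add, trace_sub, trace_sub, hX, hY, h.tr, h.tr, h.tr_PP hij, h.tr_PP hij.symm]
    push_cast; ring
  have hc : ((1 - lam : ℝ) : ℂ) ≠ 0 := by
    rw [Ne, Complex.ofReal_eq_zero]; linarith
  set c : ℂ := ((1 - lam : ℝ) : ℂ) with hcdef
  have hcc : star (c⁻¹) = c⁻¹ := by
    rw [hcdef, ← Complex.ofReal_inv]; simp
  have hE : (1 - c⁻¹ • K)ᴴ * (1 - c⁻¹ • K) = 1 - c⁻¹ • K := by
    rw [conjTranspose_sub, conjTranspose_one, conjTranspose_smul, hKh, hcc, mul_sub, sub_mul,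
      sub_mul, one_mul, mul_one, smul_mul_assoc, mul_smul_comm, mul_smul_comm, hKK, smul_smul, smul_smul,
      mul_assoc, inv_mul_cancel₀ hc, mul_one, one_mul]
    simp
  have htrE : trace (1 - c⁻¹ • K) = 0 := by
    rw [trace_sub, trace_smul, trace_one, htr, smul_eq_mul]
    have : (Fintype.card m : ℂ) = ((2 * nn : ℝ) : ℂ) := by
      rw [← hm]; push_cast; rfl
    rw [this, hcdef]
    rw [hcdef] at hc
    field_simp
    push_cast
    ring
  have hE0 : (1 - c⁻¹ • K) = 0 := by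
    have := Matrix.trace_conjTranspose_mul_self_eq_zero_iff (A := (1 - c⁻¹ • K))
    rw [hE] at this
    exact this.mp htrE
  have : c⁻¹ • K = 1 := (sub_eq_zero.mp hE0).symm
  calc K = c • (c⁻¹ • K) := by rw [smul_smul, mul_inv_cancel₀ hc, one_smul]
    _ = c • 1 := by rw [this]

end Helper15.EIso
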