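import Pool.Agent.Helper15.EIso.Large
import Pool.Agent.Helper15.EIso.Small

set_option linter.unusedSectionVars false

namespace Helper15.EIso

open Matrix BigOperators ComplexOrder

/-- `W` is a family of `n`-dimensional subspaces of `ℂ^m` which is equi-isoclinic: for some
`0 < lam < 1`, `P_i P_j P_i = lam P_i` for all `i ≠ j`, where `P_i` is the orthogonal projection
onto `W i`. -/
def EquiIsoclinic {m v : ℕ} (n : ℕ) (W : Fin v → Submodule ℂ (EuclideanSpace ℂ (Fin m))) : Prop :=
  (∀ i, Module.finrank ℂ (W i) = n) ∧ ∃ lam : ℝ, 0 < lam ∧ lam < 1 ∧ ∀ i j, i ≠ j →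
    (W i).starProjection ∘L (W j).starProjection ∘L (W i).starProjection
      = (lam : ℂ) • (W i).starProjection

lemma Fam.sub {m : Type*} [Fintype m] [DecidableEq m] {N M : ℕ} {P : Fin N → Matrix m m ℂ}
    {nn lam : ℝ} (h : Fam P nn lam) (f : Fin M → Fin N) (hf : Function.Injective f) :
    Fam (fun i => P (f i)) nn lam where
  herm _ := h.herm _
  idem _ := h.idem _
  tr _ := h.tr _
  iso _ _ hij := h.iso _ _ (fun e => hij (hf e))

lemma Fam.cs {m : Type*} [Fintype m] [DecidableEq m] {N : ℕ} {P : Fin N → Matrix m m ℂ}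
    {nn lam : ℝ} (h : Fam P nn lam) :
    (N * nn) ^ 2 ≤ (Fintype.card m : ℝ) * (N * nn * (1 + (N - 1) * lam)) := by
  have hA : (A P).IsHermitian := h.A_herm
  obtain ⟨p1, p2, -, -⟩ := trace_pow hA
  have t1 : ∑ i, hA.eigenvalues i = N * nn := by
    have := p1.symm.trans h.tr_A
    exact_mod_cast this
  have t2 : ∑ i, hA.eigenvalues i ^ 2 = N * nn * (1 + (N - 1) * lam) := by
    have := p2.symm.trans h.tr_AA
    exact_mod_cast this
  have := sq_sum_le_card_mul_sum_sq (s := (Finset.univ : Finset m)) (f := hA.eigenvalues)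
  rw [t1, t2, Finset.card_univ] at this
  exact this

/-- the matrices of the projections -/
noncomputable def mat {m v : ℕ} (W : Fin v → Submodule ℂ (EuclideanSpace ℂ (Fin m))) (i : Fin v) :
    Matrix (Fin m) (Fin m) ℂ :=
  (Matrix.toEuclideanCLM (n := Fin m) (𝕜 := ℂ)).symm (W i).starProjection

lemma fam_mat {m v n : ℕ} (W : Fin v → Submodule ℂ (EuclideanSpace ℂ (Fin m)))
    (hd : ∀ i, Module.finrank ℂ (W i) = n) (lam : ℝ)
    (h : ∀ i j, i ≠ j → (W i).starProjection ∘L (W j).starProjection ∘L (W i).starProjection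
      = (lam : ℂ) • (W i).starProjection) : Fam (mat W) (n : ℝ) lam where
  herm k := by
    unfold mat
    rw [← Matrix.star_eq_conjTranspose, ← map_star, (isSelfAdjoint_starProjection (W k)).star_eq]
  idem k := by
    unfold mat
    rw [← map_mul, (W k).isIdempotentElem_starProjection]
  tr k := by
    have h1 : (((W k).starProjection : EuclideanSpace ℂ (Fin m) →L[ℂ] EuclideanSpace ℂ (Fin m)) :
        EuclideanSpace ℂ (Fin m) →ₗ[ℂ] EuclideanSpace ℂ (Fin m)) = toEuclideanLin (mat W k) := by
      rw [← Matrix.coe_toEuclideanCLM_eq_toEuclideanLin, mat, StarAlgEquiv.apply_symm_apply]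
    have hp : LinearMap.IsProj (W k) (((W k).starProjection :
        EuclideanSpace ℂ (Fin m) →L[ℂ] EuclideanSpace ℂ (Fin m)) :
        EuclideanSpace ℂ (Fin m) →ₗ[ℂ] EuclideanSpace ℂ (Fin m)) :=
      ⟨fun x => (W k).starProjection_apply_mem x,
        fun x hx => Submodule.starProjection_eq_self_iff.mpr hx⟩
    have h2 := hp.trace
    rw [h1, Matrix.toEuclideanLin_eq_toLin_orthonormal,
      LinearMap.trace_eq_matrix_trace ℂ (EuclideanSpace.basisFun (Fin m) ℂ).toBasis,
      LinearMap.toMatrix_toLin, hd k] at h2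
    rw [h2]
    push_cast; rfl
  iso i j hij := by
    unfold mat
    rw [← map_mul, ← map_mul, mul_assoc]
    have := h i j hij
    rw [← map_smul]
    congr 1

end Helper15.EIso
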