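import Mathlib

/-!
Equi-isoclinic 3-planes: the polynomial certificate.
-/

set_option maxRecDepth 100000
set_option linter.unusedVariables false

noncomputable section

namespace Helper15.EIso

def E_c0 (R : ℝ) : ℝ :=
    2916 * R ^ 2

def E_c1 (R : ℝ) : ℝ :=
    2592 * R + 9720 * R ^ 2 + 23328 * R ^ 3 + 17496 * R ^ 4

def E_c2 (R : ℝ) : ℝ :=
    360 + (-378) * R + (-19926) * R ^ 2 + 36936 * R ^ 3 +
    104976 * R ^ 4 + 100602 * R ^ 5 + 39366 * R ^ 6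

def E_c3 (R : ℝ) : ℝ :=
    (-768) + (-17280) * R + (-60048) * R ^ 2 + (-263736) * R ^ 3 +
    (-435456) * R ^ 4 + (-338256) * R ^ 5 + (-174960) * R ^ 6 + (-52488) * R ^ 7

def E_c4 (R : ℝ) : ℝ :=
    (-576) + 8880 * R + 40932 * R ^ 2 + (-220023) * R ^ 3 +
    (-743337) * R ^ 4 + (-1043442) * R ^ 5 + (-750870) * R ^ 6 + (-220887) * R ^ 7 +
    (-6561) * R ^ 8

def E_c5 (R : ℝ) : ℝ :=
    1408 + 21216 * R + 69864 * R ^ 2 + 718218 * R ^ 3 +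
    1692846 * R ^ 4 + 1758348 * R ^ 5 + 1136268 * R ^ 6 + 532170 * R ^ 7 +
    126846 * R ^ 8

def E_c6 (R : ℝ) : ℝ :=
    320 + (-9168) * R + 43788 * R ^ 2 + 520461 * R ^ 3 +
    1555974 * R ^ 4 + 2865159 * R ^ 5 + 3221856 * R ^ 6 + 1917027 * R ^ 7 +
    488430 * R ^ 8 + 24057 * R ^ 9

def E_c7 (R : ℝ) : ℝ :=
    (-512) + (-3328) * R + (-37376) * R ^ 2 + (-911376) * R ^ 3 +
    (-2293182) * R ^ 4 + (-2155626) * R ^ 5 + (-1113588) * R ^ 6 + (-751356) * R ^ 7 +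
    (-511758) * R ^ 8 + (-135594) * R ^ 9

def E_c8 (R : ℝ) : ℝ :=
    (-256) + (-3072) * R + (-98144) * R ^ 2 + (-281424) * R ^ 3 +
    (-880113) * R ^ 4 + (-3319893) * R ^ 5 + (-6453108) * R ^ 6 + (-6219018) * R ^ 7 +
    (-2969217) * R ^ 8 + (-601425) * R ^ 9 + (-21870) * R ^ 10

def E_c9 (R : ℝ) : ℝ :=
    47104 * R ^ 2 + 499712 * R ^ 3 + 767232 * R ^ 4 + (-314496) * R ^ 5 +
    (-1066824) * R ^ 6 + 134136 * R ^ 7 + 1189728 * R ^ 8 + 775656 * R ^ 9 +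
    157464 * R ^ 10

def E_c10 (R : ℝ) : ℝ :=
    (-4096) * R ^ 2 + (-192512) * R ^ 3 + (-39424) * R ^ 4 + 2635008 * R ^ 5 +
    7460208 * R ^ 6 + 9275904 * R ^ 7 + 6036444 * R ^ 8 + 1985796 * R ^ 9 +
    242028 * R ^ 10 + (-8748) * R ^ 11

def E_c11 (R : ℝ) : ℝ :=
    57344 * R ^ 3 + 452608 * R ^ 4 + 795648 * R ^ 5 + (-504576) * R ^ 6 +
    (-3192480) * R ^ 7 + (-4276152) * R ^ 8 + (-2781864) * R ^ 9 + (-915624) * R ^ 10 +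
    (-122472) * R ^ 11

def E_c12 (R : ℝ) : ℝ :=
    (-16384) * R ^ 3 + (-303104) * R ^ 4 + (-1219584) * R ^ 5 + (-2147328) * R ^ 6 +
    (-1764288) * R ^ 7 + (-282528) * R ^ 8 + 681372 * R ^ 9 + 589032 * R ^ 10 +
    201204 * R ^ 11 + 26244 * R ^ 12

/-- the certificate polynomial -/
def E (R s : ℝ) : ℝ :=
    E_c0 R + E_c1 R * s + E_c2 R * s ^ 2 + E_c3 R * s ^ 3 +
    E_c4 R * s ^ 4 + E_c5 R * s ^ 5 + E_c6 R * s ^ 6 + E_c7 R * s ^ 7 +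
    E_c8 R * s ^ 8 + E_c9 R * s ^ 9 + E_c10 R * s ^ 10 + E_c11 R * s ^ 11 +
    E_c12 R * s ^ 12

def E_u0 (x z : ℝ) : ℝ :=
    1116940551872 * z ^ 12 + 5828355467248 * x * z ^ 11 + 14076036707020 * x ^ 2 * z ^ 10 + 21065720247000 * x ^ 3 * z ^ 9 +
    21927617816580 * x ^ 4 * z ^ 8 + 16742484865008 * x ^ 5 * z ^ 7 + 9563338037792 * x ^ 6 * z ^ 6 + 4079240642960 * x ^ 7 * z ^ 5 +
    1276452959600 * x ^ 8 * z ^ 4 + 283197373760 * x ^ 9 * z ^ 3 + 41994037428 * x ^ 10 * z ^ 2 + 3718649592 * x ^ 11 * z +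
    148237740 * x ^ 12

lemma E_u0_nonneg (x z : ℝ) (hx : 0 ≤ x) (hz : 0 < z) : 0 < E_u0 x z := by
  unfold E_u0; positivity

def E_u1 (x z : ℝ) : ℝ :=
    5274662109896 * z ^ 12 + 29180683462984 * x * z ^ 11 + 75577070606086 * x ^ 2 * z ^ 10 + 121483927525372 * x ^ 3 * z ^ 9 +
    134737430405794 * x ^ 4 * z ^ 8 + 108084225132040 * x ^ 5 * z ^ 7 + 63891089780656 * x ^ 6 * z ^ 6 + 27866109433960 * x ^ 7 * z ^ 5 +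
    8854058083864 * x ^ 8 * z ^ 4 + 1991265788288 * x ^ 9 * z ^ 3 + 300196708266 * x ^ 10 * z ^ 2 + 27211003596 * x ^ 11 * z +
    1121665566 * x ^ 12

lemma E_u1_nonneg (x z : ℝ) (hx : 0 ≤ x) (hz : 0 < z) : 0 ≤ E_u1 x z := by
  unfold E_u1; positivity

def E_u2 (x z : ℝ) : ℝ :=
    12217336422204 * z ^ 12 + 71360269677024 * x * z ^ 11 + 194456495638418 * x ^ 2 * z ^ 10 + 325982179441404 * x ^ 3 * z ^ 9 +
    372875468258152 * x ^ 4 * z ^ 8 + 305241828477564 * x ^ 5 * z ^ 7 + 182642481171842 * x ^ 6 * z ^ 6 + 80235320579944 * x ^ 7 * z ^ 5 +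
    25628630469918 * x ^ 8 * z ^ 4 + 5797795094924 * x ^ 9 * z ^ 3 + 881394808252 * x ^ 10 * z ^ 2 + 80871029428 * x ^ 11 * z +
    3389938286 * x ^ 12

lemma E_u2_nonneg (x z : ℝ) (hx : 0 ≤ x) (hz : 0 < z) : 0 ≤ E_u2 x z := by
  unfold E_u2; positivity

def E_u3 (x z : ℝ) : ℝ :=
    18218360657008 * z ^ 12 + 110385214150880 * x * z ^ 11 + 309425499685264 * x ^ 2 * z ^ 10 + 528954777930768 * x ^ 3 * z ^ 9 +
    612370653228633 * x ^ 4 * z ^ 8 + 504574082012310 * x ^ 5 * z ^ 7 + 302872372439655 * x ^ 6 * z ^ 6 + 133288557464616 * x ^ 7 * z ^ 5 +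
    42656981720439 * x ^ 8 * z ^ 4 + 9681079560110 * x ^ 9 * z ^ 3 + 1479461591545 * x ^ 10 * z ^ 2 + 136783931396 * x ^ 11 * z +
    5791557744 * x ^ 12

lemma E_u3_nonneg (x z : ℝ) (hx : 0 ≤ x) (hz : 0 < z) : 0 ≤ E_u3 x z := by
  unfold E_u3; positivity

def E_u4 (x z : ℝ) : ℝ :=
    19067722736752 * z ^ 12 + 117606127103912 * x * z ^ 11 + 333402299772460 * x ^ 2 * z ^ 10 + 573438772238984 * x ^ 3 * z ^ 9 +
    665568411152571 * x ^ 4 * z ^ 8 + 548684438819574 * x ^ 5 * z ^ 7 + 329259800427186 * x ^ 6 * z ^ 6 + 144890569477308 * x ^ 7 * z ^ 5 +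
    46407719894319 * x ^ 8 * z ^ 4 + 10554631844546 * x ^ 9 * z ^ 3 + 1618778035588 * x ^ 10 * z ^ 2 + 150423619220 * x ^ 11 * z +
    6409354252 * x ^ 12

lemma E_u4_nonneg (x z : ℝ) (hx : 0 ≤ x) (hz : 0 < z) : 0 ≤ E_u4 x z := by
  unfold E_u4; positivity

def E_u5 (x z : ℝ) : ℝ :=
    14437408797096 * z ^ 12 + 89468172508344 * x * z ^ 11 + 254026709037066 * x ^ 2 * z ^ 10 + 436719236774340 * x ^ 3 * z ^ 9 +
    506149859005056 * x ^ 4 * z ^ 8 + 416571995146104 * x ^ 5 * z ^ 7 + 249659429238675 * x ^ 6 * z ^ 6 + 109803912984612 * x ^ 7 * z ^ 5 +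
    35184668913774 * x ^ 8 * z ^ 4 + 8013724798548 * x ^ 9 * z ^ 3 + 1232024273481 * x ^ 10 * z ^ 2 + 114848325564 * x ^ 11 * z +
    4911585756 * x ^ 12

lemma E_u5_nonneg (x z : ℝ) (hx : 0 ≤ x) (hz : 0 < z) : 0 ≤ E_u5 x z := by
  unfold E_u5; positivity

def E_u6 (x z : ℝ) : ℝ :=
    7992615329496 * z ^ 12 + 49437563313960 * x * z ^ 11 + 139998733884702 * x ^ 2 * z ^ 10 + 240006466247436 * x ^ 3 * z ^ 9 +
    277447083660990 * x ^ 4 * z ^ 8 + 227876812624944 * x ^ 5 * z ^ 7 + 136385044212222 * x ^ 6 * z ^ 6 + 59947479278208 * x ^ 7 * z ^ 5 +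
    19211207973966 * x ^ 8 * z ^ 4 + 4378795564464 * x ^ 9 * z ^ 3 + 674003621268 * x ^ 10 * z ^ 2 + 62922896172 * x ^ 11 * z +
    2695058604 * x ^ 12

lemma E_u6_nonneg (x z : ℝ) (hx : 0 ≤ x) (hz : 0 < z) : 0 ≤ E_u6 x z := by
  unfold E_u6; positivity

def E_u7 (x z : ℝ) : ℝ :=
    3240493537104 * z ^ 12 + 19965011807520 * x * z ^ 11 + 56335037398200 * x ^ 2 * z ^ 10 + 96280762042224 * x ^ 3 * z ^ 9 +
    111023177498001 * x ^ 4 * z ^ 8 + 91014794011278 * x ^ 5 * z ^ 7 + 54400409358885 * x ^ 6 * z ^ 6 + 23891346607104 * x ^ 7 * z ^ 5 +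
    7652810697291 * x ^ 8 * z ^ 4 + 1743899927238 * x ^ 9 * z ^ 3 + 268391843847 * x ^ 10 * z ^ 2 + 25051210956 * x ^ 11 * z +
    1072526400 * x ^ 12

lemma E_u7_nonneg (x z : ℝ) (hx : 0 ≤ x) (hz : 0 < z) : 0 ≤ E_u7 x z := by
  unfold E_u7; positivity

def E_u8 (x z : ℝ) : ℝ :=
    955858106160 * z ^ 12 + 5866984291392 * x * z ^ 11 + 16501520214504 * x ^ 2 * z ^ 10 + 28125701153640 * x ^ 3 * z ^ 9 +
    32358305755683 * x ^ 4 * z ^ 8 + 26475612598638 * x ^ 5 * z ^ 7 + 15798299242590 * x ^ 6 * z ^ 6 + 6927726145356 * x ^ 7 * z ^ 5 +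
    2215823346099 * x ^ 8 * z ^ 4 + 504169946082 * x ^ 9 * z ^ 3 + 77464051920 * x ^ 10 * z ^ 2 + 7216556004 * x ^ 11 * z +
    308275956 * x ^ 12

lemma E_u8_nonneg (x z : ℝ) (hx : 0 ≤ x) (hz : 0 < z) : 0 ≤ E_u8 x z := by
  unfold E_u8; positivity

def E_u9 (x z : ℝ) : ℝ :=
    201195772992 * z ^ 12 + 1230931173312 * x * z ^ 11 + 3451873541616 * x ^ 2 * z ^ 10 + 5867186874336 * x ^ 3 * z ^ 9 +
    6732204912252 * x ^ 4 * z ^ 8 + 5493880512540 * x ^ 5 * z ^ 7 + 3269574221121 * x ^ 6 * z ^ 6 + 1429806301164 * x ^ 7 * z ^ 5 +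
    455994976248 * x ^ 8 * z ^ 4 + 103431101256 * x ^ 9 * z ^ 3 + 15838569657 * x ^ 10 * z ^ 2 + 1470159720 * x ^ 11 * z +
    62554518 * x ^ 12

lemma E_u9_nonneg (x z : ℝ) (hx : 0 ≤ x) (hz : 0 < z) : 0 ≤ E_u9 x z := by
  unfold E_u9; positivity

def E_u10 (x z : ℝ) : ℝ :=
    28922614272 * z ^ 12 + 176293988352 * x * z ^ 11 + 492512306688 * x ^ 2 * z ^ 10 + 833889406464 * x ^ 3 * z ^ 9 +
    953008659648 * x ^ 4 * z ^ 8 + 774485774208 * x ^ 5 * z ^ 7 + 458928548064 * x ^ 6 * z ^ 6 + 199787733792 * x ^ 7 * z ^ 5 +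
    63416539602 * x ^ 8 * z ^ 4 + 14313780864 * x ^ 9 * z ^ 3 + 2180660616 * x ^ 10 * z ^ 2 + 201332304 * x ^ 11 * z +
    8519094 * x ^ 12

lemma E_u10_nonneg (x z : ℝ) (hx : 0 ≤ x) (hz : 0 < z) : 0 ≤ E_u10 x z := by
  unfold E_u10; positivity

def E_u11 (x z : ℝ) : ℝ :=
    2570932224 * z ^ 12 + 15577878528 * x * z ^ 11 + 43255710720 * x ^ 2 * z ^ 10 + 72783360000 * x ^ 3 * z ^ 9 +
    82653903360 * x ^ 4 * z ^ 8 + 66737862144 * x ^ 5 * z ^ 7 + 39287058048 * x ^ 6 * z ^ 6 + 16989315840 * x ^ 7 * z ^ 5 +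
    5356400400 * x ^ 8 * z ^ 4 + 1200750480 * x ^ 9 * z ^ 3 + 181669716 * x ^ 10 * z ^ 2 + 16656192 * x ^ 11 * z +
    699840 * x ^ 12

lemma E_u11_nonneg (x z : ℝ) (hx : 0 ≤ x) (hz : 0 < z) : 0 ≤ E_u11 x z := by
  unfold E_u11; positivity

def E_u12 (x z : ℝ) : ℝ :=
    107495424 * z ^ 12 + 644972544 * x * z ^ 11 + 1773674496 * x ^ 2 * z ^ 10 + 2956124160 * x ^ 3 * z ^ 9 +
    3325639680 * x ^ 4 * z ^ 8 + 2660511744 * x ^ 5 * z ^ 7 + 1551965184 * x ^ 6 * z ^ 6 + 665127936 * x ^ 7 * z ^ 5 +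
    207852480 * x ^ 8 * z ^ 4 + 46189440 * x ^ 9 * z ^ 3 + 6928416 * x ^ 10 * z ^ 2 + 629856 * x ^ 11 * z +
    26244 * x ^ 12

lemma E_u12_nonneg (x z : ℝ) (hx : 0 ≤ x) (hz : 0 < z) : 0 ≤ E_u12 x z := by
  unfold E_u12; positivity

lemma E_ii_id (z ρ : ℝ) : E (2 + ρ) (1 - z) =
    E_u0 (1 - 3 * z) z + E_u1 (1 - 3 * z) z * ρ + E_u2 (1 - 3 * z) z * ρ ^ 2 + E_u3 (1 - 3 * z) z * ρ ^ 3 +
    E_u4 (1 - 3 * z) z * ρ ^ 4 + E_u5 (1 - 3 * z) z * ρ ^ 5 + E_u6 (1 - 3 * z) z * ρ ^ 6 + E_u7 (1 - 3 * z) z * ρ ^ 7 +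
    E_u8 (1 - 3 * z) z * ρ ^ 8 + E_u9 (1 - 3 * z) z * ρ ^ 9 + E_u10 (1 - 3 * z) z * ρ ^ 10 + E_u11 (1 - 3 * z) z * ρ ^ 11 +
    E_u12 (1 - 3 * z) z * ρ ^ 12 := by
  unfold E E_c0 E_c1 E_c2 E_c3 E_c4 E_c5 E_c6 E_c7 E_c8 E_c9 E_c10 E_c11 E_c12 E_u0 E_u1 E_u2 E_u3 E_u4 E_u5 E_u6 E_u7 E_u8 E_u9 E_u10 E_u11 E_u12; ring

lemma E_ii (z ρ : ℝ) (hx : 0 ≤ 1 - 3 * z) (hz : 0 < z) (hρ : 0 ≤ ρ) :
    0 < E (2 + ρ) (1 - z) := by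
  rw [E_ii_id]
  have h0 := E_u0_nonneg _ z hx hz
  have h1 := E_u1_nonneg _ z hx hz
  have h2 := E_u2_nonneg _ z hx hz
  have h3 := E_u3_nonneg _ z hx hz
  have h4 := E_u4_nonneg _ z hx hz
  have h5 := E_u5_nonneg _ z hx hz
  have h6 := E_u6_nonneg _ z hx hz
  have h7 := E_u7_nonneg _ z hx hz
  have h8 := E_u8_nonneg _ z hx hz
  have h9 := E_u9_nonneg _ z hx hz
  have h10 := E_u10_nonneg _ z hx hz
  have h11 := E_u11_nonneg _ z hx hz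
  have h12 := E_u12_nonneg _ z hx hz
  positivity

def E_v0 (s w : ℝ) : ℝ :=
    (3486784401 / 8192 : ℝ) * w ^ 14 + (66248903619 / 4096 : ℝ) * s * w ^ 13 + (2237353323975 / 8192 : ℝ) * s ^ 2 * w ^ 12 + (5538175890255 / 2048 : ℝ) * s ^ 3 * w ^ 11 +
    (143063926234497 / 8192 : ℝ) * s ^ 4 * w ^ 10 + (317575160981613 / 4096 : ℝ) * s ^ 5 * w ^ 9 + (1994567363871903 / 8192 : ℝ) * s ^ 6 * w ^ 8 + (562528738720665 / 1024 : ℝ) * s ^ 7 * w ^ 7 +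
    (7347055713113115 / 8192 : ℝ) * s ^ 8 * w ^ 6 + (4335169023006381 / 4096 : ℝ) * s ^ 9 * w ^ 5 + (7313849903000925 / 8192 : ℝ) * s ^ 10 * w ^ 4 + (1074074878191375 / 2048 : ℝ) * s ^ 11 * w ^ 3 +
    (1668571618561875 / 8192 : ℝ) * s ^ 12 * w ^ 2 + (192499555471875 / 4096 : ℝ) * s ^ 13 * w + (39952737928125 / 8192 : ℝ) * s ^ 14

lemma E_v0_nonneg (s w : ℝ) (hs : 0 < s) (hw : 0 ≤ w) : 0 < E_v0 s w := by
  unfold E_v0; positivity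

def E_v1 (s w : ℝ) : ℝ :=
    (29056536675 / 16384 : ℝ) * w ^ 14 + (548974832913 / 8192 : ℝ) * s * w ^ 13 + (18517537112733 / 16384 : ℝ) * s ^ 2 * w ^ 12 + (46053319228245 / 4096 : ℝ) * s ^ 3 * w ^ 11 +
    (1204466667651171 / 16384 : ℝ) * s ^ 4 * w ^ 10 + (2732693965717887 / 8192 : ℝ) * s ^ 5 * w ^ 9 + (17735639787086517 / 16384 : ℝ) * s ^ 6 * w ^ 8 + (5230168465669731 / 2048 : ℝ) * s ^ 7 * w ^ 7 +
    (72258655692109185 / 16384 : ℝ) * s ^ 8 * w ^ 6 + (45585323155082943 / 8192 : ℝ) * s ^ 9 * w ^ 5 + (83006809543156239 / 16384 : ℝ) * s ^ 10 * w ^ 4 + (13265297732272149 / 4096 : ℝ) * s ^ 11 * w ^ 3 +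
    (22585265639697465 / 16384 : ℝ) * s ^ 12 * w ^ 2 + (2873378312262225 / 8192 : ℝ) * s ^ 13 * w + (661256823801375 / 16384 : ℝ) * s ^ 14

lemma E_v1_nonneg (s w : ℝ) (hs : 0 < s) (hw : 0 ≤ w) : 0 ≤ E_v1 s w := by
  unfold E_v1; positivity

def E_v2 (s w : ℝ) : ℝ :=
    (28023415371 / 8192 : ℝ) * w ^ 14 + (527021005203 / 4096 : ℝ) * s * w ^ 13 + (17742782228175 / 8192 : ℝ) * s ^ 2 * w ^ 12 + (44185177630287 / 2048 : ℝ) * s ^ 3 * w ^ 11 +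
    (1161583696377855 / 8192 : ℝ) * s ^ 4 * w ^ 10 + (2660487654192813 / 4096 : ℝ) * s ^ 5 * w ^ 9 + (17511958760519043 / 8192 : ℝ) * s ^ 6 * w ^ 8 + (5261838483567897 / 1024 : ℝ) * s ^ 7 * w ^ 7 +
    (74400355515947409 / 8192 : ℝ) * s ^ 8 * w ^ 6 + (48236595690891645 / 4096 : ℝ) * s ^ 9 * w ^ 5 + (90615944817308925 / 8192 : ℝ) * s ^ 10 * w ^ 4 + (14992986995946063 / 2048 : ℝ) * s ^ 11 * w ^ 3 +
    (26514001433490021 / 8192 : ℝ) * s ^ 12 * w ^ 2 + (3513671958487203 / 4096 : ℝ) * s ^ 13 * w + (844346182715505 / 8192 : ℝ) * s ^ 14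

lemma E_v2_nonneg (s w : ℝ) (hs : 0 < s) (hw : 0 ≤ w) : 0 ≤ E_v2 s w := by
  unfold E_v2; positivity

def E_v3 (s w : ℝ) : ℝ :=
    (129140163 / 32 : ℝ) * w ^ 14 + (155269522647 / 1024 : ℝ) * s * w ^ 13 + (10467915076989 / 4096 : ℝ) * s ^ 2 * w ^ 12 + (3270704210487 / 128 : ℝ) * s ^ 3 * w ^ 11 +
    (346049476406181 / 2048 : ℝ) * s ^ 4 * w ^ 10 + (799149246115095 / 1024 : ℝ) * s ^ 5 * w ^ 9 + (10623129514182027 / 4096 : ℝ) * s ^ 6 * w ^ 8 + (806202186693327 / 128 : ℝ) * s ^ 7 * w ^ 7 +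
    (11509659204127083 / 1024 : ℝ) * s ^ 8 * w ^ 6 + (15043158796388517 / 1024 : ℝ) * s ^ 9 * w ^ 5 + (56827510081401987 / 4096 : ℝ) * s ^ 10 * w ^ 4 + (589140121731957 / 64 : ℝ) * s ^ 11 * w ^ 3 +
    (8331210499349493 / 2048 : ℝ) * s ^ 12 * w ^ 2 + (1100617846676973 / 1024 : ℝ) * s ^ 13 * w + (526144125958677 / 4096 : ℝ) * s ^ 14

lemma E_v3_nonneg (s w : ℝ) (hs : 0 < s) (hw : 0 ≤ w) : 0 ≤ E_v3 s w := by
  unfold E_v3; positivity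

def E_v4 (s w : ℝ) : ℝ :=
    (3314597517 / 1024 : ℝ) * w ^ 14 + (31237570539 / 256 : ℝ) * s * w ^ 13 + (8475186702519 / 4096 : ℝ) * s ^ 2 * w ^ 12 + (667946403819 / 32 : ℝ) * s ^ 3 * w ^ 11 +
    (285982196714037 / 2048 : ℝ) * s ^ 4 * w ^ 10 + (1307872580913 / 2 : ℝ) * s ^ 5 * w ^ 9 + (9037275293300409 / 4096 : ℝ) * s ^ 6 * w ^ 8 + (174054139685811 / 32 : ℝ) * s ^ 7 * w ^ 7 +
    (2516898999943881 / 256 : ℝ) * s ^ 8 * w ^ 6 + (3316020106789467 / 256 : ℝ) * s ^ 9 * w ^ 5 + (50109401612583513 / 4096 : ℝ) * s ^ 10 * w ^ 4 + (256746322793529 / 32 : ℝ) * s ^ 11 * w ^ 3 +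
    (7062322458196089 / 2048 : ℝ) * s ^ 12 * w ^ 2 + (110954856228417 / 128 : ℝ) * s ^ 13 * w + (391697631924759 / 4096 : ℝ) * s ^ 14

lemma E_v4_nonneg (s w : ℝ) (hs : 0 < s) (hw : 0 ≤ w) : 0 ≤ E_v4 s w := by
  unfold E_v4; positivity

def E_v5 (s w : ℝ) : ℝ :=
    (15195492513 / 4096 : ℝ) * w ^ 13 + (531421336683 / 4096 : ℝ) * s * w ^ 12 + (259235325477 / 128 : ℝ) * s ^ 2 * w ^ 11 + (19080521261847 / 1024 : ℝ) * s ^ 3 * w ^ 10 +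
    (460414710168705 / 4096 : ℝ) * s ^ 4 * w ^ 9 + (1917368101441791 / 4096 : ℝ) * s ^ 5 * w ^ 8 + (706708245530457 / 512 : ℝ) * s ^ 6 * w ^ 7 + (744645243157371 / 256 : ℝ) * s ^ 7 * w ^ 6 +
    (17884540210309875 / 4096 : ℝ) * s ^ 8 * w ^ 5 + (18810513284402457 / 4096 : ℝ) * s ^ 9 * w ^ 4 + (1674367422936219 / 512 : ℝ) * s ^ 10 * w ^ 3 + (1513526505852573 / 1024 : ℝ) * s ^ 11 * w ^ 2 +
    (1526389526373291 / 4096 : ℝ) * s ^ 12 * w + (155095714336509 / 4096 : ℝ) * s ^ 13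

lemma E_v5_nonneg (s w : ℝ) (hs : 0 < s) (hw : 0 ≤ w) : 0 ≤ E_v5 s w := by
  unfold E_v5; positivity

def E_v6 (s w : ℝ) : ℝ :=
    (3180674385 / 1024 : ℝ) * w ^ 12 + (12867780933 / 128 : ℝ) * s * w ^ 11 + (1475173396359 / 1024 : ℝ) * s ^ 2 * w ^ 10 + (6168553135461 / 512 : ℝ) * s ^ 3 * w ^ 9 +
    (2088499888521 / 32 : ℝ) * s ^ 4 * w ^ 8 + (30767018328693 / 128 : ℝ) * s ^ 5 * w ^ 7 + (314723628911259 / 512 : ℝ) * s ^ 6 * w ^ 6 + (280348394097879 / 256 : ℝ) * s ^ 7 * w ^ 5 +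
    (1374383938342905 / 1024 : ℝ) * s ^ 8 * w ^ 4 + (35069567066019 / 32 : ℝ) * s ^ 9 * w ^ 3 + (572635187292771 / 1024 : ℝ) * s ^ 10 * w ^ 2 + (80037978210261 / 512 : ℝ) * s ^ 11 * w +
    (8747570055483 / 512 : ℝ) * s ^ 12

lemma E_v6_nonneg (s w : ℝ) (hs : 0 < s) (hw : 0 ≤ w) : 0 ≤ E_v6 s w := by
  unfold E_v6; positivity

def E_v7 (s w : ℝ) : ℝ :=
    (977319999 / 256 : ℝ) * w ^ 10 + (13114369557 / 128 : ℝ) * s * w ^ 9 + (151631986149 / 128 : ℝ) * s ^ 2 * w ^ 8 + (494718604047 / 64 : ℝ) * s ^ 3 * w ^ 7 +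
    (4012218523377 / 128 : ℝ) * s ^ 4 * w ^ 6 + (2625995300589 / 32 : ℝ) * s ^ 5 * w ^ 5 + (2235407895621 / 16 : ℝ) * s ^ 6 * w ^ 4 + (9725859206037 / 64 : ℝ) * s ^ 7 * w ^ 3 +
    (25696256168151 / 256 : ℝ) * s ^ 8 * w ^ 2 + (4589467677423 / 128 : ℝ) * s ^ 9 * w + (651041147511 / 128 : ℝ) * s ^ 10

lemma E_v7_nonneg (s w : ℝ) (hs : 0 < s) (hw : 0 ≤ w) : 0 ≤ E_v7 s w := by
  unfold E_v7; positivity

def E_v8 (s w : ℝ) : ℝ :=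
    (436313061 / 128 : ℝ) * w ^ 8 + (2330014491 / 32 : ℝ) * s * w ^ 7 + (41102414577 / 64 : ℝ) * s ^ 2 * w ^ 6 + (48405240603 / 16 : ℝ) * s ^ 3 * w ^ 5 +
    (32963927103 / 4 : ℝ) * s ^ 4 * w ^ 4 + (422011097955 / 32 : ℝ) * s ^ 5 * w ^ 3 + (773357161923 / 64 : ℝ) * s ^ 6 * w ^ 2 + (46314486099 / 8 : ℝ) * s ^ 7 * w +
    (140805483219 / 128 : ℝ) * s ^ 8

lemma E_v8_nonneg (s w : ℝ) (hs : 0 < s) (hw : 0 ≤ w) : 0 ≤ E_v8 s w := by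
  unfold E_v8; positivity

def E_v9 (s w : ℝ) : ℝ :=
    (137643219 / 64 : ℝ) * w ^ 6 + (1095772293 / 32 : ℝ) * s * w ^ 5 + (13358753685 / 64 : ℝ) * s ^ 2 * w ^ 4 + (9752395059 / 16 : ℝ) * s ^ 3 * w ^ 3 +
    (56387208861 / 64 : ℝ) * s ^ 4 * w ^ 2 + (19358132085 / 32 : ℝ) * s ^ 5 * w + (10019506491 / 64 : ℝ) * s ^ 6

lemma E_v9_nonneg (s w : ℝ) (hs : 0 < s) (hw : 0 ≤ w) : 0 ≤ E_v9 s w := by
  unfold E_v9; positivity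

def E_v10 (s w : ℝ) : ℝ :=
    (7263027 / 8 : ℝ) * w ^ 4 + (19112193 / 2 : ℝ) * s * w ^ 3 + (129599433 / 4 : ℝ) * s ^ 2 * w ^ 2 + (76796505 / 2 : ℝ) * s ^ 3 * w +
    (116228115 / 8 : ℝ) * s ^ 4

lemma E_v10_nonneg (s w : ℝ) (hs : 0 < s) (hw : 0 ≤ w) : 0 ≤ E_v10 s w := by
  unfold E_v10; positivity

def E_v11 (s w : ℝ) : ℝ :=
    229635 * w ^ 2 + 1194102 * s * w + 859491 * s ^ 2

lemma E_v11_nonneg (s w : ℝ) (hs : 0 < s) (hw : 0 ≤ w) : 0 ≤ E_v11 s w := by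
  unfold E_v11; positivity

def E_v12 (s w : ℝ) : ℝ :=
    26244

lemma E_v12_nonneg (s w : ℝ) (hs : 0 < s) (hw : 0 ≤ w) : 0 ≤ E_v12 s w := by
  unfold E_v12; positivity

lemma E_i_id (R s : ℝ) : E R s * s ^ 12 * 531441 =
    E_v0 s (2 - 3 * s) +
    E_v1 s (2 - 3 * s) * ((3 * R + 4) * s ^ 2 - 3) +
    E_v2 s (2 - 3 * s) * ((3 * R + 4) * s ^ 2 - 3) ^ 2 +
    E_v3 s (2 - 3 * s) * ((3 * R + 4) * s ^ 2 - 3) ^ 3 +
    E_v4 s (2 - 3 * s) * ((3 * R + 4) * s ^ 2 - 3) ^ 4 +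
    E_v5 s (2 - 3 * s) * ((3 * R + 4) * s ^ 2 - 3) ^ 5 +
    E_v6 s (2 - 3 * s) * ((3 * R + 4) * s ^ 2 - 3) ^ 6 +
    E_v7 s (2 - 3 * s) * ((3 * R + 4) * s ^ 2 - 3) ^ 7 +
    E_v8 s (2 - 3 * s) * ((3 * R + 4) * s ^ 2 - 3) ^ 8 +
    E_v9 s (2 - 3 * s) * ((3 * R + 4) * s ^ 2 - 3) ^ 9 +
    E_v10 s (2 - 3 * s) * ((3 * R + 4) * s ^ 2 - 3) ^ 10 +
    E_v11 s (2 - 3 * s) * ((3 * R + 4) * s ^ 2 - 3) ^ 11 +
    E_v12 s (2 - 3 * s) * ((3 * R + 4) * s ^ 2 - 3) ^ 12 := by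
  unfold E E_c0 E_c1 E_c2 E_c3 E_c4 E_c5 E_c6 E_c7 E_c8 E_c9 E_c10 E_c11 E_c12 E_v0 E_v1 E_v2 E_v3 E_v4 E_v5 E_v6 E_v7 E_v8 E_v9 E_v10 E_v11 E_v12; ring

lemma E_i (R s : ℝ) (hs : 0 < s) (hq : 0 < (3 * R + 4) * s ^ 2 - 3) (hw : 0 ≤ 2 - 3 * s) :
    0 < E R s := by
  have hp : 0 < E R s * s ^ 12 * 531441 := by
    rw [E_i_id]
    have h0 := E_v0_nonneg s _ hs hw
    have h1 := E_v1_nonneg s _ hs hw
    have h2 := E_v2_nonneg s _ hs hw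
    have h3 := E_v3_nonneg s _ hs hw
    have h4 := E_v4_nonneg s _ hs hw
    have h5 := E_v5_nonneg s _ hs hw
    have h6 := E_v6_nonneg s _ hs hw
    have h7 := E_v7_nonneg s _ hs hw
    have h8 := E_v8_nonneg s _ hs hw
    have h9 := E_v9_nonneg s _ hs hw
    have h10 := E_v10_nonneg s _ hs hw
    have h11 := E_v11_nonneg s _ hs hw
    have h12 := E_v12_nonneg s _ hs hw
    positivity
  have h2 : 0 < s ^ 12 * 531441 := by positivity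
  rw [mul_assoc] at hp
  exact (pos_iff_pos_of_mul_pos hp).mpr h2

lemma E_pos (R s : ℝ) (hR : 2 ≤ R) (hs : 0 < s) (hs1 : s < 1) (hq : 0 < (3 * R + 4) * s ^ 2 - 3) :
    0 < E R s := by
  rcases le_total s (2 / 3) with h | h
  · exact E_i R s hs hq (by linarith)
  · have := E_ii (1 - s) (R - 2) (by linarith) (by linarith) (by linarith)
    have e1 : 2 + (R - 2) = R := by ring
    have e2 : 1 - (1 - s) = s := by ring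
    rwa [e1, e2] at this

end Helper15.EIso

end
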