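import Mathlib

/-!
Equi-isoclinic 6-planes: the polynomial certificate.
-/

set_option maxRecDepth 100000
set_option linter.unusedVariables false

noncomputable section

namespace Helper15.EIso

def E6_c0 (R : ℝ) : ℝ :=
    419904 * R ^ 2

def E6_c1 (R : ℝ) : ℝ :=
    108864 * R + 419904 * R ^ 2 + 3359232 * R ^ 3 + 3359232 * R ^ 4

def E6_c2 (R : ℝ) : ℝ :=
    4032 + (-87264) * R + (-2372976) * R ^ 2 + 6321888 * R ^ 3 +
    23141376 * R ^ 4 + 29113344 * R ^ 5 + 13436928 * R ^ 6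

def E6_c3 (R : ℝ) : ℝ :=
    (-8232) + (-465696) * R + (-1433376) * R ^ 2 + (-31845312) * R ^ 3 +
    (-74649600) * R ^ 4 + (-77822208) * R ^ 5 + (-54867456) * R ^ 6 + (-20155392) * R ^ 7

def E6_c4 (R : ℝ) : ℝ :=
    (-6174) + 368088 * R + 3170160 * R ^ 2 + (-28587816) * R ^ 3 +
    (-112282848) * R ^ 4 + (-211756032) * R ^ 5 + (-201833856) * R ^ 6 + (-75302784) * R ^ 7 +
    (-3359232) * R ^ 8

def E6_c5 (R : ℝ) : ℝ :=
    13720 + 455112 * R + 725256 * R ^ 2 + 85581792 * R ^ 3 +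
    230492304 * R ^ 4 + 238381056 * R ^ 5 + 172627200 * R ^ 6 + 120932352 * R ^ 7 +
    41990400 * R ^ 8

def E6_c6 (R : ℝ) : ℝ :=
    3773 + (-299096) * R + 2049096 * R ^ 2 + 41347188 * R ^ 3 +
    170673588 * R ^ 4 + 521679528 * R ^ 5 + 866814048 * R ^ 6 + 680431104 * R ^ 7 +
    217650240 * R ^ 8 + 14276736 * R ^ 9

def E6_c7 (R : ℝ) : ℝ :=
    (-4802) + (-65856) * R + (-942564) * R ^ 2 + (-101466288) * R ^ 3 +
    (-215126280) * R ^ 4 + 7782480 * R ^ 5 + 243046656 * R ^ 6 + 48988800 * R ^ 7 +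
    (-130730112) * R ^ 8 + (-58786560) * R ^ 9

def E6_c8 (R : ℝ) : ℝ :=
    (-2401) + (-17836) * R + (-3791130) * R ^ 2 + (-4184082) * R ^ 3 +
    (-81526824) * R ^ 4 + (-714821112) * R ^ 5 + (-1878603840) * R ^ 6 + (-2211844320) * R ^ 7 +
    (-1246555008) * R ^ 8 + (-289733760) * R ^ 9 + (-10077696) * R ^ 10

def E6_c9 (R : ℝ) : ℝ :=
    1786344 * R ^ 2 + 44847936 * R ^ 3 + (-18315612) * R ^ 4 + (-453808656) * R ^ 5 +
    (-712884240) * R ^ 6 + (-141740928) * R ^ 7 + 484429248 * R ^ 8 + 401428224 * R ^ 9 +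
    95738112 * R ^ 10

def E6_c10 (R : ℝ) : ℝ :=
    (-100842) * R ^ 2 + (-19008717) * R ^ 3 + 35164017 * R ^ 4 + 651410802 * R ^ 5 +
    1979489988 * R ^ 6 + 2776994280 * R ^ 7 + 2028824496 * R ^ 8 + 718385760 * R ^ 9 +
    71803584 * R ^ 10 + (-12597120) * R ^ 11

def E6_c11 (R : ℝ) : ℝ :=
    3932838 * R ^ 3 + 89158734 * R ^ 4 + 280682388 * R ^ 5 + 165459672 * R ^ 6 +
    (-567589680) * R ^ 7 + (-1209020256) * R ^ 8 + (-1014907968) * R ^ 9 + (-408986496) * R ^ 10 +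
    (-65505024) * R ^ 11

def E6_c12 (R : ℝ) : ℝ :=
    (-1058841) * R ^ 3 + (-55210995) * R ^ 4 + (-293018040) * R ^ 5 + (-654345216) * R ^ 6 +
    (-719373312) * R ^ 7 + (-305853408) * R ^ 8 + 135768960 * R ^ 9 + 218350080 * R ^ 10 +
    95738112 * R ^ 11 + 15116544 * R ^ 12

/-- the certificate polynomial -/
def E6 (R s : ℝ) : ℝ :=
    E6_c0 R + E6_c1 R * s + E6_c2 R * s ^ 2 + E6_c3 R * s ^ 3 +
    E6_c4 R * s ^ 4 + E6_c5 R * s ^ 5 + E6_c6 R * s ^ 6 + E6_c7 R * s ^ 7 +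
    E6_c8 R * s ^ 8 + E6_c9 R * s ^ 9 + E6_c10 R * s ^ 10 + E6_c11 R * s ^ 11 +
    E6_c12 R * s ^ 12

def E6_u0 (x z : ℝ) : ℝ :=
    4249283217746 * z ^ 12 + 46072260385100 * x * z ^ 11 + 184699350775818 * x ^ 2 * z ^ 10 + 409425671572980 * x ^ 3 * z ^ 9 +
    664481891239675 * x ^ 4 * z ^ 8 + 1028600379199426 * x ^ 5 * z ^ 7 + 1524059340001915 * x ^ 6 * z ^ 6 + 1792617694559008 * x ^ 7 * z ^ 5 +
    1492242502795215 * x ^ 8 * z ^ 4 + 838682196450750 * x ^ 9 * z ^ 3 + 304396410288239 * x ^ 10 * z ^ 2 + 64994825519120 * x ^ 11 * z +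
    6264253146912 * x ^ 12

lemma E6_u0_nonneg (x z : ℝ) (hx : 0 ≤ x) (hz : 0 < z) : 0 < E6_u0 x z := by
  unfold E6_u0; positivity

def E6_u1 (x z : ℝ) : ℝ :=
    14076287666025 * z ^ 12 + 133887980621714 * x * z ^ 11 + 546920677040815 * x ^ 2 * z ^ 10 + 1451972253348660 * x ^ 3 * z ^ 9 +
    3174215113384190 * x ^ 4 * z ^ 8 + 5999720149110100 * x ^ 5 * z ^ 7 + 8993475932008674 * x ^ 6 * z ^ 6 + 9899113131127720 * x ^ 7 * z ^ 5 +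
    7700900379164105 * x ^ 8 * z ^ 4 + 4117346189327370 * x ^ 9 * z ^ 3 + 1446147920100175 * x ^ 10 * z ^ 2 + 302432227423796 * x ^ 11 * z +
    28735624114800 * x ^ 12

lemma E6_u1_nonneg (x z : ℝ) (hx : 0 ≤ x) (hz : 0 < z) : 0 ≤ E6_u1 x z := by
  unfold E6_u1; positivity

def E6_u2 (x z : ℝ) : ℝ :=
    19185944380701 * z ^ 12 + 184390184496390 * x * z ^ 11 + 870728537515023 * x ^ 2 * z ^ 10 + 2895548519553864 * x ^ 3 * z ^ 9 +
    7492691906854236 * x ^ 4 * z ^ 8 + 14793724014441816 * x ^ 5 * z ^ 7 + 21501710244152934 * x ^ 6 * z ^ 6 + 22537164874009788 * x ^ 7 * z ^ 5 +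
    16790519458100517 * x ^ 8 * z ^ 4 + 8692554079964898 * x ^ 9 * z ^ 3 + 2985552081010059 * x ^ 10 * z ^ 2 + 614711783281692 * x ^ 11 * z +
    57705284154882 * x ^ 12

lemma E6_u2_nonneg (x z : ℝ) (hx : 0 ≤ x) (hz : 0 < z) : 0 ≤ E6_u2 x z := by
  unfold E6_u2; positivity

def E6_u3 (x z : ℝ) : ℝ :=
    16351545995499 * z ^ 12 + 180153190611762 * x * z ^ 11 + 1026017206967355 * x ^ 2 * z ^ 10 + 3920317259970180 * x ^ 3 * z ^ 9 +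
    10634671872096552 * x ^ 4 * z ^ 8 + 20692741064721516 * x ^ 5 * z ^ 7 + 28991703469164858 * x ^ 6 * z ^ 6 + 29269133762496264 * x ^ 7 * z ^ 5 +
    21141715163056911 * x ^ 8 * z ^ 4 + 10692640539361218 * x ^ 9 * z ^ 3 + 3610047781920651 * x ^ 10 * z ^ 2 + 733624265703444 * x ^ 11 * z +
    68103043662558 * x ^ 12

lemma E6_u3_nonneg (x z : ℝ) (hx : 0 ≤ x) (hz : 0 < z) : 0 ≤ E6_u3 x z := by
  unfold E6_u3; positivity

def E6_u4 (x z : ℝ) : ℝ :=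
    11231234831637 * z ^ 12 + 145585750100814 * x * z ^ 11 + 924894377131275 * x ^ 2 * z ^ 10 + 3667735466564148 * x ^ 3 * z ^ 9 +
    9843507582180768 * x ^ 4 * z ^ 8 + 18581557843829196 * x ^ 5 * z ^ 7 + 25180914777910434 * x ^ 6 * z ^ 6 + 24685774272565488 * x ^ 7 * z ^ 5 +
    17414623808680185 * x ^ 8 * z ^ 4 + 8647698576433446 * x ^ 9 * z ^ 3 + 2878063283357811 * x ^ 10 * z ^ 2 + 577955263159836 * x ^ 11 * z +
    53072108560818 * x ^ 12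

lemma E6_u4_nonneg (x z : ℝ) (hx : 0 ≤ x) (hz : 0 < z) : 0 ≤ E6_u4 x z := by
  unfold E6_u4; positivity

def E6_u5 (x z : ℝ) : ℝ :=
    6766882804728 * z ^ 12 + 94630413426948 * x * z ^ 11 + 612871610706846 * x ^ 2 * z ^ 10 + 2394947501227872 * x ^ 3 * z ^ 9 +
    6246301480624206 * x ^ 4 * z ^ 8 + 11432061899237736 * x ^ 5 * z ^ 7 + 15064111312190388 * x ^ 6 * z ^ 6 + 14425354465716240 * x ^ 7 * z ^ 5 +
    9984879697577580 * x ^ 8 * z ^ 4 + 4882615457109012 * x ^ 9 * z ^ 3 + 1604247893426286 * x ^ 10 * z ^ 2 + 318498942704400 * x ^ 11 * z +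
    28929802092174 * x ^ 12

lemma E6_u5_nonneg (x z : ℝ) (hx : 0 ≤ x) (hz : 0 < z) : 0 ≤ E6_u5 x z := by
  unfold E6_u5; positivity

def E6_u6 (x z : ℝ) : ℝ :=
    3306252598272 * z ^ 12 + 46108439142696 * x * z ^ 11 + 291892765075812 * x ^ 2 * z ^ 10 + 1107060353977824 * x ^ 3 * z ^ 9 +
    2801997928574964 * x ^ 4 * z ^ 8 + 4991563026906480 * x ^ 5 * z ^ 7 + 6427427551725672 * x ^ 6 * z ^ 6 + 6037535850401952 * x ^ 7 * z ^ 5 +
    4112421916410216 * x ^ 8 * z ^ 4 + 1983603652033320 * x ^ 9 * z ^ 3 + 643856060299572 * x ^ 10 * z ^ 2 + 126383794305984 * x ^ 11 * z +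
    11352642083748 * x ^ 12

lemma E6_u6_nonneg (x z : ℝ) (hx : 0 ≤ x) (hz : 0 < z) : 0 ≤ E6_u6 x z := by
  unfold E6_u6; positivity

def E6_u7 (x z : ℝ) : ℝ :=
    1198609109568 * z ^ 12 + 16202852766864 * x * z ^ 11 + 99348541709976 * x ^ 2 * z ^ 10 + 365796379354752 * x ^ 3 * z ^ 9 +
    901954142800632 * x ^ 4 * z ^ 8 + 1571056947947232 * x ^ 5 * z ^ 7 + 1984583228543280 * x ^ 6 * z ^ 6 + 1833808878369216 * x ^ 7 * z ^ 5 +
    1231278570517104 * x ^ 8 * z ^ 4 + 586281345049872 * x ^ 9 * z ^ 3 + 188026856832312 * x ^ 10 * z ^ 2 + 36483378557760 * x ^ 11 * z +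
    3239832532824 * x ^ 12

lemma E6_u7_nonneg (x z : ℝ) (hx : 0 ≤ x) (hz : 0 < z) : 0 ≤ E6_u7 x z := by
  unfold E6_u7; positivity

def E6_u8 (x z : ℝ) : ℝ :=
    308294753184 * z ^ 12 + 4034000535264 * x * z ^ 11 + 24035408991216 * x ^ 2 * z ^ 10 + 86318740184832 * x ^ 3 * z ^ 9 +
    208293294344400 * x ^ 4 * z ^ 8 + 356062513176000 * x ^ 5 * z ^ 7 + 442408348063008 * x ^ 6 * z ^ 6 + 402784806453120 * x ^ 7 * z ^ 5 +
    266795813957760 * x ^ 8 * z ^ 4 + 125428335488352 * x ^ 9 * z ^ 3 + 39737319135984 * x ^ 10 * z ^ 2 + 7618665672576 * x ^ 11 * z +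
    668582264592 * x ^ 12

lemma E6_u8_nonneg (x z : ℝ) (hx : 0 ≤ x) (hz : 0 < z) : 0 ≤ E6_u8 x z := by
  unfold E6_u8; positivity

def E6_u9 (x z : ℝ) : ℝ :=
    54745683840 * z ^ 12 + 697735021248 * x * z ^ 11 + 4062662389152 * x ^ 2 * z ^ 10 + 14296778297856 * x ^ 3 * z ^ 9 +
    33878038847904 * x ^ 4 * z ^ 8 + 56965690813824 * x ^ 5 * z ^ 7 + 69713605478592 * x ^ 6 * z ^ 6 + 62574159585024 * x ^ 7 * z ^ 5 +
    40891582195776 * x ^ 8 * z ^ 4 + 18975721120704 * x ^ 9 * z ^ 3 + 5936025453984 * x ^ 10 * z ^ 2 + 1124008545024 * x ^ 11 * z +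
    97433334432 * x ^ 12

lemma E6_u9_nonneg (x z : ℝ) (hx : 0 ≤ x) (hz : 0 < z) : 0 ≤ E6_u9 x z := by
  unfold E6_u9; positivity

def E6_u10 (x z : ℝ) : ℝ :=
    6444686592 * z ^ 12 + 80456125824 * x * z ^ 11 + 459656731584 * x ^ 2 * z ^ 10 + 1589296329216 * x ^ 3 * z ^ 9 +
    3704244861888 * x ^ 4 * z ^ 8 + 6131769092352 * x ^ 5 * z ^ 7 + 7392345254784 * x ^ 6 * z ^ 6 + 6540253383168 * x ^ 7 * z ^ 5 +
    4214691501696 * x ^ 8 * z ^ 4 + 1929417729408 * x ^ 9 * z ^ 3 + 595606530240 * x ^ 10 * z ^ 2 + 111324948480 * x ^ 11 * z +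
    9528041664 * x ^ 12

lemma E6_u10_nonneg (x z : ℝ) (hx : 0 ≤ x) (hz : 0 < z) : 0 ≤ E6_u10 x z := by
  unfold E6_u10; positivity

def E6_u11 (x z : ℝ) : ℝ :=
    458535168 * z ^ 12 + 5618315520 * x * z ^ 11 + 31525552512 * x ^ 2 * z ^ 10 + 107125908480 * x ^ 3 * z ^ 9 +
    245530465920 * x ^ 4 * z ^ 8 + 399893054976 * x ^ 5 * z ^ 7 + 474583898880 * x ^ 6 * z ^ 6 + 413528177664 * x ^ 7 * z ^ 5 +
    262574369280 * x ^ 8 * z ^ 4 + 118488510720 * x ^ 9 * z ^ 3 + 36070593408 * x ^ 10 * z ^ 2 + 6651279360 * x ^ 11 * z +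
    561831552 * x ^ 12

lemma E6_u11_nonneg (x z : ℝ) (hx : 0 ≤ x) (hz : 0 < z) : 0 ≤ E6_u11 x z := by
  unfold E6_u11; positivity

def E6_u12 (x z : ℝ) : ℝ :=
    15116544 * z ^ 12 + 181398528 * x * z ^ 11 + 997691904 * x ^ 2 * z ^ 10 + 3325639680 * x ^ 3 * z ^ 9 +
    7482689280 * x ^ 4 * z ^ 8 + 11972302848 * x ^ 5 * z ^ 7 + 13967686656 * x ^ 6 * z ^ 6 + 11972302848 * x ^ 7 * z ^ 5 +
    7482689280 * x ^ 8 * z ^ 4 + 3325639680 * x ^ 9 * z ^ 3 + 997691904 * x ^ 10 * z ^ 2 + 181398528 * x ^ 11 * z +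
    15116544 * x ^ 12

lemma E6_u12_nonneg (x z : ℝ) (hx : 0 ≤ x) (hz : 0 < z) : 0 ≤ E6_u12 x z := by
  unfold E6_u12; positivity

lemma E6_ii_id (z ρ : ℝ) : E6 (3 + ρ) (1 - z) =
    E6_u0 (1 - 2 * z) z + E6_u1 (1 - 2 * z) z * ρ + E6_u2 (1 - 2 * z) z * ρ ^ 2 + E6_u3 (1 - 2 * z) z * ρ ^ 3 +
    E6_u4 (1 - 2 * z) z * ρ ^ 4 + E6_u5 (1 - 2 * z) z * ρ ^ 5 + E6_u6 (1 - 2 * z) z * ρ ^ 6 + E6_u7 (1 - 2 * z) z * ρ ^ 7 +
    E6_u8 (1 - 2 * z) z * ρ ^ 8 + E6_u9 (1 - 2 * z) z * ρ ^ 9 + E6_u10 (1 - 2 * z) z * ρ ^ 10 + E6_u11 (1 - 2 * z) z * ρ ^ 11 +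
    E6_u12 (1 - 2 * z) z * ρ ^ 12 := by
  unfold E6 E6_c0 E6_c1 E6_c2 E6_c3 E6_c4 E6_c5 E6_c6 E6_c7 E6_c8 E6_c9 E6_c10 E6_c11 E6_c12 E6_u0 E6_u1 E6_u2 E6_u3 E6_u4 E6_u5 E6_u6 E6_u7 E6_u8 E6_u9 E6_u10 E6_u11 E6_u12; ring

lemma E6_ii (z ρ : ℝ) (hx : 0 ≤ 1 - 2 * z) (hz : 0 < z) (hρ : 0 ≤ ρ) :
    0 < E6 (3 + ρ) (1 - z) := by
  rw [E6_ii_id]
  have h0 := E6_u0_nonneg _ z hx hz
  have h1 := E6_u1_nonneg _ z hx hz
  have h2 := E6_u2_nonneg _ z hx hz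
  have h3 := E6_u3_nonneg _ z hx hz
  have h4 := E6_u4_nonneg _ z hx hz
  have h5 := E6_u5_nonneg _ z hx hz
  have h6 := E6_u6_nonneg _ z hx hz
  have h7 := E6_u7_nonneg _ z hx hz
  have h8 := E6_u8_nonneg _ z hx hz
  have h9 := E6_u9_nonneg _ z hx hz
  have h10 := E6_u10_nonneg _ z hx hz
  have h11 := E6_u11_nonneg _ z hx hz
  have h12 := E6_u12_nonneg _ z hx hz
  positivity

def E6_v0 (s w : ℝ) : ℝ :=
    7312316880125952 * w ^ 14 + 190120238883274752 * s * w ^ 13 + 2243662562718646272 * s ^ 2 * w ^ 12 + 15914038970114113536 * s ^ 3 * w ^ 11 +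
    75733665927464484864 * s ^ 4 * w ^ 10 + 255680034591523995648 * s ^ 5 * w ^ 9 + 631405156684595724288 * s ^ 6 * w ^ 8 + 1158958351598682636288 * s ^ 7 * w ^ 7 +
    1589846373515944525824 * s ^ 8 * w ^ 6 + 1623490343481404030976 * s ^ 9 * w ^ 5 + 1216188199660988399616 * s ^ 10 * w ^ 4 + 648916936893017358336 * s ^ 11 * w ^ 3 +
    233431091764260765696 * s ^ 12 * w ^ 2 + 50740166831193980928 * s ^ 13 * w + 5034530171966717952 * s ^ 14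

lemma E6_v0_nonneg (s w : ℝ) (hs : 0 < s) (hw : 0 ≤ w) : 0 < E6_v0 s w := by
  unfold E6_v0; positivity

def E6_v1 (s w : ℝ) : ℝ :=
    15843353240272896 * w ^ 14 + 408271025807032320 * s * w ^ 13 + 4784692678562414592 * s ^ 2 * w ^ 12 + 33780466547221856256 * s ^ 3 * w ^ 11 +
    160449599102553686016 * s ^ 4 * w ^ 10 + 542295198130928615424 * s ^ 5 * w ^ 9 + 1345182750544156950528 * s ^ 6 * w ^ 8 + 2488848610107536179200 * s ^ 7 * w ^ 7 +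
    3453800564934346014720 * s ^ 8 * w ^ 6 + 3580495256745439395840 * s ^ 9 * w ^ 5 + 2732341449898850254848 * s ^ 10 * w ^ 4 + 1489969333036161957888 * s ^ 11 * w ^ 3 +
    549441701455133933568 * s ^ 12 * w ^ 2 + 122774714456924749824 * s ^ 13 * w + 12555248083176259584 * s ^ 14

lemma E6_v1_nonneg (s w : ℝ) (hs : 0 < s) (hw : 0 ≤ w) : 0 ≤ E6_v1 s w := by
  unfold E6_v1; positivity

def E6_v2 (s w : ℝ) : ℝ :=
    16401933001949184 * w ^ 14 + 419442621040558080 * s * w ^ 13 + 4881360830651301888 * s ^ 2 * w ^ 12 + 34245171055617638400 * s ^ 3 * w ^ 11 +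
    161726622461032071168 * s ^ 4 * w ^ 10 + 543758694033179934720 * s ^ 5 * w ^ 9 + 1342241393648005545984 * s ^ 6 * w ^ 8 + 2471674756549379162112 * s ^ 7 * w ^ 7 +
    3413500554884818231296 * s ^ 8 * w ^ 6 + 3520650518148432789504 * s ^ 9 * w ^ 5 + 2671583898992183894016 * s ^ 10 * w ^ 4 + 1447663346339032203264 * s ^ 11 * w ^ 3 +
    530047884890859577344 * s ^ 12 * w ^ 2 + 117494218294716727296 * s ^ 13 * w + 11908029400846442496 * s ^ 14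

lemma E6_v2_nonneg (s w : ℝ) (hs : 0 < s) (hw : 0 ≤ w) : 0 ≤ E6_v2 s w := by
  unfold E6_v2; positivity

def E6_v3 (s w : ℝ) : ℝ :=
    10570698823237632 * w ^ 14 + 269658611614089216 * s * w ^ 13 + 3132715602284052480 * s ^ 2 * w ^ 12 + 21950988483277357056 * s ^ 3 * w ^ 11 +
    103570745071603875840 * s ^ 4 * w ^ 10 + 347879342645977743360 * s ^ 5 * w ^ 9 + 857371111339766169600 * s ^ 6 * w ^ 8 + 1574404162356742520832 * s ^ 7 * w ^ 7 +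
    2163924927961884463104 * s ^ 8 * w ^ 6 + 2214676230438751690752 * s ^ 9 * w ^ 5 + 1660966055220731240448 * s ^ 10 * w ^ 4 + 884871358816105857024 * s ^ 11 * w ^ 3 +
    316391804036836134912 * s ^ 12 * w ^ 2 + 67909430952898633728 * s ^ 13 * w + 6593242373438717952 * s ^ 14

lemma E6_v3_nonneg (s w : ℝ) (hs : 0 < s) (hw : 0 ≤ w) : 0 ≤ E6_v3 s w := by
  unfold E6_v3; positivity

def E6_v4 (s w : ℝ) : ℝ :=
    4657652457209856 * w ^ 14 + 119186251370201088 * s * w ^ 13 + 1390853732689281024 * s ^ 2 * w ^ 12 + 9802330044403286016 * s ^ 3 * w ^ 11 +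
    46571752899782590464 * s ^ 4 * w ^ 10 + 157652995393222115328 * s ^ 5 * w ^ 9 + 391770923469884743680 * s ^ 6 * w ^ 8 + 725309240532893319168 * s ^ 7 * w ^ 7 +
    1004178697735147831296 * s ^ 8 * w ^ 6 + 1033265960145863294976 * s ^ 9 * w ^ 5 + 776550757672238727168 * s ^ 10 * w ^ 4 + 412434328331354996736 * s ^ 11 * w ^ 3 +
    145869209409772339200 * s ^ 12 * w ^ 2 + 30604524854080241664 * s ^ 13 * w + 2851712981214732288 * s ^ 14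

lemma E6_v4_nonneg (s w : ℝ) (hs : 0 < s) (hw : 0 ≤ w) : 0 ≤ E6_v4 s w := by
  unfold E6_v4; positivity

def E6_v5 (s w : ℝ) : ℝ :=
    1462275302031360 * w ^ 13 + 34767358499487744 * s * w ^ 12 + 374421546761601024 * s ^ 2 * w ^ 11 + 2415809040196534272 * s ^ 3 * w ^ 10 +
    10407721579872288768 * s ^ 4 * w ^ 9 + 31579421002956029952 * s ^ 5 * w ^ 8 + 69342352305946951680 * s ^ 6 * w ^ 7 + 111409410375985102848 * s ^ 7 * w ^ 6 +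
    130751954973200406528 * s ^ 8 * w ^ 5 + 110475254959320489984 * s ^ 9 * w ^ 4 + 65132268721141929984 * s ^ 10 * w ^ 3 + 25268290998166130688 * s ^ 11 * w ^ 2 +
    5744542833921171456 * s ^ 12 * w + 571770501022605312 * s ^ 13

lemma E6_v5_nonneg (s w : ℝ) (hs : 0 < s) (hw : 0 ≤ w) : 0 ≤ E6_v5 s w := by
  unfold E6_v5; positivity

def E6_v6 (s w : ℝ) : ℝ :=
    332969333243904 * w ^ 12 + 7335199216041984 * s * w ^ 11 + 72659892923817984 * s ^ 2 * w ^ 10 + 427457394287640576 * s ^ 3 * w ^ 9 +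
    1661381187381743616 * s ^ 4 * w ^ 8 + 4488455802778951680 * s ^ 5 * w ^ 7 + 8630868759226822656 * s ^ 6 * w ^ 6 + 11883215381755097088 * s ^ 7 * w ^ 5 +
    11604860212431121920 * s ^ 8 * w ^ 4 + 7820714240648054784 * s ^ 9 * w ^ 3 + 3441104289542951424 * s ^ 10 * w ^ 2 + 883284681381672960 * s ^ 11 * w +
    99255389227757568 * s ^ 12

lemma E6_v6_nonneg (s w : ℝ) (hs : 0 < s) (hw : 0 ≤ w) : 0 ≤ E6_v6 s w := by
  unfold E6_v6; positivity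

def E6_v7 (s w : ℝ) : ℝ :=
    55155310829568 * w ^ 10 + 1010349167689728 * s * w ^ 9 + 8134467977392128 * s ^ 2 * w ^ 8 + 37840957743661056 * s ^ 3 * w ^ 7 +
    112441066829549568 * s ^ 4 * w ^ 6 + 222601557262159872 * s ^ 5 * w ^ 5 + 296822627049249792 * s ^ 6 * w ^ 4 + 262740043457998848 * s ^ 7 * w ^ 3 +
    147430468268202240 * s ^ 8 * w ^ 2 + 47213754472650240 * s ^ 9 * w + 6522741753781248 * s ^ 10

lemma E6_v7_nonneg (s w : ℝ) (hs : 0 < s) (hw : 0 ≤ w) : 0 ≤ E6_v7 s w := by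
  unfold E6_v7; positivity

def E6_v8 (s w : ℝ) : ℝ :=
    6578236219392 * w ^ 8 + 96196364992512 * s * w ^ 7 + 596899475122176 * s ^ 2 * w ^ 6 + 2046808113905664 * s ^ 3 * w ^ 5 +
    4230882852129792 * s ^ 4 * w ^ 4 + 5386273385048064 * s ^ 5 * w ^ 3 + 4117685484529152 * s ^ 6 * w ^ 2 + 1725927239033856 * s ^ 7 * w +
    303118315893504 * s ^ 8

lemma E6_v8_nonneg (s w : ℝ) (hs : 0 < s) (hw : 0 ≤ w) : 0 ≤ E6_v8 s w := by
  unfold E6_v8; positivity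

def E6_v9 (s w : ℝ) : ℝ :=
    550000336896 * w ^ 6 + 6015900782592 * s * w ^ 5 + 26249273994240 * s ^ 2 * w ^ 4 + 58136051441664 * s ^ 3 * w ^ 3 +
    68627235308544 * s ^ 4 * w ^ 2 + 40933303437312 * s ^ 5 * w + 9652971502080 * s ^ 6

lemma E6_v9_nonneg (s w : ℝ) (hs : 0 < s) (hw : 0 ≤ w) : 0 ≤ E6_v9 s w := by
  unfold E6_v9; positivity

def E6_v10 (s w : ℝ) : ℝ :=
    30565651968 * w ^ 4 + 222031798272 * s * w ^ 3 + 561126113280 * s ^ 2 * w ^ 2 + 573763544064 * s ^ 3 * w +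
    202743088128 * s ^ 4

lemma E6_v10_nonneg (s w : ℝ) (hs : 0 < s) (hw : 0 ≤ w) : 0 ≤ E6_v10 s w := by
  unfold E6_v10; positivity

def E6_v11 (s w : ℝ) : ℝ :=
    1012808448 * w ^ 2 + 3658203648 * s * w + 2569812480 * s ^ 2

lemma E6_v11_nonneg (s w : ℝ) (hs : 0 < s) (hw : 0 ≤ w) : 0 ≤ E6_v11 s w := by
  unfold E6_v11; positivity

def E6_v12 (s w : ℝ) : ℝ :=
    15116544

lemma E6_v12_nonneg (s w : ℝ) (hs : 0 < s) (hw : 0 ≤ w) : 0 ≤ E6_v12 s w := by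
  unfold E6_v12; positivity

lemma E6_i_id (R s : ℝ) : E6 R s * s ^ 12 * 2176782336 =
    E6_v0 s (1 - 2 * s) +
    E6_v1 s (1 - 2 * s) * ((6 * R + 7) * s ^ 2 - 6) +
    E6_v2 s (1 - 2 * s) * ((6 * R + 7) * s ^ 2 - 6) ^ 2 +
    E6_v3 s (1 - 2 * s) * ((6 * R + 7) * s ^ 2 - 6) ^ 3 +
    E6_v4 s (1 - 2 * s) * ((6 * R + 7) * s ^ 2 - 6) ^ 4 +
    E6_v5 s (1 - 2 * s) * ((6 * R + 7) * s ^ 2 - 6) ^ 5 +
    E6_v6 s (1 - 2 * s) * ((6 * R + 7) * s ^ 2 - 6) ^ 6 +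
    E6_v7 s (1 - 2 * s) * ((6 * R + 7) * s ^ 2 - 6) ^ 7 +
    E6_v8 s (1 - 2 * s) * ((6 * R + 7) * s ^ 2 - 6) ^ 8 +
    E6_v9 s (1 - 2 * s) * ((6 * R + 7) * s ^ 2 - 6) ^ 9 +
    E6_v10 s (1 - 2 * s) * ((6 * R + 7) * s ^ 2 - 6) ^ 10 +
    E6_v11 s (1 - 2 * s) * ((6 * R + 7) * s ^ 2 - 6) ^ 11 +
    E6_v12 s (1 - 2 * s) * ((6 * R + 7) * s ^ 2 - 6) ^ 12 := by
  unfold E6 E6_c0 E6_c1 E6_c2 E6_c3 E6_c4 E6_c5 E6_c6 E6_c7 E6_c8 E6_c9 E6_c10 E6_c11 E6_c12 E6_v0 E6_v1 E6_v2 E6_v3 E6_v4 E6_v5 E6_v6 E6_v7 E6_v8 E6_v9 E6_v10 E6_v11 E6_v12; ring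

lemma E6_i (R s : ℝ) (hs : 0 < s) (hq : 0 < (6 * R + 7) * s ^ 2 - 6) (hw : 0 ≤ 1 - 2 * s) :
    0 < E6 R s := by
  have hp : 0 < E6 R s * s ^ 12 * 2176782336 := by
    rw [E6_i_id]
    have h0 := E6_v0_nonneg s _ hs hw
    have h1 := E6_v1_nonneg s _ hs hw
    have h2 := E6_v2_nonneg s _ hs hw
    have h3 := E6_v3_nonneg s _ hs hw
    have h4 := E6_v4_nonneg s _ hs hw
    have h5 := E6_v5_nonneg s _ hs hw
    have h6 := E6_v6_nonneg s _ hs hw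
    have h7 := E6_v7_nonneg s _ hs hw
    have h8 := E6_v8_nonneg s _ hs hw
    have h9 := E6_v9_nonneg s _ hs hw
    have h10 := E6_v10_nonneg s _ hs hw
    have h11 := E6_v11_nonneg s _ hs hw
    have h12 := E6_v12_nonneg s _ hs hw
    positivity
  have h2 : 0 < s ^ 12 * 2176782336 := by positivity
  rw [mul_assoc] at hp
  exact (pos_iff_pos_of_mul_pos hp).mpr h2

lemma E6_pos (R s : ℝ) (hR : 3 ≤ R) (hs : 0 < s) (hs1 : s < 1) (hq : 0 < (6 * R + 7) * s ^ 2 - 6) :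
    0 < E6 R s := by
  rcases le_total s (1 / 2) with h | h
  · exact E6_i R s hs hq (by linarith)
  · have := E6_ii (1 - s) (R - 3) (by linarith) (by linarith) (by linarith)
    have e1 : 3 + (R - 3) = R := by ring
    have e2 : 1 - (1 - s) = s := by ring
    rwa [e1, e2] at this

end Helper15.EIso

end
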