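import Pool.Agent.Helper15.EIso.SymIneq

/-!
Families of equi-isoclinic projections: the basic trace identities and the inequality from the
symmetric square.
-/

set_option linter.unusedSectionVars false

namespace Helper15.EIso

open Matrix Kronecker BigOperators ComplexOrder

variable {m : Type*} [Fintype m] [DecidableEq m] {N : ℕ}

/-- `N` orthogonal projections `P k` of rank `nn`, with `P i P j P i = lam P i` for `i ≠ j`. -/
structure Fam (P : Fin N → Matrix m m ℂ) (nn lam : ℝ) : Prop where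
  herm : ∀ k, (P k)ᴴ = P k
  idem : ∀ k, P k * P k = P k
  tr : ∀ k, trace (P k) = (nn : ℂ)
  iso : ∀ i j, i ≠ j → P i * P j * P i = (lam : ℂ) • P i

namespace Fam

variable {P : Fin N → Matrix m m ℂ} {nn lam : ℝ}

/-- the sum of the projections -/
noncomputable def A (P : Fin N → Matrix m m ℂ) : Matrix m m ℂ := ∑ k, P k

lemma A_herm (h : Fam P nn lam) : (A P)ᴴ = A P := by
  unfold A
  rw [conjTranspose_sum]
  exact Finset.sum_congr rfl fun k _ => h.herm k

lemma tr_PP (h : Fam P nn lam) {k l : Fin N} (hkl : k ≠ l) :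
    trace (P k * P l) = ((lam * nn : ℝ) : ℂ) := by
  have h1 := congrArg trace (h.iso k l hkl)
  rw [Matrix.trace_mul_comm, ← Matrix.mul_assoc, h.idem, trace_smul, h.tr] at h1
  rw [h1]; push_cast; rfl

lemma tr_PPPP (h : Fam P nn lam) {k l : Fin N} (hkl : k ≠ l) :
    trace (P k * P l * (P k * P l)) = ((lam ^ 2 * nn : ℝ) : ℂ) := by
  rw [← Matrix.mul_assoc, h.iso k l hkl, smul_mul_assoc, trace_smul, h.tr_PP hkl]
  push_cast
  rw [smul_eq_mul]; ring

lemma PAP (h : Fam P nn lam) (k : Fin N) :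
    P k * A P * P k = ((1 + (N - 1) * lam : ℝ) : ℂ) • P k := by
  unfold A
  rw [Finset.mul_sum, Finset.sum_mul, ← Finset.add_sum_erase _ _ (Finset.mem_univ k)]
  rw [Finset.sum_congr rfl (fun l hl => h.iso k l (Finset.ne_of_mem_erase hl).symm)]
  rw [h.idem, h.idem, Finset.sum_const, Finset.card_erase_of_mem (Finset.mem_univ _),
    Finset.card_univ, Fintype.card_fin]
  have hN : 1 ≤ N := Nat.one_le_iff_ne_zero.mpr (fun h0 => by subst h0; exact k.elim0)
  rw [← Nat.cast_smul_eq_nsmul ℂ, smul_smul]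
  push_cast [Nat.cast_sub hN]
  rw [add_smul, one_smul]

lemma tr_PA (h : Fam P nn lam) (k : Fin N) :
    trace (P k * A P) = (((1 + (N - 1) * lam) * nn : ℝ) : ℂ) := by
  have h1 := congrArg trace (h.PAP k)
  rw [Matrix.trace_mul_comm, ← Matrix.mul_assoc, h.idem, trace_smul, h.tr] at h1
  rw [h1]; push_cast; rfl

lemma tr_PAPA (h : Fam P nn lam) (k : Fin N) :
    trace (P k * A P * (P k * A P)) = (((1 + (N - 1) * lam) ^ 2 * nn : ℝ) : ℂ) := by
  rw [← Matrix.mul_assoc, h.PAP k, smul_mul_assoc, trace_smul, h.tr_PA]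
  push_cast
  rw [smul_eq_mul]; ring

lemma tr_A (h : Fam P nn lam) : trace (A P) = ((N * nn : ℝ) : ℂ) := by
  unfold A
  rw [trace_sum, Finset.sum_congr rfl (fun k _ => h.tr k)]
  simp

lemma tr_AA (h : Fam P nn lam) :
    trace (A P * A P) = ((N * nn * (1 + (N - 1) * lam) : ℝ) : ℂ) := by
  conv_lhs => rw [show A P * A P = ∑ k, P k * A P by
    conv_lhs => rw [A, Finset.sum_mul]
    rfl]
  rw [trace_sum, Finset.sum_congr rfl (fun k _ => h.tr_PA k)]
  simp; ring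

/-- `T = ∑ P k ⊗ P k` -/
noncomputable def T (P : Fin N → Matrix m m ℂ) : Matrix (m × m) (m × m) ℂ :=
  ∑ k, P k ⊗ₖ P k

/-- the test operator -/
noncomputable def Z (P : Fin N → Matrix m m ℂ) (al be ga : ℝ) : Matrix (m × m) (m × m) ℂ :=
  (al : ℂ) • ((1 : Matrix m m ℂ) ⊗ₖ (1 : Matrix m m ℂ)) +
    ((be : ℂ) • (A P ⊗ₖ (1 : Matrix m m ℂ)) + ((be : ℂ) • ((1 : Matrix m m ℂ) ⊗ₖ A P) +
      (ga : ℂ) • (A P ⊗ₖ A P)))

lemma T_herm (h : Fam P nn lam) : (T P)ᴴ = T P := by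
  unfold T
  rw [conjTranspose_sum]
  refine Finset.sum_congr rfl fun k _ => ?_
  rw [conjTranspose_kronecker, h.herm k]

lemma Z_herm (h : Fam P nn lam) (al be ga : ℝ) : (Z P al be ga)ᴴ = Z P al be ga := by
  unfold Z
  simp only [conjTranspose_add, conjTranspose_smul, conjTranspose_kronecker, conjTranspose_one,
    h.A_herm]
  simp

lemma G_TT (h : Fam P nn lam) :
    G (T P) (T P) = ((nn * (nn + 1) * N * (1 + (N - 1) * lam ^ 2) : ℝ) : ℂ) := by
  unfold T
  rw [G_sum_left]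
  have : ∀ k : Fin N, G (P k ⊗ₖ P k) (∑ l, P l ⊗ₖ P l)
      = ((nn * (nn + 1) * (1 + (N - 1) * lam ^ 2) : ℝ) : ℂ) := by
    intro k
    rw [G_sum_right, ← Finset.add_sum_erase _ _ (Finset.mem_univ k)]
    have h2 : ∀ l ∈ Finset.univ.erase k, G (P k ⊗ₖ P k) (P l ⊗ₖ P l)
        = ((lam ^ 2 * nn * (nn + 1) : ℝ) : ℂ) := by
      intro l hl
      have hkl : k ≠ l := (Finset.ne_of_mem_erase hl).symm
      rw [G_kron, h.tr_PP hkl, h.tr_PPPP hkl]
      push_cast; ring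
    rw [Finset.sum_congr rfl h2, Finset.sum_const, Finset.card_erase_of_mem (Finset.mem_univ _),
      Finset.card_univ, Fintype.card_fin, G_kron, h.idem, h.idem, h.tr]
    have hN : 1 ≤ N := Nat.one_le_iff_ne_zero.mpr (fun h0 => by subst h0; exact k.elim0)
    rw [nsmul_eq_mul]
    push_cast [Nat.cast_sub hN]
    ring
  rw [Finset.sum_congr rfl (fun k _ => this k), Finset.sum_const, Finset.card_univ,
    Fintype.card_fin, nsmul_eq_mul]
  push_cast; ring

lemma G_TZ (h : Fam P nn lam) (al be ga : ℝ) :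
    G (T P) (Z P al be ga) = ((nn * (nn + 1) * N *
      (al + 2 * be * (1 + (N - 1) * lam) + ga * (1 + (N - 1) * lam) ^ 2) : ℝ) : ℂ) := by
  unfold T Z
  rw [G_sum_left]
  have : ∀ k : Fin N, G (P k ⊗ₖ P k) ((al : ℂ) • ((1 : Matrix m m ℂ) ⊗ₖ (1 : Matrix m m ℂ)) +
    ((be : ℂ) • (A P ⊗ₖ (1 : Matrix m m ℂ)) + ((be : ℂ) • ((1 : Matrix m m ℂ) ⊗ₖ A P) +
      (ga : ℂ) • (A P ⊗ₖ A P)))) = ((nn * (nn + 1) *
      (al + 2 * be * (1 + (N - 1) * lam) + ga * (1 + (N - 1) * lam) ^ 2) : ℝ) : ℂ) := by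
    intro k
    simp only [G_add_right, G_smul_right, G_kron, Matrix.mul_one]
    rw [h.tr_PAPA, h.tr_PA, h.tr, h.idem, h.tr]
    have e1 : trace (P k * A P * P k) = (((1 + (N - 1) * lam) * nn : ℝ) : ℂ) := by
      rw [h.PAP k, trace_smul, h.tr]; push_cast; rfl
    have e2 : trace (P k * (P k * A P)) = (((1 + (N - 1) * lam) * nn : ℝ) : ℂ) := by
      rw [← Matrix.mul_assoc, h.idem, h.tr_PA]
    rw [e1, e2]
    push_cast; ring
  rw [Finset.sum_congr rfl (fun k _ => this k), Finset.sum_const, Finset.card_univ,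
    Fintype.card_fin, nsmul_eq_mul]
  push_cast; ring

lemma G_ZT (h : Fam P nn lam) (al be ga : ℝ) :
    G (Z P al be ga) (T P) = ((nn * (nn + 1) * N *
      (al + 2 * be * (1 + (N - 1) * lam) + ga * (1 + (N - 1) * lam) ^ 2) : ℝ) : ℂ) := by
  unfold T Z
  rw [G_sum_right]
  have : ∀ k : Fin N, G ((al : ℂ) • ((1 : Matrix m m ℂ) ⊗ₖ (1 : Matrix m m ℂ)) +
    ((be : ℂ) • (A P ⊗ₖ (1 : Matrix m m ℂ)) + ((be : ℂ) • ((1 : Matrix m m ℂ) ⊗ₖ A P) +
      (ga : ℂ) • (A P ⊗ₖ A P)))) (P k ⊗ₖ P k) = ((nn * (nn + 1) *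
      (al + 2 * be * (1 + (N - 1) * lam) + ga * (1 + (N - 1) * lam) ^ 2) : ℝ) : ℂ) := by
    intro k
    simp only [G_add_left, G_smul_left, G_kron, Matrix.one_mul]
    have e0 : trace (A P * P k) = (((1 + (N - 1) * lam) * nn : ℝ) : ℂ) := by
      rw [Matrix.trace_mul_comm, h.tr_PA]
    have e1 : trace (A P * P k * P k) = (((1 + (N - 1) * lam) * nn : ℝ) : ℂ) := by
      rw [Matrix.mul_assoc, h.idem, e0]
    have e2 : trace (P k * (A P * P k)) = (((1 + (N - 1) * lam) * nn : ℝ) : ℂ) := by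
      rw [← Matrix.mul_assoc, h.PAP k, trace_smul, h.tr]; push_cast; rfl
    have e3 : trace (A P * P k * (A P * P k)) = (((1 + (N - 1) * lam) ^ 2 * nn : ℝ) : ℂ) := by
      rw [← h.tr_PAPA k]
      calc trace (A P * P k * (A P * P k)) = trace (A P * (P k * A P * P k)) := by
            simp only [Matrix.mul_assoc]
        _ = trace ((P k * A P * P k) * A P) := Matrix.trace_mul_comm _ _
        _ = _ := by simp only [Matrix.mul_assoc]
    rw [e1, e2, e3, e0, h.tr, h.idem, h.tr]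
    push_cast; ring
  rw [Finset.sum_congr rfl (fun k _ => this k), Finset.sum_const, Finset.card_univ,
    Fintype.card_fin, nsmul_eq_mul]
  push_cast; ring

lemma G_ZZ (al be ga d t1 t2 t3 t4 : ℝ) (h0 : (Fintype.card m : ℝ) = d)
    (h1 : trace (A P) = (t1 : ℂ)) (h2 : trace (A P * A P) = (t2 : ℂ))
    (h3 : trace (A P * A P * A P) = (t3 : ℂ)) (h4 : trace (A P * A P * (A P * A P)) = (t4 : ℂ)) :
    G (Z P al be ga) (Z P al be ga) =
      (((al ^ 2 * d ^ 2 + 2 * be ^ 2 * (d * t2 + t1 ^ 2) + ga ^ 2 * t2 ^ 2 + 4 * al * be * d * t1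
        + 2 * al * ga * t1 ^ 2 + 4 * be * ga * t1 * t2) + (al ^ 2 * d + 4 * al * be * t1
        + (4 * be ^ 2 + 2 * al * ga) * t2 + 4 * be * ga * t3 + ga ^ 2 * t4) : ℝ) : ℂ) := by
  have hd : trace (1 : Matrix m m ℂ) = (d : ℂ) := by
    rw [trace_one, ← h0]; push_cast; rfl
  have e1 : trace (A P * (A P * A P)) = (t3 : ℂ) := by rw [← Matrix.mul_assoc, h3]
  unfold Z
  simp only [G_add_left, G_smul_left, G_add_right, G_smul_right, G_kron, Matrix.one_mul,
    Matrix.mul_one]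
  rw [h4, h3, e1, h2, h1, hd]
  push_cast; ring

/-- the inequality on the symmetric square -/
theorem sym_ineq (h : Fam P nn lam) (al be ga mu d t1 t2 t3 t4 : ℝ)
    (h0 : (Fintype.card m : ℝ) = d)
    (h1 : trace (A P) = (t1 : ℂ)) (h2 : trace (A P * A P) = (t2 : ℂ))
    (h3 : trace (A P * A P * A P) = (t3 : ℂ)) (h4 : trace (A P * A P * (A P * A P)) = (t4 : ℂ)) :
    0 ≤ nn * (nn + 1) * N * (1 + (N - 1) * lam ^ 2)
      - 2 * mu * (nn * (nn + 1) * N *
      (al + 2 * be * (1 + (N - 1) * lam) + ga * (1 + (N - 1) * lam) ^ 2))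
      + mu ^ 2 * ((al ^ 2 * d ^ 2 + 2 * be ^ 2 * (d * t2 + t1 ^ 2) + ga ^ 2 * t2 ^ 2
        + 4 * al * be * d * t1
        + 2 * al * ga * t1 ^ 2 + 4 * be * ga * t1 * t2) + (al ^ 2 * d + 4 * al * be * t1
        + (4 * be ^ 2 + 2 * al * ga) * t2 + 4 * be * ga * t3 + ga ^ 2 * t4)) := by
  have hY : (T P + ((-mu : ℝ) : ℂ) • Z P al be ga)ᴴ = T P + ((-mu : ℝ) : ℂ) • Z P al be ga := by
    rw [conjTranspose_add, conjTranspose_smul, h.T_herm, h.Z_herm]
    simp
  have hp := G_nonneg _ hY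
  rw [G_add_left, G_add_right, G_add_right, G_smul_left, G_smul_left, G_smul_right, G_smul_right,
    h.G_TT, h.G_TZ, h.G_ZT, G_ZZ al be ga d t1 t2 t3 t4 h0 h1 h2 h3 h4] at hp
  simp only [← Complex.ofReal_mul, ← Complex.ofReal_add, Complex.ofReal_re] at hp
  linarith [hp]

end Fam

end Helper15.EIso
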