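import Pool.Agent.Helper15.EIso.Asm

set_option linter.unusedSectionVars false

/-!
The bound `v(3, 3 r, ℂ) ≤ r (3 r - 2)`.
-/

namespace Helper15.EIso

open Matrix BigOperators ComplexOrder

lemma EquiIsoclinic.sub {m v n u : ℕ} {W : Fin v → Submodule ℂ (EuclideanSpace ℂ (Fin m))}
    (h : EquiIsoclinic n W) (f : Fin u → Fin v) (hf : Function.Injective f) :
    EquiIsoclinic n (fun i => W (f i)) := by
  obtain ⟨hd, lam, h0, h1, hW⟩ := h
  exact ⟨fun i => hd _, lam, h0, h1, fun i j hij => hW _ _ (fun e => hij (hf e))⟩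

/-- the case `r = 1` -/
lemma bound_one {v : ℕ} (W : Fin v → Submodule ℂ (EuclideanSpace ℂ (Fin 3)))
    (h : EquiIsoclinic 3 W) : v ≤ 1 := by
  obtain ⟨hd, lam, h0, h1, hW⟩ := h
  have hF := fam_mat W hd lam hW
  have hcs := hF.cs
  by_contra hv
  have hv2 : (2 : ℝ) ≤ v := by
    have : 2 ≤ v := by omega
    exact_mod_cast this
  rw [Fintype.card_fin] at hcs
  push_cast at hcs
  have e : ((3 : ℝ) * (v * 3 * (1 + (v - 1) * lam)) - (v * 3) ^ 2) = -(9 * v * ((v - 1) * (1 - lam))) := by
    ring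
  have : 0 < 9 * (v : ℝ) * ((v - 1) * (1 - lam)) := by
    have a1 : 0 < (v : ℝ) - 1 := by linarith
    have a2 : 0 < 1 - lam := by linarith
    have a3 : 0 < (v : ℝ) := by linarith
    positivity
  linarith

/-- the case `r ≥ 3` -/
lemma bound_large {r v : ℕ} (hr : 3 ≤ r) (W : Fin v → Submodule ℂ (EuclideanSpace ℂ (Fin (3 * r))))
    (h : EquiIsoclinic 3 W) : v ≤ r * (3 * r - 2) := by
  by_contra hv
  push Not at hv
  obtain ⟨hd, lam, h0, h1, hW⟩ := h
  set N := r * (3 * r - 2) with hNdef
  have hF := fam_mat W hd lam hW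
  have hr' : (3 : ℝ) ≤ r := by exact_mod_cast hr
  have hNr : (N : ℝ) = r * (3 * r - 2) := by
    rw [hNdef]; push_cast [Nat.cast_sub (show 2 ≤ 3 * r by omega)]; ring
  have hF1 := hF.sub (Fin.castLE (show N ≤ v by omega)) (Fin.castLE_injective _)
  have hF2 := hF.sub (Fin.castLE (show N + 1 ≤ v by omega)) (Fin.castLE_injective _)
  have hL := Fam.large (R := (r : ℝ) - 1) (by exact_mod_cast hF1) (by linarith)
    (by rw [hNr]; ring) (by rw [Fintype.card_fin]; push_cast; ring) h0 h1
  have hcs := hF2.cs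
  rw [Fintype.card_fin] at hcs
  push_cast at hcs
  have hN0 : (0 : ℝ) < N := by rw [hNr]; nlinarith
  -- (N + 1) ≤ r (1 + N lam)
  have e1 : (N : ℝ) + 1 ≤ r * (1 + N * lam) := by
    have : ((N : ℝ) + 1) * (9 * (N + 1)) ≤ (r * (1 + N * lam)) * (9 * (N + 1)) := by
      calc ((N : ℝ) + 1) * (9 * (N + 1)) = ((N + 1) * 3) ^ 2 := by ring
        _ ≤ _ := hcs
        _ = _ := by ring
    exact le_of_mul_le_mul_right this (by positivity)
  have e2 : (3 * (r : ℝ) + 1) * lam ≤ 3 := by
    have : 3 * ((r : ℝ) - 1) + 4 = 3 * r + 1 := by ring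
    rwa [this] at hL
  have e3 : ((N : ℝ) + 1) * (3 * r + 1) ≤ r * ((3 * r + 1) + N * ((3 * r + 1) * lam)) := by
    calc ((N : ℝ) + 1) * (3 * r + 1) ≤ (r * (1 + N * lam)) * (3 * r + 1) :=
          mul_le_mul_of_nonneg_right e1 (by positivity)
      _ = _ := by ring
  have e4 : (r : ℝ) * ((3 * r + 1) + N * ((3 * r + 1) * lam)) ≤ r * ((3 * r + 1) + N * 3) := by
    apply mul_le_mul_of_nonneg_left _ (by positivity)
    have := mul_le_mul_of_nonneg_left e2 hN0.le
    linarith
  have e5 := e3.trans e4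
  rw [hNr] at e5
  nlinarith

/-- the case `r = 2` -/
lemma bound_two {v : ℕ} (W : Fin v → Submodule ℂ (EuclideanSpace ℂ (Fin 6)))
    (h : EquiIsoclinic 3 W) : v ≤ 8 := by
  by_contra hv
  push Not at hv
  obtain ⟨hd, lam, h0, h1, hW⟩ := h
  have hF := fam_mat W hd lam hW
  have hsq : ∀ i j, i ≠ j → ∀ x, ((W i).starProjection - (W j).starProjection)
      (((W i).starProjection - (W j).starProjection) x) = ((1 - lam : ℝ) : ℂ) • x := by
    intro i j hij x
    have h2 := hF.sq_diff (by rw [Fintype.card_fin]; norm_num) h1 hij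
    have h3 := congrArg (Matrix.toEuclideanCLM (n := Fin 6) (𝕜 := ℂ)) h2
    rw [map_mul, map_sub, map_smul, map_one] at h3
    unfold mat at h3
    rw [StarAlgEquiv.apply_symm_apply, StarAlgEquiv.apply_symm_apply] at h3
    exact congrArg (fun F : EuclideanSpace ℂ (Fin 6) →L[ℂ] EuclideanSpace ℂ (Fin 6) => F x) h3
  have hnorm : ∀ i j, i ≠ j → ∀ x : EuclideanSpace ℂ (Fin 6),
      ‖(W i).starProjection x - (W j).starProjection x‖ ^ 2 = (1 - lam) * ‖x‖ ^ 2 := by
    intro i j hij x
    have h2 := hsq i j hij x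
    rw [← inner_self_eq_norm_sq (𝕜 := ℂ), ← inner_self_eq_norm_sq (𝕜 := ℂ)]
    have h4 : inner ℂ ((W i).starProjection x - (W j).starProjection x)
        ((W i).starProjection x - (W j).starProjection x)
        = inner ℂ (((W i).starProjection - (W j).starProjection)
      (((W i).starProjection - (W j).starProjection) x)) x := by
      simp only [_root_.sub_apply, map_sub, inner_sub_left, inner_sub_right,
        Submodule.inner_starProjection_left_eq_right]
      ring
    rw [h4, h2, inner_smul_left]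
    simp
  -- a nonzero vector of `W 0`
  have hv0 : 0 < v := by omega
  set i0 : Fin v := ⟨0, hv0⟩ with hi0
  have hne : W i0 ≠ ⊥ := by
    intro hb
    have := hd i0
    rw [hb, finrank_bot] at this
    omega
  obtain ⟨x, hx, hx0⟩ := (Submodule.ne_bot_iff _).mp hne
  have hx' : (W i0).starProjection x = x := Submodule.starProjection_eq_self_iff.mpr hx
  set i1 : Fin v := ⟨1, by omega⟩ with hi1
  let k : Fin 7 → Fin v := fun t => ⟨t.val + 2, by omega⟩
  have hk1 : ∀ t, k t ≠ i1 := by
    intro t e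
    have := congrArg Fin.val e
    simp [k, hi1] at this
  have hk0 : ∀ t, k t ≠ i0 := by
    intro t e
    have := congrArg Fin.val e
    simp [k, hi0] at this
  have hkk : ∀ s t, s ≠ t → k s ≠ k t := by
    intro s t hst e
    apply hst
    have := congrArg Fin.val e
    simp only [k] at this
    exact Fin.ext (by omega)
  have h01 : i0 ≠ i1 := by
    intro e
    have := congrArg Fin.val e
    simp [hi0, hi1] at this
  have hPx : ∀ j, i0 ≠ j → (W i0).starProjection ((W j).starProjection x) = (lam : ℂ) • x := by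
    intro j hj
    have h2 := hW i0 j hj
    have h3 := congrArg (fun F : EuclideanSpace ℂ (Fin 6) →L[ℂ] EuclideanSpace ℂ (Fin 6) => F x) h2
    simp only [ContinuousLinearMap.comp_apply, _root_.smul_apply, hx'] at h3
    exact h3
  let w : Fin 7 → ((W i0)ᗮ : Submodule ℂ (EuclideanSpace ℂ (Fin 6))) := fun t =>
    ⟨(W (k t)).starProjection x - (W i1).starProjection x, by
      rw [← Submodule.starProjection_apply_eq_zero_iff, map_sub, hPx _ (hk0 t).symm, hPx _ h01,
        sub_self]⟩
  set D : ℝ := (1 - lam) * ‖x‖ ^ 2 with hD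
  have hDpos : 0 < D := by
    have : 0 < ‖x‖ := norm_pos_iff.mpr hx0
    have h2 : 0 < 1 - lam := by linarith
    positivity
  have hww : ∀ t, RCLike.re (inner ℂ (w t : EuclideanSpace ℂ (Fin 6)) (w t : EuclideanSpace ℂ (Fin 6))) = D := by
    intro t
    rw [inner_self_eq_norm_sq]
    exact hnorm _ _ (hk1 t) x
  have hwt : ∀ s t, s ≠ t →
      RCLike.re (inner ℂ (w s : EuclideanSpace ℂ (Fin 6)) (w t : EuclideanSpace ℂ (Fin 6))) = D / 2 := by
    intro s t hst
    have h2 := norm_sub_sq (𝕜 := ℂ) (w s : EuclideanSpace ℂ (Fin 6)) (w t : EuclideanSpace ℂ (Fin 6))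
    have h3 : (w s : EuclideanSpace ℂ (Fin 6)) - (w t : EuclideanSpace ℂ (Fin 6))
        = (W (k s)).starProjection x - (W (k t)).starProjection x := by
      simp only [w]; abel
    rw [h3, hnorm _ _ (hkk s t hst) x] at h2
    have h4 : ‖(w s : EuclideanSpace ℂ (Fin 6))‖ ^ 2 = D := hnorm _ _ (hk1 s) x
    have h5 : ‖(w t : EuclideanSpace ℂ (Fin 6))‖ ^ 2 = D := hnorm _ _ (hk1 t) x
    rw [h4, h5, ← hD] at h2
    linarith
  have hli : LinearIndependent ℝ w := by
    rw [Fintype.linearIndependent_iff]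
    intro c hc
    have hc' : ∑ t, ((c t : ℂ)) • (w t : EuclideanSpace ℂ (Fin 6)) = 0 := by
      have h2 := congrArg (Subtype.val) hc
      simpa using h2
    have hl : ∀ s, c s * (D / 2) + (∑ t, c t) * (D / 2) = 0 := by
      intro s
      have h2 := congrArg (fun y => RCLike.re (inner ℂ (w s : EuclideanSpace ℂ (Fin 6)) y)) hc'
      simp only [inner_sum, inner_smul_right, inner_zero_right, map_sum, map_zero] at h2
      have h3 : ∀ t, RCLike.re ((c t : ℂ) * inner ℂ (w s : EuclideanSpace ℂ (Fin 6)) (w t : EuclideanSpace ℂ (Fin 6)))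
          = c t * (D / 2) + (if t = s then c s * (D / 2) else 0) := by
        intro t
        have h4 : RCLike.re ((c t : ℂ) * inner ℂ (w s : EuclideanSpace ℂ (Fin 6)) (w t : EuclideanSpace ℂ (Fin 6)))
          = c t * RCLike.re (inner ℂ (w s : EuclideanSpace ℂ (Fin 6)) (w t : EuclideanSpace ℂ (Fin 6))) := by
          simp
        rw [h4]
        by_cases hts : t = s
        · subst hts
          rw [hww, if_pos rfl]; ring
        · rw [hwt s t (Ne.symm hts), if_neg hts]; ring
      rw [Finset.sum_congr rfl (fun t _ => h3 t), Finset.sum_add_distrib, ← Finset.sum_mul] at h2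
      simp only [Finset.sum_ite_eq', Finset.mem_univ, if_true] at h2
      linarith
    have hl2 : ∀ s, c s = -(∑ t, c t) := by
      intro s
      have h2 := hl s
      have h3 : (c s + ∑ t, c t) * (D / 2) = 0 := by linarith
      have h4 : c s + ∑ t, c t = 0 := by
        rcases mul_eq_zero.mp h3 with h5 | h5
        · exact h5
        · exfalso; linarith
      linarith
    have hS : ∑ t, c t = 0 := by
      have h2 : ∑ t, c t = ∑ _t : Fin 7, -(∑ t, c t) := Finset.sum_congr rfl (fun s _ => hl2 s)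
      rw [Finset.sum_const, Finset.card_univ, Fintype.card_fin] at h2
      simp only [nsmul_eq_mul] at h2
      push_cast at h2
      linarith
    intro s
    rw [hl2 s, hS, neg_zero]
  have hcard := hli.fintype_card_le_finrank
  rw [Fintype.card_fin, finrank_real_of_complex] at hcard
  have hfin : Module.finrank ℂ ((W i0)ᗮ : Submodule ℂ (EuclideanSpace ℂ (Fin 6))) = 3 := by
    have h2 := Submodule.finrank_add_finrank_orthogonal (W i0)
    rw [hd i0, finrank_euclideanSpace, Fintype.card_fin] at h2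
    omega
  rw [hfin] at hcard
  omega

/-- `v(3, 3 r, ℂ) ≤ r (3 r - 2)` -/
theorem bound (r : ℕ) (hr : 1 ≤ r) (v : ℕ)
    (W : Fin v → Submodule ℂ (EuclideanSpace ℂ (Fin (3 * r)))) (h : EquiIsoclinic 3 W) :
    v ≤ r * (3 * r - 2) := by
  rcases Nat.lt_or_ge r 3 with h3 | h3
  · interval_cases r
    · exact bound_one W h
    · exact bound_two W h
  · exact bound_large h3 W h

end Helper15.EIso
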