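import Pool.Agent.Helper15.EIso.Cert6

set_option maxRecDepth 100000

namespace Helper15.EIso

lemma poly_identity6 (R s : ℝ) :
    7 * ((1 + R * (6 * R + 7) * s ^ 2) ^ 2 * ((6 * R + 7) * s - 6) ^ 2
        * ((6 * R + 1) + 3 * R * ((6 * R + 7) * s ^ 2 - 6))
      - (6 * R + 1) * (1 + R * (6 * R + 7) * s) ^ 2 * ((6 * R + 7) * s ^ 2 - 6) ^ 2) ^ 2
    - (1 + R * (6 * R + 7) * s ^ 4) *
      (6 * (R + 1) * (6 * R + 1) * ((6 * R + 7) * s - 6) ^ 2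
        * ((6 * R + 1) + 3 * R * ((6 * R + 7) * s ^ 2 - 6))
        * ((1 + R * (6 * R + 7) * s ^ 2) ^ 2 * ((6 * R + 7) * s - 6) ^ 2
          * ((6 * R + 1) + 3 * R * ((6 * R + 7) * s ^ 2 - 6))
          - 2 * (6 * R + 1) * (1 + R * (6 * R + 7) * s) ^ 2 * ((6 * R + 7) * s ^ 2 - 6) ^ 2)
      + 6 * (R + 1) * (6 * R + 1) ^ 3 * ((6 * R + 7) * s ^ 2 - 6) ^ 2
        * (R * ((6 * R + 7) * s - 6) ^ 2 + (6 * R + 1) * ((6 * R + 7) * s ^ 2 - 6)) ^ 2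
      + ((6 * R + 1) + 3 * R * ((6 * R + 7) * s ^ 2 - 6)) ^ 2 * (6 * R + 1) ^ 3
        * ((6 * R + 7) * s * (1 - s)) ^ 3
        * ((6 * R + 7) * s * (1 - s) + 4 * ((6 * R + 7) * s ^ 2 - 6))
      + ((6 * R + 7) * s ^ 2 - 6)
        * (R * ((6 * R + 7) * s - 6) ^ 2 + (6 * R + 1) * ((6 * R + 7) * s ^ 2 - 6))
        * ((2 * (6 * R + 1) * ((6 * R + 7) * s * (1 - s))
            * ((6 * R + 1) + 3 * R * ((6 * R + 7) * s ^ 2 - 6))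
            + 3 * R * ((6 * R + 7) * s ^ 2 - 6)
              * (R * ((6 * R + 7) * s - 6) ^ 2 + (6 * R + 1) * ((6 * R + 7) * s ^ 2 - 6))) ^ 2
          + 6 * R * ((6 * R + 7) * s ^ 2 - 6) * (6 * R + 1) ^ 2
            * ((6 * R + 1) + 3 * R * ((6 * R + 7) * s ^ 2 - 6))
            * ((6 * R + 7) * s * (1 - s)) ^ 2))
    = R * (6 * R + 7) * (1 - s) ^ 2 * ((6 * R + 7) * s ^ 2 - 6) * E6 R s := by
  unfold E6 E6_c0 E6_c1 E6_c2 E6_c3 E6_c4 E6_c5 E6_c6 E6_c7 E6_c8 E6_c9 E6_c10 E6_c11 E6_c12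
  ring

end Helper15.EIso
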