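import Pool.Agent.Helper15.EIso.Main2
import Pool.Agent.Helper15.EIso.Asm

set_option linter.unusedSectionVars false
set_option maxRecDepth 100000

/-!
Forty equi-isoclinic 6-planes in `ℂ^18` whose sum has all its eigenvalues below a certain bound.
-/

namespace Helper15.EIso

open Matrix Kronecker BigOperators ComplexOrder

/-- certificate -/
noncomputable def U (t : ℝ) : ℝ :=
    32735232000000000000 * (11 - 25 * t) ^ 16 +
    9724516761600000000000 * t * (11 - 25 * t) ^ 15 +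
    1345864854539520000000000 * t ^ 2 * (11 - 25 * t) ^ 14 +
    114501569846296896000000000 * t ^ 3 * (11 - 25 * t) ^ 13 +
    6661617000713249356800000000 * t ^ 4 * (11 - 25 * t) ^ 12 +
    279267417330278033096640000000 * t ^ 5 * (11 - 25 * t) ^ 11 +
    8666615568824903892388032000000 * t ^ 6 * (11 - 25 * t) ^ 10 +
    201448695569432349081465100800000 * t ^ 7 * (11 - 25 * t) ^ 9 +
    3507193724211267782360008190400000 * t ^ 8 * (11 - 25 * t) ^ 8 +
    45194395783958913809995671064896000 * t ^ 9 * (11 - 25 * t) ^ 7 +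
    419375020399719283291925375734003200 * t ^ 10 * (11 - 25 * t) ^ 6 +
    2655424327331311561893492437568837120 * t ^ 11 * (11 - 25 * t) ^ 5 +
    10273888236431919142623214692791398656 * t ^ 12 * (11 - 25 * t) ^ 4 +
    18574922673348576648298134137942151168 * t ^ 13 * (11 - 25 * t) ^ 3 +
    13286798947546773998584113743100254208 * t ^ 14 * (11 - 25 * t) ^ 2 +
    180507829940638341074665353401405349888 * t ^ 15 * (11 - 25 * t) +
    772278936138099965082738094890104696832 * t ^ 16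

lemma U_pos (t : ℝ) (h0 : 0 < t) (h1 : t ≤ 11 / 25) : 0 < U t := by
  have hz : 0 ≤ 11 - 25 * t := by linarith
  unfold U
  positivity

lemma U_id (t : ℝ) :
    5743716232946520125 * (1680 * ((1 + 39 * (1 - t) ^ 2) ^ 2 * (400 - 585 * t - 27 * t ^ 2) ^ 2
      - 1 / 5 * ((1 + 39 * (1 - t) ^ 2) * (400 - 585 * t - 27 * t ^ 2)
        - 40 * t * (195 - 204 * t)) ^ 2) ^ 2
    - (1 + 39 * (1 - t) ^ 4) *
      (57600 * (400 - 585 * t - 27 * t ^ 2) ^ 2
        * ((1 + 39 * (1 - t) ^ 2) ^ 2 * (400 - 585 * t - 27 * t ^ 2) ^ 2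
          - 2 / 5 * ((1 + 39 * (1 - t) ^ 2) * (400 - 585 * t - 27 * t ^ 2)
            - 40 * t * (195 - 204 * t)) ^ 2)
      + 1 / 25 * (240 * (1 + 39 * (1 - t) ^ 2) * (400 - 585 * t - 27 * t ^ 2) ^ 2
        - 480 * (40 * t * (195 - 204 * t)) * (400 - 585 * t - 27 * t ^ 2)
        + 18 * (40 * t * (195 - 204 * t)) ^ 2) ^ 2
      + 18 * (40 * t * (195 - 204 * t)) ^ 4
      + 4 * (40 * t * (195 - 204 * t)) ^ 3
        * (240 * (400 - 585 * t - 27 * t ^ 2) - 18 * (40 * t * (195 - 204 * t)))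
      + (240 * (1 + 39 * (1 - t) ^ 2) * (400 - 585 * t - 27 * t ^ 2) ^ 2
        - 480 * (40 * t * (195 - 204 * t)) * (400 - 585 * t - 27 * t ^ 2)
        + 18 * (40 * t * (195 - 204 * t)) ^ 2)
        * ((2 * (40 * t * (195 - 204 * t))
          + 4 / 5 * ((40 - 39 * t - 9 / 5 * t ^ 2) * (400 - 585 * t - 27 * t ^ 2)
            - 40 * t * (195 - 204 * t))) ^ 2
          + 8 / 5 * (40 * t * (195 - 204 * t)) ^ 2)))
    = t ^ 2 * U t := by
  unfold U
  ring

variable {m : Type*} [Fintype m] [DecidableEq m] {lam : ℝ}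

theorem Fam.three6 {P : Fin 40 → Matrix m m ℂ} (h : Fam P 6 lam)
    (hm : (Fintype.card m : ℝ) = 18) (h0 : 0 < lam) (h1 : lam < 1)
    (hb : ∀ (x : m → ℂ) (θ : ℝ), star x ⬝ᵥ x = 1 → A P *ᵥ x = (θ : ℂ) • x →
      0 ≤ θ ∧ θ ≤ 40 - 39 * (1 - √lam) - 9 / 5 * (1 - √lam) ^ 2) : False := by
  set s := Real.sqrt lam with hsdef
  have hs2 : s ^ 2 = lam := Real.sq_sqrt h0.le
  have hs : 0 < s := Real.sqrt_pos.mpr h0
  have hs1 : s < 1 := by
    rw [hsdef, Real.sqrt_lt' one_pos]; simpa using h1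
  have hcs := h.cs
  rw [hm] at hcs
  push_cast at hcs
  obtain ⟨t, ht⟩ : ∃ t, t = 1 - s := ⟨_, rfl⟩
  have hst : s = 1 - t := by rw [ht]; ring
  have ht0 : 0 < t := by rw [ht]; linarith
  have ht1 : t ≤ 11 / 25 := by
    by_contra hc
    push Not at hc
    have h3 : s < 14 / 25 := by rw [hst]; linarith
    have h4 : lam < (14 / 25) ^ 2 := by
      rw [← hs2]; exact pow_lt_pow_left₀ h3 hs.le two_ne_zero
    norm_num at hcs h4
    linarith
  rw [← ht] at hb
  have hU := U_pos t ht0 ht1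
  have hid := U_id t
  set p := 400 - 585 * t - 27 * t ^ 2 with hp
  set Y := 40 * t * (195 - 204 * t) with hY
  set a := 1 + 39 * (1 - t) ^ 2 with ha
  have hp0 : 0 < p := by rw [hp]; nlinarith
  have hY0 : 0 < Y := by
    rw [hY]
    have : 0 < 195 - 204 * t := by linarith
    positivity
  have key := h.main_ineq2 (by norm_num) (by norm_num) hm (a := a)
    (b := 40 - 39 * t - 9 / 5 * t ^ 2) (y := Y / p) (f := 4 / 5)
    (κ := 240 * a - 480 * (Y / p) + 18 * (Y / p) ^ 2)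
    (by rw [ha, ← hst, hs2]; push_cast; ring) hb
    (by push_cast; ring) (by positivity) (by norm_num) (by norm_num)
  have hp4 : 0 < p ^ 4 := by positivity
  have key2 := mul_le_mul_of_nonneg_right key hp4.le
  have e1 : 6 * (6 + 1) * ((40 : ℕ) : ℝ) * (a ^ 2 - (1 - 4 / 5) * (a - Y / p) ^ 2) ^ 2 * p ^ 4
      = 1680 * (a ^ 2 * p ^ 2 - 1 / 5 * (a * p - Y) ^ 2) ^ 2 := by
    push_cast
    field_simp
    ring
  have e2 : (6 ^ 2 * ((40 : ℕ) : ℝ) ^ 2 * (a ^ 2 - 2 * (1 - 4 / 5) * (a - Y / p) ^ 2)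
        + (1 - 4 / 5) ^ 2 * (240 * a - 480 * (Y / p) + 18 * (Y / p) ^ 2) ^ 2
        + 18 * (Y / p) ^ 4 + 4 * (Y / p) ^ 3 * (6 * ((40 : ℕ) : ℝ) - 18 * (Y / p))
        + (240 * a - 480 * (Y / p) + 18 * (Y / p) ^ 2)
          * ((2 * (Y / p) + 4 / 5 * ((40 - 39 * t - 9 / 5 * t ^ 2) - Y / p)) ^ 2
            + 2 * (4 / 5) * (Y / p) ^ 2)) * p ^ 4
      = 57600 * p ^ 2 * (a ^ 2 * p ^ 2 - 2 / 5 * (a * p - Y) ^ 2)
        + 1 / 25 * (240 * a * p ^ 2 - 480 * Y * p + 18 * Y ^ 2) ^ 2 + 18 * Y ^ 4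
        + 4 * Y ^ 3 * (240 * p - 18 * Y)
        + (240 * a * p ^ 2 - 480 * Y * p + 18 * Y ^ 2)
          * ((2 * Y + 4 / 5 * ((40 - 39 * t - 9 / 5 * t ^ 2) * p - Y)) ^ 2 + 8 / 5 * Y ^ 2) := by
    push_cast
    field_simp
    ring
  rw [e1, mul_assoc (1 + _), e2] at key2
  have hpos : 0 < t ^ 2 * U t := by positivity
  rw [← hid] at hpos
  have hs4 : lam ^ 2 = (1 - t) ^ 4 := by rw [← hs2, hst]; ring
  have e3 : (1 + (((40 : ℕ) : ℝ) - 1) * lam ^ 2) = 1 + 39 * (1 - t) ^ 4 := by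
    rw [hs4]; push_cast; ring
  rw [e3] at key2
  have := (pos_iff_pos_of_mul_pos hpos).mp (by norm_num)
  linarith

end Helper15.EIso
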