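import Pool.Agent.Helper15.EIso.Top
import Pool.Agent.Helper15.EIso.Small

set_option linter.unusedSectionVars false

/-!
Equi-isoclinic 6-planes in dimension 12.
-/

namespace Helper15.EIso

open Matrix BigOperators ComplexOrder Quaternion

lemma q_sub {m : Type*} [Fintype m] [DecidableEq m] (a b : m → ℂ) :
    q (a - b) = q a - 2 * (star a ⬝ᵥ b).re + q b := by
  unfold q
  rw [star_sub, sub_dotProduct, dotProduct_sub, dotProduct_sub]
  simp only [Complex.sub_re]
  rw [dot_re_comm a b]
  ring

/-- at most `2 n + 2` equi-isoclinic `n`-planes in dimension `2 n`, here `n = 6` -/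
lemma Fam.two6 {m : Type*} [Fintype m] [DecidableEq m] {P : Fin 15 → Matrix m m ℂ} {lam : ℝ}
    (h : Fam P 6 lam) (hm : Fintype.card m = 12) (h1 : lam < 1) : False := by
  have hsq := fun (i j : Fin 15) (hij : i ≠ j) => h.sq_diff (by rw [hm]; norm_num) h1 hij
  have hq : ∀ i j, i ≠ j → ∀ x : m → ℂ, q (P i *ᵥ x - P j *ᵥ x) = (1 - lam) * q x := by
    intro i j hij x
    have hh : (P i - P j)ᴴ = P i - P j := by rw [conjTranspose_sub, h.herm, h.herm]
    unfold q
    rw [← Matrix.sub_mulVec, herm_dot hh, Matrix.mulVec_mulVec, hsq i j hij, Matrix.smul_mulVec,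
      Matrix.one_mulVec, dotProduct_smul, smul_eq_mul, Complex.re_ofReal_mul]
  -- a nonzero vector fixed by `P 0`
  have hP0 : P 0 ≠ 0 := by
    intro hz
    have := h.tr 0
    rw [hz, trace_zero] at this
    norm_num at this
  obtain ⟨y, hy⟩ : ∃ y, P 0 *ᵥ y ≠ 0 := by
    by_contra hc
    push Not at hc
    exact hP0 (Matrix.ext_of_mulVec_single fun i => by rw [hc, Matrix.zero_mulVec])
  set x : m → ℂ := P 0 *ᵥ y with hxdef
  have hx : P 0 *ᵥ x = x := by rw [hxdef, Matrix.mulVec_mulVec, h.idem]
  have hPx : ∀ j, (0 : Fin 15) ≠ j → P 0 *ᵥ (P j *ᵥ x) = (lam : ℂ) • x := by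
    intro j hj
    have h2 : (P 0 * P j * P 0) *ᵥ y = ((lam : ℂ) • P 0) *ᵥ y := by rw [h.iso 0 j hj]
    rw [Matrix.smul_mulVec, ← Matrix.mulVec_mulVec, ← Matrix.mulVec_mulVec] at h2
    exact h2
  let k : Fin 13 → Fin 15 := fun t => ⟨t.val + 2, by omega⟩
  have hk1 : ∀ t, k t ≠ 1 := by
    intro t e
    have := congrArg Fin.val e
    simp [k] at this
  have hk0 : ∀ t, k t ≠ 0 := by
    intro t e
    have := congrArg Fin.val e
    simp [k] at this
  have hkk : ∀ s t, s ≠ t → k s ≠ k t := by
    intro s t hst e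
    apply hst
    have := congrArg Fin.val e
    simp only [k] at this
    exact Fin.ext (by omega)
  let w : Fin 13 → LinearMap.ker (Matrix.toLin' (P 0)) := fun t =>
    ⟨P (k t) *ᵥ x - P 1 *ᵥ x, by
      rw [LinearMap.mem_ker, Matrix.toLin'_apply, Matrix.mulVec_sub, hPx _ (hk0 t).symm,
        hPx 1 (by decide), sub_self]⟩
  have hqx : 0 < q x := by
    rcases (q_nonneg x).eq_or_lt with h2 | h2
    · exfalso
      apply hy
      have := dot_self x
      rw [← h2, Complex.ofReal_zero] at this
      exact dotProduct_star_self_eq_zero.mp this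
    · exact h2
  set D : ℝ := (1 - lam) * q x with hD
  have hDpos : 0 < D := by
    have h2 : 0 < 1 - lam := by linarith
    positivity
  have hwq : ∀ t, q (w t : m → ℂ) = D := fun t => hq _ _ (hk1 t) x
  have hwt : ∀ s t, s ≠ t → (star (w s : m → ℂ) ⬝ᵥ (w t : m → ℂ)).re = D / 2 := by
    intro s t hst
    have h3 : (w s : m → ℂ) - (w t : m → ℂ) = P (k s) *ᵥ x - P (k t) *ᵥ x := by
      simp only [w]; abel
    have h2 : q ((w s : m → ℂ) - (w t : m → ℂ)) = D := by
      rw [h3]; exact hq _ _ (hkk s t hst) x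
    rw [q_sub, hwq, hwq] at h2
    linarith
  have hww : ∀ t, (star (w t : m → ℂ) ⬝ᵥ (w t : m → ℂ)).re = D := hwq
  have hli : LinearIndependent ℝ w := by
    rw [Fintype.linearIndependent_iff]
    intro c hc
    have hc' : ∑ t, ((c t : ℂ)) • (w t : m → ℂ) = 0 := by
      have h2 := congrArg (Subtype.val) hc
      simpa using h2
    have hl : ∀ s, c s * (D / 2) + (∑ t, c t) * (D / 2) = 0 := by
      intro s
      have h2 := congrArg (fun y => (star (w s : m → ℂ) ⬝ᵥ y).re) hc'
      simp only [dotProduct_sum, dotProduct_smul, dotProduct_zero, Complex.re_sum,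
        Complex.zero_re, smul_eq_mul, Complex.re_ofReal_mul] at h2
      have h3 : ∀ t, c t * (star (w s : m → ℂ) ⬝ᵥ (w t : m → ℂ)).re
          = c t * (D / 2) + (if t = s then c s * (D / 2) else 0) := by
        intro t
        by_cases hts : t = s
        · subst hts
          rw [hww, if_pos rfl]; ring
        · rw [hwt s t (Ne.symm hts), if_neg hts]; ring
      rw [Finset.sum_congr rfl (fun t _ => h3 t), Finset.sum_add_distrib, ← Finset.sum_mul] at h2
      simp only [Finset.sum_ite_eq', Finset.mem_univ, if_true] at h2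
      linarith
    have hl2 : ∀ s, c s = -(∑ t, c t) := by
      intro s
      have h2 := hl s
      have h3 : (c s + ∑ t, c t) * (D / 2) = 0 := by linarith
      have h4 : c s + ∑ t, c t = 0 := by
        rcases mul_eq_zero.mp h3 with h5 | h5
        · exact h5
        · exfalso; linarith
      linarith
    have hS : ∑ t, c t = 0 := by
      have h2 : ∑ t, c t = ∑ _t : Fin 13, -(∑ t, c t) := Finset.sum_congr rfl (fun s _ => hl2 s)
      rw [Finset.sum_const, Finset.card_univ, Fintype.card_fin] at h2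
      simp only [nsmul_eq_mul] at h2
      push_cast at h2
      linarith
    intro s
    rw [hl2 s, hS, neg_zero]
  have hcard := hli.fintype_card_le_finrank
  rw [Fintype.card_fin, finrank_real_of_complex] at hcard
  have hp : LinearMap.IsProj (LinearMap.ker (Matrix.toLin' (P 0))) (Matrix.toLin' (1 - P 0)) := by
    refine ⟨fun z => ?_, fun z hz => ?_⟩
    · rw [LinearMap.mem_ker, Matrix.toLin'_apply, Matrix.toLin'_apply, Matrix.mulVec_mulVec,
        mul_sub, mul_one, h.idem, sub_self, Matrix.zero_mulVec]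
    · rw [LinearMap.mem_ker, Matrix.toLin'_apply] at hz
      rw [Matrix.toLin'_apply, Matrix.sub_mulVec, Matrix.one_mulVec, hz, sub_zero]
  have hfin : Module.finrank ℂ (LinearMap.ker (Matrix.toLin' (P 0))) = 6 := by
    have h2 := hp.trace
    rw [Matrix.trace_toLin'_eq, trace_sub, trace_one, h.tr, hm] at h2
    have h3 : (6 : ℂ) = (Module.finrank ℂ (LinearMap.ker (Matrix.toLin' (P 0))) : ℂ) := by
      rw [← h2]; push_cast; norm_num
    exact_mod_cast h3.symm
  rw [hfin] at hcard
  omega

end Helper15.EIso
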