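import Pool.Agent.Helper15.EIso.Top40
import Pool.Agent.Helper15.EIso.Three6
import Pool.Agent.Helper15.EIso.Large6
import Pool.Agent.Helper15.EIso.Two6

set_option linter.unusedSectionVars false

/-!
The bound `v(3, 3 r, ℍ) ≤ r (6 r - 5)`.
-/

namespace Helper15.EIso

open Matrix BigOperators ComplexOrder Quaternion MulOpposite

/-- `P` is (the matrix of) the orthogonal projection of the right `ℍ`-space `ℍ^m` onto `W` -/
def IsOrthProj {m : ℕ} (P : Matrix (Fin m) (Fin m) ℍ[ℝ])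
    (W : Submodule ℍ[ℝ]ᵐᵒᵖ (Fin m → ℍ[ℝ])) : Prop :=
  Pᴴ = P ∧ (∀ x, P *ᵥ x ∈ W) ∧ ∀ x ∈ W, P *ᵥ x = x

/-- a family of right `ℍ`-subspaces of `ℍ^m`, of dimension `n`, which is equi-isoclinic -/
def EquiIsoclinicH {m v : ℕ} (n : ℕ) (W : Fin v → Submodule ℍ[ℝ]ᵐᵒᵖ (Fin m → ℍ[ℝ])) : Prop :=
  (∀ i, Module.finrank ℍ[ℝ]ᵐᵒᵖ (W i) = n) ∧
    ∃ P : Fin v → Matrix (Fin m) (Fin m) ℍ[ℝ], (∀ i, IsOrthProj (P i) (W i)) ∧
      ∃ lam : ℝ, 0 < lam ∧ lam < 1 ∧ ∀ i j, i ≠ j → P i * P j * P i = lam • P i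

lemma IsOrthProj.idem {m : ℕ} {P : Matrix (Fin m) (Fin m) ℍ[ℝ]}
    {W : Submodule ℍ[ℝ]ᵐᵒᵖ (Fin m → ℍ[ℝ])} (h : IsOrthProj P W) : P * P = P := by
  apply Matrix.ext_of_mulVec_single
  intro i
  rw [← Matrix.mulVec_mulVec]
  exact h.2.2 _ (h.2.1 _)

/-- real linear map of a quaternionic matrix -/
noncomputable def rl {m : ℕ} (P : Matrix (Fin m) (Fin m) ℍ[ℝ]) :
    (Fin m → ℍ[ℝ]) →ₗ[ℝ] (Fin m → ℍ[ℝ]) where
  toFun x := P *ᵥ x
  map_add' x y := Matrix.mulVec_add _ _ _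
  map_smul' c x := by
    rw [Matrix.mulVec_smul]; rfl

lemma finrank_op : Module.finrank ℝ ℍ[ℝ]ᵐᵒᵖ = 4 := by
  rw [← (MulOpposite.opLinearEquiv ℝ : ℍ[ℝ] ≃ₗ[ℝ] ℍ[ℝ]ᵐᵒᵖ).finrank_eq]
  exact Quaternion.finrank_eq_four

/-- the basis `1, i, j, k` -/
noncomputable def qB : Module.Basis (Fin 4) ℝ ℍ[ℝ] :=
  QuaternionAlgebra.basisOneIJK (-1 : ℝ) (0 : ℝ) (-1 : ℝ)

lemma qB_tr (x : ℍ[ℝ]) : ∑ s : Fin 4, qB.repr (x * qB s) s = 4 * x.re := by
  have h0 : ∀ y : ℍ[ℝ], ⇑(qB.repr y) = ![y.re, y.imI, y.imJ, y.imK] := fun y => rfl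
  have h1 : ∀ s, qB s = (QuaternionAlgebra.equivTuple (-1 : ℝ) (0 : ℝ) (-1 : ℝ)).symm
      (Pi.single s 1) := by
    intro s
    apply qB.repr.injective
    rw [Module.Basis.repr_self]
    ext t
    rw [h0]
    fin_cases s <;> fin_cases t <;> simp [QuaternionAlgebra.equivTuple]
  rw [Fin.sum_univ_four, h0, h0, h0, h0, h1, h1, h1, h1]
  simp [QuaternionAlgebra.equivTuple]
  ring

lemma trace_rl {m : ℕ} (P : Matrix (Fin m) (Fin m) ℍ[ℝ]) :
    LinearMap.trace ℝ _ (rl P) = 4 * ∑ i, (P i i).re := by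
  classical
  rw [LinearMap.trace_eq_matrix_trace ℝ (Pi.basis (fun _ : Fin m => qB)) (rl P)]
  rw [Matrix.trace, Fintype.sum_sigma, Finset.mul_sum]
  refine Finset.sum_congr rfl fun i _ => ?_
  simp only [Matrix.diag_apply, LinearMap.toMatrix_apply, Pi.basis_repr, Pi.basis_apply]
  have : ∀ z : ℍ[ℝ], (rl P (Pi.single i z)) i = P i i * z := by
    intro z
    show (P *ᵥ Pi.single i z) i = _
    rw [Matrix.mulVec_single]
    rfl
  simp only [this]
  exact qB_tr _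

lemma trace_cx {m n : ℕ} {P : Matrix (Fin m) (Fin m) ℍ[ℝ]}
    {W : Submodule ℍ[ℝ]ᵐᵒᵖ (Fin m → ℍ[ℝ])} (h : IsOrthProj P W)
    (hn : Module.finrank ℍ[ℝ]ᵐᵒᵖ W = n) : trace (cx P) = ((2 * n : ℝ) : ℂ) := by
  have hp : LinearMap.IsProj (W.restrictScalars ℝ) (rl P) := ⟨h.2.1, h.2.2⟩
  have h1 := hp.trace
  have h2 : Module.finrank ℝ (W.restrictScalars ℝ) = 4 * n := by
    rw [← finrank_op, ← hn]
    exact (Module.finrank_mul_finrank ℝ ℍ[ℝ]ᵐᵒᵖ W).symm
  rw [trace_rl, h2] at h1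
  push_cast at h1
  have h3 : ∑ i, (P i i).re = n := by linarith
  rw [Matrix.trace, Fintype.sum_prod_type]
  simp only [Matrix.diag_apply, cx, Fin.sum_univ_two]
  rw [← h3]
  push_cast
  rw [Finset.mul_sum]
  refine Finset.sum_congr rfl fun i _ => ?_
  simp [qb, Complex.ext_iff]
  ring

lemma famH {m v : ℕ} {W : Fin v → Submodule ℍ[ℝ]ᵐᵒᵖ (Fin m → ℍ[ℝ])}
    (hd : ∀ i, Module.finrank ℍ[ℝ]ᵐᵒᵖ (W i) = 3) {P : Fin v → Matrix (Fin m) (Fin m) ℍ[ℝ]}
    (hP : ∀ i, IsOrthProj (P i) (W i)) {lam : ℝ}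
    (h : ∀ i j, i ≠ j → P i * P j * P i = lam • P i) : Fam (fun i => cx (P i)) 6 lam where
  herm i := by rw [← cx_conjTranspose, (hP i).1]
  idem i := by rw [← cx_mul, (hP i).idem]
  tr i := by
    rw [trace_cx (hP i) (hd i)]; push_cast; norm_num
  iso i j hij := by rw [← cx_mul, ← cx_mul, h i j hij, cx_smul]

lemma card_idx (m : ℕ) : Fintype.card (Fin m × Fin 2) = m * 2 := by
  rw [Fintype.card_prod, Fintype.card_fin, Fintype.card_fin]

/-- `v(3, 3 r, ℍ) ≤ r (6 r - 5)` -/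
theorem boundH (r : ℕ) (hr : 1 ≤ r) (v : ℕ)
    (W : Fin v → Submodule ℍ[ℝ]ᵐᵒᵖ (Fin (3 * r) → ℍ[ℝ])) (h : EquiIsoclinicH 3 W) :
    v ≤ r * (6 * r - 5) := by
  by_contra hv
  push Not at hv
  obtain ⟨hd, P, hP, lam, h0, h1, hW⟩ := h
  have hF := famH hd hP hW
  rcases Nat.lt_or_ge r 4 with h4 | h4
  · interval_cases r
    · -- r = 1
      have hcs := hF.cs
      rw [card_idx] at hcs
      push_cast at hcs
      have hv2 : (2 : ℝ) ≤ v := by
        have : 2 ≤ v := by omega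
        exact_mod_cast this
      have e : ((3 * 1 * 2 : ℝ) * (v * 6 * (1 + (v - 1) * lam)) - (v * 6) ^ 2)
          = -(36 * v * ((v - 1) * (1 - lam))) := by ring
      have : 0 < 36 * (v : ℝ) * ((v - 1) * (1 - lam)) := by
        have a1 : 0 < (v : ℝ) - 1 := by linarith
        have a2 : 0 < 1 - lam := by linarith
        have a3 : 0 < (v : ℝ) := by linarith
        positivity
      linarith
    · -- r = 2
      have hF1 := hF.sub (Fin.castLE (show 15 ≤ v by omega)) (Fin.castLE_injective _)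
      exact hF1.two6 (by rw [card_idx]) h1
    · -- r = 3
      have hF1 := hF.sub (Fin.castLE (show 40 ≤ v by omega)) (Fin.castLE_injective _)
      have hm : (Fintype.card (Fin (3 * 3) × Fin 2) : ℝ) = 18 := by
        rw [card_idx]; norm_num
      have hcs := hF1.cs
      rw [hm] at hcs
      push_cast at hcs
      have ht : 1 - √lam ≤ 11 / 25 := by
        by_contra hc
        push Not at hc
        have h3 : √lam < 14 / 25 := by linarith
        have h5 : lam < (14 / 25) ^ 2 := by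
          rw [← Real.sq_sqrt h0.le]; exact pow_lt_pow_left₀ h3 (Real.sqrt_nonneg _) two_ne_zero
        norm_num at hcs h5
        linarith
      exact hF1.three6 hm h0 h1 (hF1.top40 (fun i x => cx_Jv _ _) hm h0 h1 ht)
  · set N := r * (6 * r - 5) with hNdef
    have hr' : (4 : ℝ) ≤ r := by exact_mod_cast h4
    have hNr : (N : ℝ) = r * (6 * r - 5) := by
      rw [hNdef]; push_cast [Nat.cast_sub (show 5 ≤ 6 * r by omega)]; ring
    have hF1 := hF.sub (Fin.castLE (show N ≤ v by omega)) (Fin.castLE_injective _)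
    have hF2 := hF.sub (Fin.castLE (show N + 1 ≤ v by omega)) (Fin.castLE_injective _)
    have hL := Fam.large6 (R := (r : ℝ) - 1) hF1 (by linarith)
      (by rw [hNr]; ring) (by rw [card_idx]; push_cast; ring) h0 h1
    have hcs := hF2.cs
    rw [card_idx] at hcs
    push_cast at hcs
    have hN0 : (0 : ℝ) < N := by rw [hNr]; nlinarith
    have e1 : (N : ℝ) + 1 ≤ r * (1 + N * lam) := by
      have : ((N : ℝ) + 1) * (36 * (N + 1)) ≤ (r * (1 + N * lam)) * (36 * (N + 1)) := by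
        calc ((N : ℝ) + 1) * (36 * (N + 1)) = ((N + 1) * 6) ^ 2 := by ring
          _ ≤ _ := hcs
          _ = _ := by ring
      exact le_of_mul_le_mul_right this (by positivity)
    have e2 : (6 * (r : ℝ) + 1) * lam ≤ 6 := by
      have : 6 * ((r : ℝ) - 1) + 7 = 6 * r + 1 := by ring
      rwa [this] at hL
    have e3 : ((N : ℝ) + 1) * (6 * r + 1) ≤ r * ((6 * r + 1) + N * ((6 * r + 1) * lam)) := by
      calc ((N : ℝ) + 1) * (6 * r + 1) ≤ (r * (1 + N * lam)) * (6 * r + 1) :=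
            mul_le_mul_of_nonneg_right e1 (by positivity)
        _ = _ := by ring
    have e4 : (r : ℝ) * ((6 * r + 1) + N * ((6 * r + 1) * lam)) ≤ r * ((6 * r + 1) + N * 6) := by
      apply mul_le_mul_of_nonneg_left _ (by positivity)
      have := mul_le_mul_of_nonneg_left e2 hN0.le
      linarith
    have e5 := e3.trans e4
    rw [hNr] at e5
    nlinarith

end Helper15.EIso
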