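import Pool.Agent.Helper15.EIso.Cert

set_option maxRecDepth 100000

namespace Helper15.EIso

lemma poly_identity (R s : ℝ) :
    4 * ((1 + R * (3 * R + 4) * s ^ 2) ^ 2 * ((3 * R + 4) * s - 3) ^ 2
        * ((3 * R + 1) + 2 * R * ((3 * R + 4) * s ^ 2 - 3))
      - (3 * R + 1) * (1 + R * (3 * R + 4) * s) ^ 2 * ((3 * R + 4) * s ^ 2 - 3) ^ 2) ^ 2
    - (1 + R * (3 * R + 4) * s ^ 4) *
      (3 * (R + 1) * (3 * R + 1) * ((3 * R + 4) * s - 3) ^ 2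
        * ((3 * R + 1) + 2 * R * ((3 * R + 4) * s ^ 2 - 3))
        * ((1 + R * (3 * R + 4) * s ^ 2) ^ 2 * ((3 * R + 4) * s - 3) ^ 2
          * ((3 * R + 1) + 2 * R * ((3 * R + 4) * s ^ 2 - 3))
          - 2 * (3 * R + 1) * (1 + R * (3 * R + 4) * s) ^ 2 * ((3 * R + 4) * s ^ 2 - 3) ^ 2)
      + 3 * (R + 1) * (3 * R + 1) ^ 3 * ((3 * R + 4) * s ^ 2 - 3) ^ 2
        * (R * ((3 * R + 4) * s - 3) ^ 2 + (3 * R + 1) * ((3 * R + 4) * s ^ 2 - 3)) ^ 2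
      + ((3 * R + 1) + 2 * R * ((3 * R + 4) * s ^ 2 - 3)) ^ 2 * (3 * R + 1) ^ 3
        * ((3 * R + 4) * s * (1 - s)) ^ 3
        * ((3 * R + 4) * s * (1 - s) + 4 * ((3 * R + 4) * s ^ 2 - 3))
      + ((3 * R + 4) * s ^ 2 - 3)
        * (R * ((3 * R + 4) * s - 3) ^ 2 + (3 * R + 1) * ((3 * R + 4) * s ^ 2 - 3))
        * ((2 * (3 * R + 1) * ((3 * R + 4) * s * (1 - s))
            * ((3 * R + 1) + 2 * R * ((3 * R + 4) * s ^ 2 - 3))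
            + 2 * R * ((3 * R + 4) * s ^ 2 - 3)
              * (R * ((3 * R + 4) * s - 3) ^ 2 + (3 * R + 1) * ((3 * R + 4) * s ^ 2 - 3))) ^ 2
          + 4 * R * ((3 * R + 4) * s ^ 2 - 3) * (3 * R + 1) ^ 2
            * ((3 * R + 1) + 2 * R * ((3 * R + 4) * s ^ 2 - 3))
            * ((3 * R + 4) * s * (1 - s)) ^ 2))
    = R * (3 * R + 4) * (1 - s) ^ 2 * ((3 * R + 4) * s ^ 2 - 3) * E R s := by
  unfold E E_c0 E_c1 E_c2 E_c3 E_c4 E_c5 E_c6 E_c7 E_c8 E_c9 E_c10 E_c11 E_c12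
  ring

end Helper15.EIso
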