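import Pool.Agent.Helper15.EIso.Main
import Pool.Agent.Helper15.EIso.Ident

set_option linter.unusedSectionVars false

/-!
Equi-isoclinic 3-planes in `ℂ^(3r)`, `r ≥ 3`: a family with `r (3 r - 2)` members has
`(3 r + 1) lam ≤ 3`.
-/

namespace Helper15.EIso

open Matrix Kronecker BigOperators ComplexOrder

lemma alg_left (N ν p q G a b : ℝ) (hp : p ≠ 0) (hG : G ≠ 0) :
    (3 * (3 + 1) * N * (a ^ 2 - ν / G * (b * q / p) ^ 2) ^ 2) * (p ^ 4 * G ^ 2)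
      = 12 * N * (a ^ 2 * p ^ 2 * G - ν * b ^ 2 * q ^ 2) ^ 2 := by
  field_simp
  ring

lemma alg_right (r ν R p q G D y1 a b : ℝ) (hp : p ≠ 0) (hG : G ≠ 0) :
    (3 ^ 2 * (r * ν) ^ 2 * (a ^ 2 - 2 * (ν / G) * (b * q / p) ^ 2)
      + (ν / G) ^ 2 * (3 * (r * ν) * q * D / p ^ 2) ^ 2 + 3 * r * (ν * y1 / p) ^ 4
      + 4 * (ν * y1 / p) ^ 3 * (3 * (r * ν) * q / p)
      + 3 * (r * ν) * q * D / p ^ 2 * ((2 * (ν * y1 / p) + 2 * R * q / G * (D / p)) ^ 2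
        + 2 * (2 * R * q / G) * (ν * y1 / p) ^ 2)) * (p ^ 4 * G ^ 2)
    = 3 * r * ν * (3 * r * ν * p ^ 2 * G * (a ^ 2 * p ^ 2 * G - 2 * ν * b ^ 2 * q ^ 2)
      + 3 * r * ν ^ 3 * q ^ 2 * D ^ 2 + G ^ 2 * ν ^ 3 * y1 ^ 3 * (y1 + 4 * q)
      + q * D * ((2 * ν * y1 * G + 2 * R * q * D) ^ 2 + 4 * R * q * ν ^ 2 * G * y1 ^ 2)) := by
  field_simp
  ring

variable {m : Type*} [Fintype m] [DecidableEq m] {N : ℕ} {P : Fin N → Matrix m m ℂ} {lam : ℝ}

theorem Fam.large (h : Fam P 3 lam) {R : ℝ} (hR : 2 ≤ R) (hN : (N : ℝ) = (R + 1) * (3 * R + 1))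
    (hm : (Fintype.card m : ℝ) = 3 * (R + 1)) (h0 : 0 < lam) (h1 : lam < 1) :
    (3 * R + 4) * lam ≤ 3 := by
  by_contra hcon
  push Not at hcon
  set s := Real.sqrt lam with hsdef
  have hs2 : s ^ 2 = lam := Real.sq_sqrt h0.le
  have hs : 0 < s := Real.sqrt_pos.mpr h0
  have hs1 : s < 1 := by
    rw [hsdef, Real.sqrt_lt' one_pos]; simpa using h1
  have hq : 0 < (3 * R + 4) * s ^ 2 - 3 := by rw [hs2]; linarith
  have hN1 : 1 ≤ N := by
    have : (1 : ℝ) ≤ N := by rw [hN]; nlinarith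
    exact_mod_cast this
  have hE := E_pos R s hR hs hs1 hq
  set q := (3 * R + 4) * s ^ 2 - 3 with hqdef
  set p := (3 * R + 4) * s - 3 with hpdef
  have hp : 0 < p := by
    have : s ^ 2 < s := by nlinarith
    have h2 : (3 * R + 4) * s ^ 2 < (3 * R + 4) * s := mul_lt_mul_of_pos_left this (by linarith)
    rw [hpdef]; rw [hqdef] at hq; linarith
  set G := (3 * R + 1) + 2 * R * q with hGdef
  have hG : 0 < G := by rw [hGdef]; positivity
  set D := R * p ^ 2 + (3 * R + 1) * q with hDdef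
  set y1 := (3 * R + 4) * s * (1 - s) with hy1
  have hy1pos : 0 < y1 := by rw [hy1]; have := sub_pos.mpr hs1; positivity
  set a : ℝ := 1 + R * (3 * R + 4) * s ^ 2 with hadef
  set b : ℝ := 1 + R * (3 * R + 4) * s with hbdef
  set ν : ℝ := 3 * R + 1 with hν
  have hNm : (N : ℝ) - 1 = R * (3 * R + 4) := by rw [hN, hν]; ring
  have hNν : (N : ℝ) = (R + 1) * ν := hN
  have e1 : a - ν * y1 / p = b * q / p := by
    rw [eq_div_iff hp.ne', sub_mul, div_mul_cancel₀ _ hp.ne', hadef, hbdef, hν, hy1, hpdef, hqdef]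
    ring
  have e2 : b - ν * y1 / p = D / p := by
    rw [eq_div_iff hp.ne', sub_mul, div_mul_cancel₀ _ hp.ne', hDdef, hbdef, hν, hy1, hpdef, hqdef]
    ring
  have e3 : 1 - 2 * R * q / G = ν / G := by
    rw [eq_div_iff hG.ne', sub_mul, div_mul_cancel₀ _ hG.ne', hGdef]
    ring
  have e5 : 3 * (N : ℝ) - 3 * (R + 1) * (ν * y1 / p) = 3 * ((R + 1) * ν) * q / p := by
    rw [eq_div_iff hp.ne', sub_mul, mul_assoc (3 * (R + 1)), div_mul_cancel₀ _ hp.ne', hNν, hy1,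
      hpdef, hqdef]
    ring
  have e4 : (3 : ℝ) * N * a - 2 * (ν * y1 / p) * (3 * N) + (ν * y1 / p) ^ 2 * (3 * (R + 1))
      = 3 * ((R + 1) * ν) * q * D / p ^ 2 := by
    rw [hNν, eq_div_iff (pow_ne_zero 2 hp.ne')]
    have : (3 * ((R + 1) * ν) * a - 2 * (ν * y1 / p) * (3 * ((R + 1) * ν))
        + (ν * y1 / p) ^ 2 * (3 * (R + 1))) * p ^ 2
        = 3 * ((R + 1) * ν) * a * p ^ 2 - 2 * (ν * y1) * (3 * ((R + 1) * ν)) * p
          + (ν * y1) ^ 2 * (3 * (R + 1)) := by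
      field_simp
    rw [this, hDdef, hadef, hy1, hpdef, hqdef, hν]
    ring
  have hf0 : 0 ≤ 2 * R * q / G := by positivity
  have hf1 : 2 * R * q / G ≤ 1 := by
    have : 0 ≤ ν / G := by rw [hν]; positivity
    linarith [e3]
  have key := h.main_ineq hs hs2 hN1 (by norm_num) hm (a := a) (b := b)
    (y := ν * y1 / p) (f := 2 * R * q / G)
    (κ := 3 * N * a - 2 * (ν * y1 / p) * (3 * N) + (ν * y1 / p) ^ 2 * (3 * (R + 1)))
    (by rw [hNm, ← hs2]) (by rw [hNm]) rfl (by rw [hν]; positivity) hf0 hf1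
  rw [e4, e1, e2, e3, e5, hNm] at key
  have hpG : 0 < p ^ 4 * G ^ 2 := by positivity
  have key2 := mul_le_mul_of_nonneg_right key hpG.le
  rw [alg_left _ _ _ _ _ _ _ hp.ne' hG.ne', mul_assoc (1 + _), hNν,
    alg_right _ _ _ _ _ _ _ _ _ _ hp.ne' hG.ne'] at key2
  have hid := poly_identity R s
  rw [← hpdef, ← hqdef, ← hGdef, ← hDdef, ← hy1, ← hadef, ← hbdef, ← hν] at hid
  have hpos : 0 < R * (3 * R + 4) * (1 - s) ^ 2 * q * E R s := by
    have := sub_pos.mpr hs1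
    positivity
  rw [← hid] at hpos
  have hrν : 0 < 3 * (R + 1) * ν := by rw [hν]; positivity
  have hfin := mul_pos hrν hpos
  have hs4 : lam ^ 2 = s ^ 4 := by rw [← hs2]; ring
  rw [hs4] at key2
  linarith [key2, hfin]

end Helper15.EIso
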