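import Pool.Agent.Helper15.EIso.Spec

set_option linter.unusedSectionVars false

/-!
Equi-isoclinic families: the main inequality.
-/

namespace Helper15.EIso

open Matrix Kronecker BigOperators ComplexOrder

variable {m : Type*} [Fintype m] [DecidableEq m] {N : ℕ}

lemma pointwise {y f b θ : ℝ} (hy : 0 ≤ y) (hf0 : 0 ≤ f) (hf1 : f ≤ 1) (h0 : 0 ≤ θ)
    (hb : θ ≤ b) :
    (-(1 - f) * y ^ 2 + 2 * ((1 - f) * y) * θ + f * θ ^ 2) ^ 2 ≤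
      y ^ 4 + 4 * y ^ 3 * (θ - y) + (θ - y) ^ 2 * ((2 * y + f * (b - y)) ^ 2 + 2 * f * y ^ 2) := by
  have e : (-(1 - f) * y ^ 2 + 2 * ((1 - f) * y) * θ + f * θ ^ 2) ^ 2
      = y ^ 4 + 4 * y ^ 3 * (θ - y)
        + (θ - y) ^ 2 * ((2 * y + f * (θ - y)) ^ 2 + 2 * f * y ^ 2) := by ring
  rw [e]
  have h1 : 0 ≤ 2 * y + f * (θ - y) := by nlinarith [mul_nonneg hf0 h0]
  have h2 : 2 * y + f * (θ - y) ≤ 2 * y + f * (b - y) := by nlinarith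
  have h3 : (2 * y + f * (θ - y)) ^ 2 ≤ (2 * y + f * (b - y)) ^ 2 := pow_le_pow_left₀ h1 h2 2
  have h4 : (2 * y + f * (θ - y)) ^ 2 + 2 * f * y ^ 2
      ≤ (2 * y + f * (b - y)) ^ 2 + 2 * f * y ^ 2 := by linarith
  have h5 := mul_le_mul_of_nonneg_left h4 (sq_nonneg (θ - y))
  linarith [h5]

namespace Fam

variable {P : Fin N → Matrix m m ℂ} {nn lam : ℝ}

theorem main_ineq (h : Fam P nn lam) {s : ℝ} (hs : 0 < s) (hs2 : s ^ 2 = lam) (hN : 1 ≤ N)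
    (hnn : 0 < nn) {d : ℝ} (h0 : (Fintype.card m : ℝ) = d) {a b y f κ : ℝ}
    (ha : a = 1 + (N - 1) * lam) (hb : b = 1 + (N - 1) * s)
    (hκ : κ = nn * N * a - 2 * y * (nn * N) + y ^ 2 * d)
    (hy : 0 ≤ y) (hf0 : 0 ≤ f) (hf1 : f ≤ 1) :
    nn * (nn + 1) * N * (a ^ 2 - (1 - f) * (a - y) ^ 2) ^ 2 ≤
      (1 + (N - 1) * lam ^ 2) * (nn ^ 2 * N ^ 2 * (a ^ 2 - 2 * (1 - f) * (a - y) ^ 2)
        + (1 - f) ^ 2 * κ ^ 2 + d * y ^ 4 + 4 * y ^ 3 * (nn * N - d * y)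
        + κ * ((2 * y + f * (b - y)) ^ 2 + 2 * f * y ^ 2)) := by
  have hA : (A P).IsHermitian := h.A_herm
  obtain ⟨p1, p2, p3, p4⟩ := trace_pow hA
  set θ := hA.eigenvalues with hθ
  have t1 : ∑ i, θ i = N * nn := by
    have := p1.symm.trans h.tr_A
    exact_mod_cast this
  have t2 : ∑ i, θ i ^ 2 = N * nn * a := by
    have := p2.symm.trans h.tr_AA
    rw [ha]
    exact_mod_cast this
  have hbd : ∀ i, 0 ≤ θ i ∧ θ i ≤ b := by
    intro i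
    rw [hb]
    refine h.eig_bounds hs hs2 hN (x := ⇑(hA.eigenvectorBasis i)) ?_ ?_
    · have h1 := (orthonormal_iff_ite.mp hA.eigenvectorBasis.orthonormal) i i
      rw [if_pos rfl, EuclideanSpace.inner_eq_star_dotProduct, dotProduct_comm] at h1
      exact h1
    · have := hA.mulVec_eigenvectorBasis i
      rw [this]
      rfl
  have hsum : ∑ i, (-(1 - f) * y ^ 2 + 2 * ((1 - f) * y) * θ i + f * θ i ^ 2) ^ 2 ≤
      d * y ^ 4 + 4 * y ^ 3 * (nn * N - d * y)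
        + κ * ((2 * y + f * (b - y)) ^ 2 + 2 * f * y ^ 2) := by
    refine (Finset.sum_le_sum fun i _ => pointwise hy hf0 hf1 (hbd i).1 (hbd i).2).trans ?_
    have e : ∀ i, y ^ 4 + 4 * y ^ 3 * (θ i - y)
        + (θ i - y) ^ 2 * ((2 * y + f * (b - y)) ^ 2 + 2 * f * y ^ 2)
        = (y ^ 4 - 4 * y ^ 4 + y ^ 2 * ((2 * y + f * (b - y)) ^ 2 + 2 * f * y ^ 2))
          + (4 * y ^ 3 - 2 * y * ((2 * y + f * (b - y)) ^ 2 + 2 * f * y ^ 2)) * θ i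
          + ((2 * y + f * (b - y)) ^ 2 + 2 * f * y ^ 2) * θ i ^ 2 := by
      intro i; ring
    rw [Finset.sum_congr rfl fun i _ => e i, Finset.sum_add_distrib, Finset.sum_add_distrib,
      ← Finset.mul_sum, ← Finset.mul_sum, t1, t2, Finset.sum_const, Finset.card_univ,
      nsmul_eq_mul, h0, hκ]
    apply le_of_eq; ring
  have hD : ∑ i, (-(1 - f) * y ^ 2 + 2 * ((1 - f) * y) * θ i + f * θ i ^ 2) ^ 2
      = (-(1 - f) * y ^ 2) ^ 2 * d + 4 * (-(1 - f) * y ^ 2) * ((1 - f) * y) * (∑ i, θ i)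
        + (4 * ((1 - f) * y) ^ 2 + 2 * (-(1 - f) * y ^ 2) * f) * (∑ i, θ i ^ 2)
        + 4 * ((1 - f) * y) * f * (∑ i, θ i ^ 3) + f ^ 2 * (∑ i, θ i ^ 4) := by
    rw [Finset.mul_sum, Finset.mul_sum, Finset.mul_sum, Finset.mul_sum, ← h0,
      show (-(1 - f) * y ^ 2) ^ 2 * (Fintype.card m : ℝ)
        = ∑ _i : m, (-(1 - f) * y ^ 2) ^ 2 by
        rw [Finset.sum_const, Finset.card_univ, nsmul_eq_mul, mul_comm],
      ← Finset.sum_add_distrib, ← Finset.sum_add_distrib, ← Finset.sum_add_distrib,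
      ← Finset.sum_add_distrib]
    refine Finset.sum_congr rfl fun i _ => ?_
    ring
  have hmu := fun mu : ℝ => h.sym_ineq (-(1 - f) * y ^ 2) ((1 - f) * y) f mu d
    (∑ i, θ i) (∑ i, θ i ^ 2) (∑ i, θ i ^ 3) (∑ i, θ i ^ 4) h0 p1 p2 p3 p4
  set ZZ : ℝ := (((-(1 - f) * y ^ 2) ^ 2 * d ^ 2 + 2 * ((1 - f) * y) ^ 2
        * (d * (∑ i, θ i ^ 2) + (∑ i, θ i) ^ 2) + f ^ 2 * (∑ i, θ i ^ 2) ^ 2
        + 4 * (-(1 - f) * y ^ 2) * ((1 - f) * y) * d * (∑ i, θ i)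
        + 2 * (-(1 - f) * y ^ 2) * f * (∑ i, θ i) ^ 2
        + 4 * ((1 - f) * y) * f * (∑ i, θ i) * (∑ i, θ i ^ 2))
        + ((-(1 - f) * y ^ 2) ^ 2 * d + 4 * (-(1 - f) * y ^ 2) * ((1 - f) * y) * (∑ i, θ i)
        + (4 * ((1 - f) * y) ^ 2 + 2 * (-(1 - f) * y ^ 2) * f) * (∑ i, θ i ^ 2)
        + 4 * ((1 - f) * y) * f * (∑ i, θ i ^ 3) + f ^ 2 * (∑ i, θ i ^ 4))) with hZZ
  have hdisc := discrim_le_zero (a := ZZ)
    (b := -2 * (nn * (nn + 1) * N * (a ^ 2 - (1 - f) * (a - y) ^ 2)))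
    (c := nn * (nn + 1) * N * (1 + (N - 1) * lam ^ 2)) (by
      intro x
      have := hmu x
      rw [← ha] at this
      have e : nn * (nn + 1) * N * (1 + (N - 1) * lam ^ 2)
        - 2 * x * (nn * (nn + 1) * N * (-(1 - f) * y ^ 2 + 2 * ((1 - f) * y) * a + f * a ^ 2))
        + x ^ 2 * ZZ = ZZ * (x * x)
          + -2 * (nn * (nn + 1) * N * (a ^ 2 - (1 - f) * (a - y) ^ 2)) * x
          + nn * (nn + 1) * N * (1 + (N - 1) * lam ^ 2) := by ring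
      rw [← e]
      exact this)
  rw [discrim] at hdisc
  have hNr : (1 : ℝ) ≤ N := by exact_mod_cast hN
  have hC : 0 < nn * (nn + 1) * N := by positivity
  have hk0 : 0 ≤ 1 + ((N : ℝ) - 1) * lam ^ 2 := by
    have : 0 ≤ ((N : ℝ) - 1) * lam ^ 2 := mul_nonneg (by linarith) (sq_nonneg lam)
    linarith
  have h5 : nn * (nn + 1) * N * (a ^ 2 - (1 - f) * (a - y) ^ 2) ^ 2 ≤
      (1 + (N - 1) * lam ^ 2) * ZZ := by
    have : (nn * (nn + 1) * N) * (nn * (nn + 1) * N * (a ^ 2 - (1 - f) * (a - y) ^ 2) ^ 2) ≤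
        (nn * (nn + 1) * N) * ((1 + (N - 1) * lam ^ 2) * ZZ) := by
      have e1 : (nn * (nn + 1) * N) * (nn * (nn + 1) * N * (a ^ 2 - (1 - f) * (a - y) ^ 2) ^ 2)
          = (-2 * (nn * (nn + 1) * N * (a ^ 2 - (1 - f) * (a - y) ^ 2))) ^ 2 / 4 := by ring
      have e2 : (nn * (nn + 1) * N) * ((1 + (N - 1) * lam ^ 2) * ZZ)
          = (4 * ZZ * (nn * (nn + 1) * N * (1 + (N - 1) * lam ^ 2))) / 4 := by ring
      rw [e1, e2]
      exact div_le_div_of_nonneg_right (sub_nonpos.mp hdisc) (by norm_num)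
    exact le_of_mul_le_mul_left this hC
  refine h5.trans (mul_le_mul_of_nonneg_left ?_ hk0)
  have hZ2 : ZZ = nn ^ 2 * N ^ 2 * (a ^ 2 - 2 * (1 - f) * (a - y) ^ 2) + (1 - f) ^ 2 * κ ^ 2
      + ∑ i, (-(1 - f) * y ^ 2 + 2 * ((1 - f) * y) * θ i + f * θ i ^ 2) ^ 2 := by
    rw [hD, hZZ, t1, t2, hκ]
    ring
  rw [hZ2]
  linarith [hsum]

end Fam

end Helper15.EIso
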