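import Pool.Agent.Helper15.EIso.Spec
import Mathlib.Algebra.Quaternion

set_option linter.unusedSectionVars false

/-!
Quaternionic matrices as complex matrices.
-/

namespace Helper15.EIso

open Matrix BigOperators ComplexOrder Quaternion

/-- complex 2x2 block of a quaternion -/
noncomputable def qb (x : ℍ[ℝ]) (s t : Fin 2) : ℂ :=
  (!![⟨x.re, x.imI⟩, ⟨x.imJ, x.imK⟩; ⟨-x.imJ, x.imK⟩, ⟨x.re, -x.imI⟩] :
    Matrix (Fin 2) (Fin 2) ℂ) s t

lemma qb_mul (x y : ℍ[ℝ]) (s t : Fin 2) :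
    qb (x * y) s t = ∑ u, qb x s u * qb y u t := by
  rw [Fin.sum_univ_two]
  fin_cases s <;> fin_cases t <;>
    simp [qb, Complex.ext_iff] <;> constructor <;> ring

lemma qb_add (x y : ℍ[ℝ]) (s t : Fin 2) : qb (x + y) s t = qb x s t + qb y s t := by
  fin_cases s <;> fin_cases t <;>
    simp [qb, Complex.ext_iff] <;> ring

lemma qb_zero (s t : Fin 2) : qb 0 s t = 0 := by
  fin_cases s <;> fin_cases t <;> simp [qb, Complex.ext_iff]

lemma qb_star (x : ℍ[ℝ]) (s t : Fin 2) : qb (star x) s t = star (qb x t s) := by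
  fin_cases s <;> fin_cases t <;>
    simp [qb, Complex.ext_iff]

lemma qb_sum {ι : Type*} (I : Finset ι) (f : ι → ℍ[ℝ]) (s t : Fin 2) :
    qb (∑ i ∈ I, f i) s t = ∑ i ∈ I, qb (f i) s t := by
  classical
  induction I using Finset.induction_on with
  | empty => simp [qb_zero]
  | insert i I hi ih => rw [Finset.sum_insert hi, Finset.sum_insert hi, qb_add, ih]

variable {k l n : Type*} [Fintype k] [Fintype l] [Fintype n] [DecidableEq k] [DecidableEq l]
  [DecidableEq n]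

/-- complex matrix of a quaternionic matrix -/
noncomputable def cx (X : Matrix k l ℍ[ℝ]) : Matrix (k × Fin 2) (l × Fin 2) ℂ :=
  fun p q => qb (X p.1 q.1) p.2 q.2

lemma cx_mul (X : Matrix k l ℍ[ℝ]) (Y : Matrix l n ℍ[ℝ]) : cx (X * Y) = cx X * cx Y := by
  ext ⟨i, s⟩ ⟨j, t⟩
  rw [Matrix.mul_apply, Fintype.sum_prod_type]
  simp only [cx, Matrix.mul_apply]
  rw [qb_sum]
  exact Finset.sum_congr rfl fun u _ => qb_mul _ _ _ _

lemma cx_conjTranspose (X : Matrix k l ℍ[ℝ]) : cx Xᴴ = (cx X)ᴴ := by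
  ext ⟨i, s⟩ ⟨j, t⟩
  simp only [cx, Matrix.conjTranspose_apply]
  exact qb_star _ _ _

lemma cx_smul (c : ℝ) (X : Matrix k l ℍ[ℝ]) : cx (c • X) = (c : ℂ) • cx X := by
  ext ⟨i, s⟩ ⟨j, t⟩
  simp only [cx, Matrix.smul_apply]
  fin_cases s <;> fin_cases t <;>
    simp [qb, Complex.ext_iff]

lemma cx_one : cx (1 : Matrix k k ℍ[ℝ]) = 1 := by
  ext ⟨i, s⟩ ⟨j, t⟩
  simp only [cx, Matrix.one_apply, Prod.mk.injEq]
  by_cases h : i = j
  · subst h
    fin_cases s <;> fin_cases t <;> simp [qb, Complex.ext_iff]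
  · rw [if_neg h, if_neg (fun hh => h hh.1), qb_zero]

/-- the antilinear structure map -/
noncomputable def Jv (x : k × Fin 2 → ℂ) : k × Fin 2 → ℂ :=
  fun p => if p.2 = 0 then -star (x (p.1, 1)) else star (x (p.1, 0))

lemma cx_Jv (X : Matrix k l ℍ[ℝ]) (x : l × Fin 2 → ℂ) :
    cx X *ᵥ Jv x = Jv (cx X *ᵥ x) := by
  ext ⟨i, s⟩
  simp only [Matrix.mulVec, dotProduct, Fintype.sum_prod_type, Fin.sum_univ_two, cx, Jv]
  fin_cases s <;> simp [qb, Complex.ext_iff, Finset.sum_add_distrib] <;>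
    constructor <;> rw [← sub_eq_zero] <;> simp only [← Finset.sum_add_distrib,
      ← Finset.sum_sub_distrib, ← Finset.sum_neg_distrib] <;>
    apply Finset.sum_eq_zero <;> intro j _ <;> ring

lemma Jv_dot (x y : k × Fin 2 → ℂ) : star (Jv x) ⬝ᵥ Jv y = star y ⬝ᵥ x := by
  simp only [dotProduct, Fintype.sum_prod_type, Fin.sum_univ_two, Jv, Pi.star_apply]
  refine Finset.sum_congr rfl fun i _ => ?_
  simp
  ring

lemma dot_Jv_self (x : k × Fin 2 → ℂ) : star x ⬝ᵥ Jv x = 0 := by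
  simp only [dotProduct, Fintype.sum_prod_type, Fin.sum_univ_two, Jv, Pi.star_apply]
  apply Finset.sum_eq_zero
  intro i _
  simp
  ring

end Helper15.EIso
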