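import Pool.Agent.Helper15.EIso.Fam

set_option linter.unusedSectionVars false

/-!
Equi-isoclinic families: the spectrum of `A = ∑ P k`.
-/

namespace Helper15.EIso

open Matrix Kronecker BigOperators ComplexOrder

variable {m : Type*} [Fintype m] [DecidableEq m] {N : ℕ}

lemma herm_dot {P : Matrix m m ℂ} (hP : Pᴴ = P) (x y : m → ℂ) :
    star (P *ᵥ x) ⬝ᵥ y = star x ⬝ᵥ (P *ᵥ y) := by
  rw [Matrix.star_mulVec, hP, Matrix.dotProduct_mulVec]

/-- squared norm -/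
noncomputable def q (x : m → ℂ) : ℝ := (star x ⬝ᵥ x).re

lemma q_nonneg (x : m → ℂ) : 0 ≤ q x := by
  have := dotProduct_star_self_nonneg x
  exact (Complex.le_def.mp this).1

lemma dot_re_comm (x y : m → ℂ) : (star y ⬝ᵥ x).re = (star x ⬝ᵥ y).re := by
  have : star (star x ⬝ᵥ y) = star y ⬝ᵥ x := by
    rw [← Matrix.star_dotProduct_star, star_star, dotProduct_comm]
  rw [← this]
  simp

namespace Fam

variable {P : Fin N → Matrix m m ℂ} {nn lam : ℝ}

lemma q_P (h : Fam P nn lam) (k : Fin N) (x : m → ℂ) :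
    q (P k *ᵥ x) = (star x ⬝ᵥ (P k *ᵥ x)).re := by
  unfold q
  rw [herm_dot (h.herm k), Matrix.mulVec_mulVec, h.idem]

lemma q_PP (h : Fam P nn lam) {k l : Fin N} (hkl : k ≠ l) (x : m → ℂ) :
    q (P l *ᵥ (P k *ᵥ x)) = lam * q (P k *ᵥ x) := by
  rw [h.q_P l, herm_dot (h.herm k), Matrix.mulVec_mulVec, Matrix.mulVec_mulVec, h.iso k l hkl,
    h.q_P k, Matrix.smul_mulVec, dotProduct_smul]
  simp

lemma cross (h : Fam P nn lam) {s : ℝ} (hs : 0 < s) (hs2 : s ^ 2 = lam) {k l : Fin N}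
    (hkl : k ≠ l) (x : m → ℂ) :
    (star (P k *ᵥ x) ⬝ᵥ (P l *ᵥ x)).re ≤ s / 2 * (q (P k *ᵥ x) + q (P l *ᵥ x)) := by
  have h1 := q_nonneg (P l *ᵥ (P k *ᵥ x) - (s : ℂ) • (P l *ᵥ x))
  have h2 : q (P l *ᵥ (P k *ᵥ x) - (s : ℂ) • (P l *ᵥ x))
      = q (P l *ᵥ (P k *ᵥ x)) - 2 * s * (star (P k *ᵥ x) ⬝ᵥ (P l *ᵥ x)).re
        + s ^ 2 * q (P l *ᵥ x) := by
    have e1 : (star (P l *ᵥ (P k *ᵥ x)) ⬝ᵥ (P l *ᵥ x)).re
        = (star (P k *ᵥ x) ⬝ᵥ (P l *ᵥ x)).re := by
      rw [herm_dot (h.herm l), Matrix.mulVec_mulVec, h.idem]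
    have e2 : (star (P l *ᵥ x) ⬝ᵥ (P l *ᵥ (P k *ᵥ x))).re
        = (star (P k *ᵥ x) ⬝ᵥ (P l *ᵥ x)).re := by
      rw [← dot_re_comm, e1]
    unfold q
    rw [star_sub, sub_dotProduct, dotProduct_sub, dotProduct_sub, star_smul, smul_dotProduct,
      dotProduct_smul, smul_dotProduct, dotProduct_smul]
    simp only [Complex.sub_re, smul_eq_mul, Complex.star_def, Complex.conj_ofReal,
      Complex.re_ofReal_mul, e1, e2]
    ring
  rw [h2, h.q_PP hkl, ← hs2] at h1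
  nlinarith [h1, hs]

/-- eigenvalues of `A` are between `0` and `1 + (N-1) s` -/
lemma eig_bounds (h : Fam P nn lam) {s : ℝ} (hs : 0 < s) (hs2 : s ^ 2 = lam) (hN : 1 ≤ N)
    {x : m → ℂ} {θ : ℝ} (hx : star x ⬝ᵥ x = 1) (hA : A P *ᵥ x = (θ : ℂ) • x) : 0 ≤ θ ∧ θ ≤ 1 + (N - 1) * s := by
  have hsum : ∑ k, P k *ᵥ x = (θ : ℂ) • x := by
    rw [← hA, A, Matrix.sum_mulVec]
  have hθ : ∑ k, q (P k *ᵥ x) = θ := by
    rw [Finset.sum_congr rfl (fun k _ => h.q_P k x), ← Complex.re_sum, ← dotProduct_sum, hsum,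
      dotProduct_smul, hx]
    simp
  have hθ0 : 0 ≤ θ := by rw [← hθ]; exact Finset.sum_nonneg fun k _ => q_nonneg _
  refine ⟨hθ0, ?_⟩
  have hsq : θ ^ 2 = ∑ k, ∑ l, (star (P k *ᵥ x) ⬝ᵥ (P l *ᵥ x)).re := by
    have e : star (∑ k, P k *ᵥ x) ⬝ᵥ (∑ l, P l *ᵥ x) = ((θ ^ 2 : ℝ) : ℂ) := by
      rw [hsum, star_smul, smul_dotProduct, dotProduct_smul, hx]
      simp [sq]
    have e2 := congrArg Complex.re e
    rw [star_sum, sum_dotProduct, Complex.re_sum, Complex.ofReal_re] at e2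
    rw [← e2]
    refine Finset.sum_congr rfl fun k _ => ?_
    rw [dotProduct_sum, Complex.re_sum]
  have hb : θ ^ 2 ≤ (1 + (N - 1) * s) * θ := by
    rw [hsq]
    have hrow : ∀ k : Fin N, ∑ l, (star (P k *ᵥ x) ⬝ᵥ (P l *ᵥ x)).re
        ≤ q (P k *ᵥ x) + ∑ l, (if l = k then 0 else s / 2 * (q (P k *ᵥ x) + q (P l *ᵥ x))) := by
      intro k
      rw [← Finset.add_sum_erase _ _ (Finset.mem_univ k)]
      have : ∑ l, (if l = k then 0 else s / 2 * (q (P k *ᵥ x) + q (P l *ᵥ x)))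
          = ∑ l ∈ Finset.univ.erase k, s / 2 * (q (P k *ᵥ x) + q (P l *ᵥ x)) := by
        rw [← Finset.add_sum_erase _ _ (Finset.mem_univ k), if_pos rfl, zero_add]
        exact Finset.sum_congr rfl fun l hl => if_neg (Finset.ne_of_mem_erase hl)
      rw [this]
      refine add_le_add (le_of_eq rfl) (Finset.sum_le_sum fun l hl => ?_)
      exact h.cross hs hs2 (Finset.ne_of_mem_erase hl).symm x
    refine (Finset.sum_le_sum fun k _ => hrow k).trans ?_
    rw [Finset.sum_add_distrib, hθ]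
    have hin : ∀ k : Fin N, ∑ l, (if l = k then 0 else s / 2 * (q (P k *ᵥ x) + q (P l *ᵥ x)))
        = s / 2 * (N * q (P k *ᵥ x) + θ) - s * q (P k *ᵥ x) := by
      intro k
      have : ∑ l, (if l = k then 0 else s / 2 * (q (P k *ᵥ x) + q (P l *ᵥ x)))
          = ∑ l, s / 2 * (q (P k *ᵥ x) + q (P l *ᵥ x)) - s * q (P k *ᵥ x) := by
        rw [eq_sub_iff_add_eq]
        have : s * q (P k *ᵥ x) = ∑ l, (if l = k then s / 2 * (q (P k *ᵥ x) + q (P l *ᵥ x))
            else 0) := by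
          rw [Finset.sum_ite_eq' Finset.univ k]
          simp; ring
        rw [this, ← Finset.sum_add_distrib]
        refine Finset.sum_congr rfl fun l _ => ?_
        split_ifs <;> simp
      rw [this, ← Finset.mul_sum, Finset.sum_add_distrib, hθ, Finset.sum_const,
        Finset.card_univ, Fintype.card_fin, nsmul_eq_mul]
    rw [Finset.sum_congr rfl fun k _ => hin k, Finset.sum_sub_distrib, ← Finset.mul_sum,
      ← Finset.mul_sum, Finset.sum_add_distrib, ← Finset.mul_sum, hθ, Finset.sum_const,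
      Finset.card_univ, Fintype.card_fin, nsmul_eq_mul]
    nlinarith
  rcases hθ0.eq_or_lt with h0 | h0
  · rw [← h0]
    have : (1 : ℝ) ≤ N := by exact_mod_cast hN
    nlinarith
  · nlinarith

/-- traces of powers of `A` in terms of eigenvalues -/

lemma trace_pow (hA : (A P).IsHermitian) :
    trace (A P) = ((∑ i, hA.eigenvalues i : ℝ) : ℂ) ∧
    trace (A P * A P) = ((∑ i, hA.eigenvalues i ^ 2 : ℝ) : ℂ) ∧
    trace (A P * A P * A P) = ((∑ i, hA.eigenvalues i ^ 3 : ℝ) : ℂ) ∧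
    trace (A P * A P * (A P * A P)) = ((∑ i, hA.eigenvalues i ^ 4 : ℝ) : ℂ) := by
  have hφ : ∀ X : Matrix m m ℂ,
      trace (Unitary.conjStarAlgAut ℂ _ hA.eigenvectorUnitary X) = trace X := by
    intro X
    rw [Unitary.conjStarAlgAut_apply, Matrix.trace_mul_comm, ← Matrix.mul_assoc]
    simp
  have hs := hA.spectral_theorem
  refine ⟨?_, ?_, ?_, ?_⟩
  · rw [hA.trace_eq_sum_eigenvalues]; push_cast; rfl
  · conv_lhs => rw [hs]
    rw [← map_mul, hφ, diagonal_mul_diagonal, trace_diagonal]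
    push_cast
    refine Finset.sum_congr rfl fun i _ => ?_
    simp [sq]
  · conv_lhs => rw [hs]
    rw [← map_mul, ← map_mul, hφ, diagonal_mul_diagonal, diagonal_mul_diagonal, trace_diagonal]
    push_cast
    refine Finset.sum_congr rfl fun i _ => ?_
    simp; ring
  · conv_lhs => rw [hs]
    rw [← map_mul, ← map_mul, hφ, diagonal_mul_diagonal, diagonal_mul_diagonal, trace_diagonal]
    push_cast
    refine Finset.sum_congr rfl fun i _ => ?_
    simp; ring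

end Fam

end Helper15.EIso
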