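import Mathlib

/-!
Equi-isoclinic subspaces: the inequality obtained from positivity on the symmetric square.
-/

namespace Helper15.EIso

open Matrix Kronecker BigOperators ComplexOrder

variable {m : Type*} [Fintype m] [DecidableEq m]

/-- the swp on `ℂ^m ⊗ ℂ^m` -/
def swp : Matrix (m × m) (m × m) ℂ :=
  Matrix.of fun p q => if p.1 = q.2 ∧ p.2 = q.1 then 1 else 0

omit [Fintype m] in
lemma swp_conj : (swp : Matrix (m × m) (m × m) ℂ)ᴴ = swp := by
  ext p q
  simp only [swp, conjTranspose_apply, of_apply]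
  by_cases h : q.1 = p.2 ∧ q.2 = p.1
  · rw [if_pos h, if_pos ⟨h.2.symm, h.1.symm⟩]; simp
  · rw [if_neg h, if_neg (fun h' => h ⟨h'.2.symm, h'.1.symm⟩)]; simp

lemma swp_mul_apply (X : Matrix (m × m) (m × m) ℂ) (p q : m × m) :
    (swp * X : Matrix (m × m) (m × m) ℂ) p q = X (p.2, p.1) q := by
  rw [Matrix.mul_apply]
  rw [Finset.sum_eq_single (p.2, p.1)]
  · simp [swp]
  · intro b _ hb
    have : ¬ (p.1 = b.2 ∧ p.2 = b.1) := by
      rintro ⟨h1, h2⟩
      exact hb (by ext <;> simp [h1, h2])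
    simp [swp, this]
  · intro h; exact absurd (Finset.mem_univ _) h

lemma swp_mul_swp : (swp * swp : Matrix (m × m) (m × m) ℂ) = 1 := by
  ext p q
  rw [swp_mul_apply]
  simp only [swp, of_apply, Matrix.one_apply]
  by_cases h : p = q
  · subst h; simp
  · rw [if_neg h, if_neg]
    rintro ⟨h1, h2⟩
    exact h (by ext <;> simp_all)

lemma trace_swp_kron (A B : Matrix m m ℂ) :
    trace (swp * (A ⊗ₖ B)) = trace (A * B) := by
  have h : ∀ p : m × m, (swp * (A ⊗ₖ B) : Matrix (m × m) (m × m) ℂ) p p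
      = A p.2 p.1 * B p.1 p.2 := by
    intro p
    rw [swp_mul_apply, kroneckerMap_apply]
  simp only [Matrix.trace, Matrix.diag_apply, h, Fintype.sum_prod_type, Matrix.mul_apply]
  rw [Finset.sum_comm]

/-- `G X Y = tr ((1 + F) X Y)` -/
noncomputable def G (X Y : Matrix (m × m) (m × m) ℂ) : ℂ := trace ((1 + swp) * (X * Y))

lemma G_kron (A B C D : Matrix m m ℂ) :
    G (A ⊗ₖ B) (C ⊗ₖ D) = trace (A * C) * trace (B * D) + trace (A * C * (B * D)) := by
  unfold G
  rw [← mul_kronecker_mul, add_mul, one_mul, trace_add, trace_kronecker, trace_swp_kron]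

lemma G_add_left (X X' Y : Matrix (m × m) (m × m) ℂ) : G (X + X') Y = G X Y + G X' Y := by
  unfold G; rw [add_mul X X' Y, mul_add, trace_add]

lemma G_add_right (X Y Y' : Matrix (m × m) (m × m) ℂ) : G X (Y + Y') = G X Y + G X Y' := by
  unfold G; rw [mul_add X Y Y', mul_add, trace_add]

lemma G_smul_left (c : ℂ) (X Y : Matrix (m × m) (m × m) ℂ) : G (c • X) Y = c * G X Y := by
  unfold G; rw [smul_mul_assoc, mul_smul_comm, trace_smul, smul_eq_mul]

lemma G_smul_right (c : ℂ) (X Y : Matrix (m × m) (m × m) ℂ) : G X (c • Y) = c * G X Y := by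
  unfold G; rw [mul_smul_comm, mul_smul_comm, trace_smul, smul_eq_mul]

lemma G_sum_left {ι : Type*} (s : Finset ι) (X : ι → Matrix (m × m) (m × m) ℂ)
    (Y : Matrix (m × m) (m × m) ℂ) : G (∑ k ∈ s, X k) Y = ∑ k ∈ s, G (X k) Y := by
  unfold G; rw [Finset.sum_mul, Finset.mul_sum, trace_sum]

lemma G_sum_right {ι : Type*} (s : Finset ι) (X : Matrix (m × m) (m × m) ℂ)
    (Y : ι → Matrix (m × m) (m × m) ℂ) : G X (∑ k ∈ s, Y k) = ∑ k ∈ s, G X (Y k) := by
  unfold G; rw [Finset.mul_sum, Finset.mul_sum, trace_sum]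

lemma G_nonneg (Y : Matrix (m × m) (m × m) ℂ) (hY : Yᴴ = Y) : 0 ≤ (G Y Y).re := by
  have h2 : ((1 + swp) * (1 + swp) : Matrix (m × m) (m × m) ℂ) = (2 : ℂ) • (1 + swp) := by
    rw [add_mul, mul_add, mul_add, swp_mul_swp, one_mul, one_mul, mul_one, two_smul]
    abel
  have h1 : (1 + swp : Matrix (m × m) (m × m) ℂ)ᴴ = 1 + swp := by
    rw [conjTranspose_add, swp_conj, conjTranspose_one]
  have key : (2 : ℂ) * G Y Y = trace ((Y * (1 + swp))ᴴ * (Y * (1 + swp))) := by
    rw [conjTranspose_mul, h1, hY]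
    unfold G
    rw [← smul_eq_mul, ← trace_smul, ← smul_mul_assoc, ← h2]
    rw [mul_assoc, Matrix.trace_mul_comm]
    congr 1
    simp only [Matrix.mul_assoc]
  have hp := (Matrix.posSemidef_conjTranspose_mul_self (Y * (1 + swp))).trace_nonneg
  rw [← key] at hp
  have := (Complex.le_def.mp hp).1
  simp only [Complex.zero_re, Complex.mul_re, Complex.re_ofNat, Complex.im_ofNat, zero_mul,
    sub_zero] at this
  linarith

end Helper15.EIso
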