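import Pool.Agent.Helper15.EIso.Quat

set_option linter.unusedSectionVars false

/-!
The largest eigenvalue of the sum of quaternionic equi-isoclinic projections.
-/

namespace Helper15.EIso

open Matrix BigOperators ComplexOrder

variable {m : Type*} [Fintype m] [DecidableEq m]

/-- the rank two matrix -/
noncomputable def rk (u v : m → ℂ) : Matrix m m ℂ :=
  vecMulVec u (star u) + vecMulVec v (star v)

lemma rk_herm (u v : m → ℂ) : (rk u v)ᴴ = rk u v := by
  unfold rk
  rw [conjTranspose_add, conjTranspose_vecMulVec, conjTranspose_vecMulVec, star_star, star_star]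

lemma tr_rk (u v : m → ℂ) : trace (rk u v) = star u ⬝ᵥ u + star v ⬝ᵥ v := by
  unfold rk
  rw [trace_add, trace_vecMulVec, trace_vecMulVec, dotProduct_comm, dotProduct_comm v]

lemma tr_vv (a b : m → ℂ) :
    trace (vecMulVec a (star a) * vecMulVec b (star b)) = ((Complex.normSq (star a ⬝ᵥ b) : ℝ) : ℂ) := by
  rw [vecMulVec_mul_vecMulVec, trace_vecMulVec, dotProduct_smul, dotProduct_comm a, smul_eq_mul]
  rw [Complex.normSq_eq_conj_mul_self, mul_comm]
  congr 1
  have : star (star a ⬝ᵥ b) = star b ⬝ᵥ a := by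
    rw [← Matrix.star_dotProduct_star, star_star, dotProduct_comm]
  rw [← this]; rfl

lemma tr_rk_rk (u v w z : m → ℂ) : trace (rk u v * rk w z) =
    ((Complex.normSq (star u ⬝ᵥ w) + Complex.normSq (star u ⬝ᵥ z)
      + Complex.normSq (star v ⬝ᵥ w) + Complex.normSq (star v ⬝ᵥ z) : ℝ) : ℂ) := by
  unfold rk
  rw [add_mul, mul_add, mul_add, trace_add, trace_add, trace_add, tr_vv, tr_vv, tr_vv, tr_vv]
  push_cast; ring

/-- Bessel's inequality for two orthogonal vectors of the same length -/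
lemma bessel2 (u v y : m → ℂ) (w : ℝ) (hw : 0 ≤ w) (hu : star u ⬝ᵥ u = (w : ℂ))
    (hv : star v ⬝ᵥ v = (w : ℂ)) (huv : star u ⬝ᵥ v = 0) :
    Complex.normSq (star u ⬝ᵥ y) + Complex.normSq (star v ⬝ᵥ y) ≤ w * q y := by
  have hvu : star v ⬝ᵥ u = 0 := by
    have : star (star u ⬝ᵥ v) = star v ⬝ᵥ u := by
      rw [← Matrix.star_dotProduct_star, star_star, dotProduct_comm]
    rw [← this, huv, star_zero]
  rcases hw.eq_or_lt with h0 | h0
  · have hu0 : u = 0 := by
      rw [← h0, Complex.ofReal_zero] at hu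
      exact dotProduct_star_self_eq_zero.mp hu
    have hv0 : v = 0 := by
      rw [← h0, Complex.ofReal_zero] at hv
      exact dotProduct_star_self_eq_zero.mp hv
    rw [hu0, hv0, ← h0]
    simp
  · set c := star u ⬝ᵥ y with hc
    set d := star v ⬝ᵥ y with hd
    have hc' : star y ⬝ᵥ u = star c := by
      rw [hc, ← Matrix.star_dotProduct_star, star_star, dotProduct_comm]
    have hd' : star y ⬝ᵥ v = star d := by
      rw [hd, ← Matrix.star_dotProduct_star, star_star, dotProduct_comm]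
    have h1 := q_nonneg ((w : ℂ) • y - (c • u + d • v))
    have e : star ((w : ℂ) • y - (c • u + d • v)) ⬝ᵥ ((w : ℂ) • y - (c • u + d • v))
        = (w : ℂ) * ((w : ℂ) * (star y ⬝ᵥ y) - (star c * c + star d * d)) := by
      rw [star_sub, star_add, star_smul, star_smul, star_smul]
      simp only [sub_dotProduct, dotProduct_sub, add_dotProduct, dotProduct_add, smul_dotProduct,
        dotProduct_smul, smul_eq_mul, hu, hv, huv, hvu, ← hc, ← hd, hc', hd']
      simp only [Complex.star_def, Complex.conj_ofReal]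
      ring
    unfold q at h1
    rw [e] at h1
    have e2 : star c * c + star d * d = ((Complex.normSq c + Complex.normSq d : ℝ) : ℂ) := by
      rw [Complex.star_def, ← Complex.normSq_eq_conj_mul_self,
        ← Complex.normSq_eq_conj_mul_self]
      push_cast; rfl
    rw [e2] at h1
    have h2 : 0 ≤ w * (w * q y - (Complex.normSq c + Complex.normSq d)) := by
      have e3 : ((w : ℂ) * ((w : ℂ) * (star y ⬝ᵥ y) - ((Complex.normSq c + Complex.normSq d : ℝ) : ℂ))).re
          = w * (w * q y - (Complex.normSq c + Complex.normSq d)) := by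
        rw [Complex.re_ofReal_mul, Complex.sub_re, Complex.re_ofReal_mul, Complex.ofReal_re]
        rfl
      rw [← e3]; exact h1
    have := nonneg_of_mul_nonneg_right h2 h0
    linarith

lemma dot_self (x : m → ℂ) : star x ⬝ᵥ x = ((q x : ℝ) : ℂ) := by
  unfold q
  have := dotProduct_star_self_nonneg x
  rw [dotProduct_comm] at this
  have h2 := (Complex.le_def.mp this).2
  rw [dotProduct_comm] at h2
  apply Complex.ext
  · simp
  · simpa using h2.symm

namespace Fam

variable {k : Type*} [Fintype k] [DecidableEq k] {N : ℕ}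
  {P : Fin N → Matrix (k × Fin 2) (k × Fin 2) ℂ} {nn lam : ℝ}

/-- the inequality for the eigenvalues of `A` in the quaternionic case -/
theorem top_ineq (h : Fam P nn lam) (hJ : ∀ i x, P i *ᵥ Jv x = Jv (P i *ᵥ x)) 
    {d : ℝ} (hd : (Fintype.card (k × Fin 2) : ℝ) = d) (hd2 : 2 < d)
    {x : k × Fin 2 → ℂ} {θ : ℝ} (hx : star x ⬝ᵥ x = 1) (hA : A P *ᵥ x = (θ : ℂ) • x) :
    ∃ F : ℝ, θ ^ 2 ≤ N * F ∧ F ^ 2 + 2 * (θ - F) ^ 2 / (d - 2) ≤ (1 - lam) * F + lam * θ ^ 2 := by
  set u : Fin N → (k × Fin 2 → ℂ) := fun i => P i *ᵥ x with hu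
  set w : Fin N → ℝ := fun i => q (u i) with hw
  have hw0 : ∀ i, 0 ≤ w i := fun i => q_nonneg _
  have huu : ∀ i, star (u i) ⬝ᵥ u i = (w i : ℂ) := fun i => dot_self _
  have hJJ : ∀ i, star (Jv (u i)) ⬝ᵥ Jv (u i) = (w i : ℂ) := fun i => by rw [Jv_dot, huu]
  have hsum : ∑ i, u i = (θ : ℂ) • x := by
    rw [← hA, A, Matrix.sum_mulVec]
  have hxu : ∀ i, star x ⬝ᵥ u i = (w i : ℂ) := by
    intro i
    rw [← huu i, hu]
    show star x ⬝ᵥ (P i *ᵥ x) = star (P i *ᵥ x) ⬝ᵥ (P i *ᵥ x)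
    rw [herm_dot (h.herm i), Matrix.mulVec_mulVec, h.idem]
  have hθ : ∑ i, w i = θ := by
    have e : (∑ i, (w i : ℂ)) = (θ : ℂ) := by
      rw [← Finset.sum_congr rfl (fun i _ => hxu i), ← dotProduct_sum, hsum, dotProduct_smul, hx]
      simp
    exact_mod_cast e
  set F : ℝ := ∑ i, w i ^ 2 with hF
  refine ⟨F, ?_, ?_⟩
  · have := sq_sum_le_card_mul_sum_sq (s := (Finset.univ : Finset (Fin N))) (f := w)
    rwa [hθ, Finset.card_univ, Fintype.card_fin] at this
  set B : Matrix (k × Fin 2) (k × Fin 2) ℂ := ∑ i, rk (u i) (Jv (u i)) with hB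
  set E : Matrix (k × Fin 2) (k × Fin 2) ℂ := rk x (Jv x) with hE
  have hBh : Bᴴ = B := by
    rw [hB, conjTranspose_sum]
    exact Finset.sum_congr rfl fun i _ => rk_herm _ _
  have hEh : Eᴴ = E := rk_herm _ _
  have hxJ : star x ⬝ᵥ Jv x = 0 := dot_Jv_self x
  have hJx : star (Jv x) ⬝ᵥ x = 0 := by
    have : star (star x ⬝ᵥ Jv x) = star (Jv x) ⬝ᵥ x := by
      rw [← Matrix.star_dotProduct_star, star_star, dotProduct_comm]
    rw [← this, hxJ, star_zero]
  have hJxJx : star (Jv x) ⬝ᵥ Jv x = 1 := by rw [Jv_dot, hx]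
  have tB : trace B = ((2 * θ : ℝ) : ℂ) := by
    rw [hB, trace_sum, Finset.sum_congr rfl (fun i _ => by rw [tr_rk, huu, hJJ] :
      ∀ i ∈ Finset.univ, trace (rk (u i) (Jv (u i))) = (w i : ℂ) + (w i : ℂ)),
      Finset.sum_add_distrib, ← Complex.ofReal_sum, hθ]
    push_cast; ring
  have tE : trace E = ((2 : ℝ) : ℂ) := by
    rw [hE, tr_rk, hx, hJxJx]; push_cast; norm_num
  have tEE : trace (E * E) = ((2 : ℝ) : ℂ) := by
    rw [hE, tr_rk_rk, hx, hJxJx, hxJ, hJx]
    simp
    norm_num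
  have huJ : ∀ i, star x ⬝ᵥ Jv (u i) = 0 := by
    intro i
    have e1 : Jv (u i) = P i *ᵥ Jv x := (hJ i x).symm
    have e2 : star x ⬝ᵥ Jv (u i) = star (u i) ⬝ᵥ Jv (u i) := by
      show star x ⬝ᵥ Jv (u i) = star (P i *ᵥ x) ⬝ᵥ Jv (u i)
      rw [herm_dot (h.herm i), e1, Matrix.mulVec_mulVec, h.idem]
    rw [e2, dot_Jv_self]
  have hJu : ∀ i, star (Jv x) ⬝ᵥ u i = 0 := by
    intro i
    have e2 : star (Jv x) ⬝ᵥ u i = star (Jv (u i)) ⬝ᵥ u i := by
      have e1 : Jv (u i) = P i *ᵥ Jv x := (hJ i x).symm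
      rw [e1, herm_dot (h.herm i)]
      show star (Jv x) ⬝ᵥ u i = star (Jv x) ⬝ᵥ (P i *ᵥ (P i *ᵥ x))
      rw [Matrix.mulVec_mulVec, h.idem]
    have : star (star (u i) ⬝ᵥ Jv (u i)) = star (Jv (u i)) ⬝ᵥ u i := by
      rw [← Matrix.star_dotProduct_star, star_star, dotProduct_comm]
    rw [e2, ← this, dot_Jv_self, star_zero]
  have hJuJ : ∀ i, star (Jv x) ⬝ᵥ Jv (u i) = (w i : ℂ) := by
    intro i
    rw [Jv_dot]
    have : star (star x ⬝ᵥ u i) = star (u i) ⬝ᵥ x := by
      rw [← Matrix.star_dotProduct_star, star_star, dotProduct_comm]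
    rw [← this, hxu]
    simp
  have tEB : trace (E * B) = ((2 * F : ℝ) : ℂ) := by
    rw [hB, Finset.mul_sum, trace_sum]
    have : ∀ i ∈ Finset.univ, trace (E * rk (u i) (Jv (u i))) = ((2 * w i ^ 2 : ℝ) : ℂ) := by
      intro i _
      rw [hE, tr_rk_rk, hxu, huJ, hJu, hJuJ]
      simp only [Complex.normSq_ofReal, map_zero]
      push_cast; ring
    rw [Finset.sum_congr rfl this, ← Complex.ofReal_sum, ← Finset.mul_sum]
  -- the trace of `B²`
  have hpair : ∀ i j, i ≠ j → (trace (rk (u i) (Jv (u i)) * rk (u j) (Jv (u j)))).re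
      ≤ 2 * lam * (w i * w j) := by
    intro i j hij
    rw [tr_rk_rk, Complex.ofReal_re]
    have hPu : ∀ y, star (u i) ⬝ᵥ y = star (u i) ⬝ᵥ (P i *ᵥ y) := by
      intro y
      rw [← herm_dot (h.herm i)]
      show _ = star (P i *ᵥ (P i *ᵥ x)) ⬝ᵥ y
      rw [Matrix.mulVec_mulVec, h.idem]
    have hPJ : ∀ y, star (Jv (u i)) ⬝ᵥ y = star (Jv (u i)) ⬝ᵥ (P i *ᵥ y) := by
      intro y
      rw [← herm_dot (h.herm i), hJ]
      show _ = star (Jv (P i *ᵥ (P i *ᵥ x))) ⬝ᵥ y
      rw [Matrix.mulVec_mulVec, h.idem]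
    have b1 := bessel2 (u i) (Jv (u i)) (P i *ᵥ u j) (w i) (hw0 i) (huu i) (hJJ i) (dot_Jv_self _)
    have b2 := bessel2 (u i) (Jv (u i)) (P i *ᵥ Jv (u j)) (w i) (hw0 i) (huu i) (hJJ i)
      (dot_Jv_self _)
    rw [← hPu, ← hPJ] at b1 b2
    have q1 : q (P i *ᵥ u j) = lam * w j := h.q_PP hij.symm x
    have q2 : q (P i *ᵥ Jv (u j)) = lam * w j := by
      have : Jv (u j) = P j *ᵥ Jv x := (hJ j x).symm
      rw [this, h.q_PP hij.symm, ← this]
      unfold q
      rw [hJJ, Complex.ofReal_re]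
    rw [q1] at b1
    rw [q2] at b2
    nlinarith [b1, b2]
  have hdiag : ∀ i, (trace (rk (u i) (Jv (u i)) * rk (u i) (Jv (u i)))).re = 2 * w i ^ 2 := by
    intro i
    have : star (Jv (u i)) ⬝ᵥ u i = 0 := by
      have e : star (star (u i) ⬝ᵥ Jv (u i)) = star (Jv (u i)) ⬝ᵥ u i := by
        rw [← Matrix.star_dotProduct_star, star_star, dotProduct_comm]
      rw [← e, dot_Jv_self, star_zero]
    rw [tr_rk_rk, Complex.ofReal_re, huu, hJJ, dot_Jv_self, this]
    simp only [Complex.normSq_ofReal, map_zero]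
    ring
  have tBB : (trace (B * B)).re ≤ 2 * (1 - lam) * F + 2 * lam * θ ^ 2 := by
    have e : (trace (B * B)).re
        = ∑ i, ∑ j, (trace (rk (u i) (Jv (u i)) * rk (u j) (Jv (u j)))).re := by
      rw [hB, Finset.sum_mul, trace_sum, Complex.re_sum]
      refine Finset.sum_congr rfl fun i _ => ?_
      rw [Finset.mul_sum, trace_sum, Complex.re_sum]
    rw [e]
    have hrow : ∀ i ∈ Finset.univ, ∑ j, (trace (rk (u i) (Jv (u i)) * rk (u j) (Jv (u j)))).re
        ≤ 2 * lam * (w i * θ) + 2 * (1 - lam) * w i ^ 2 := by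
      intro i _
      have hle : ∀ j ∈ Finset.univ, (trace (rk (u i) (Jv (u i)) * rk (u j) (Jv (u j)))).re
          ≤ 2 * lam * (w i * w j) + (if j = i then 2 * (1 - lam) * w i ^ 2 else 0) := by
        intro j _
        by_cases hij : j = i
        · subst hij
          rw [hdiag, if_pos rfl]
          apply le_of_eq; ring
        · rw [if_neg hij, add_zero]
          exact hpair i j (Ne.symm hij)
      refine (Finset.sum_le_sum hle).trans (le_of_eq ?_)
      rw [Finset.sum_add_distrib, Finset.sum_ite_eq' Finset.univ i, if_pos (Finset.mem_univ _),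
        ← Finset.mul_sum, ← Finset.mul_sum, hθ]
    refine (Finset.sum_le_sum hrow).trans (le_of_eq ?_)
    rw [Finset.sum_add_distrib, ← Finset.mul_sum, ← Finset.mul_sum, ← Finset.sum_mul, hθ, hF]
    ring
  -- positivity of the square
  set be : ℝ := 2 * (θ - F) / (d - 2) with hbe
  set al : ℝ := F - be with hal
  have hpos : 0 ≤ (trace ((B - (al : ℂ) • E - (be : ℂ) • 1)ᴴ * (B - (al : ℂ) • E - (be : ℂ) • 1))).re := by
    have := (Matrix.posSemidef_conjTranspose_mul_self (B - (al : ℂ) • E - (be : ℂ) • 1)).trace_nonneg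
    exact (Complex.le_def.mp this).1
  have hcard : trace (1 : Matrix (k × Fin 2) (k × Fin 2) ℂ) = (d : ℂ) := by
    rw [trace_one, ← hd]; push_cast; rfl
  have hexp : trace ((B - (al : ℂ) • E - (be : ℂ) • 1)ᴴ * (B - (al : ℂ) • E - (be : ℂ) • 1))
      = trace (B * B) + ((- 4 * al * F - 4 * be * θ + 2 * al ^ 2 + 4 * al * be + be ^ 2 * d : ℝ) : ℂ) := by
    rw [conjTranspose_sub, conjTranspose_sub, conjTranspose_smul, conjTranspose_smul,
      conjTranspose_one, hBh, hEh]
    simp only [Complex.star_def, Complex.conj_ofReal, sub_mul, mul_sub, smul_mul_assoc,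
      mul_smul_comm, Matrix.one_mul, Matrix.mul_one, trace_sub, trace_smul, smul_eq_mul, tB, tE,
      tEE, tEB, hcard]
    rw [Matrix.trace_mul_comm B E, tEB]
    push_cast
    ring
  rw [hexp, Complex.add_re, Complex.ofReal_re] at hpos
  have h1 := hpos.trans (add_le_add_left tBB _)
  have hd0 : (0 : ℝ) < d - 2 := by linarith
  have hbd : be * (d - 2) = 2 * (θ - F) := by rw [hbe]; field_simp
  have e5 : 2 * (θ - F) ^ 2 / (d - 2) = be * (θ - F) := by rw [hbe]; ring
  rw [e5]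
  have e6 : -4 * al * F - 4 * be * θ + 2 * al ^ 2 + 4 * al * be + be ^ 2 * d
      = -2 * F ^ 2 - 4 * be * (θ - F) + be * (be * (d - 2)) := by
    rw [hal]; ring
  rw [e6, hbd] at h1
  linarith

end Fam

end Helper15.EIso
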