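import Pool.Agent.Helper15.EIso.Top

set_option linter.unusedSectionVars false

/-!
The eigenvalues of the sum of forty quaternionic equi-isoclinic 3-planes in `ℍ^9`.
-/

namespace Helper15.EIso

open Matrix BigOperators ComplexOrder Quaternion

/-- bound for the eigenvalues, `N = 40`, dimension `18` -/
lemma Fam.top40 {k : Type*} [Fintype k] [DecidableEq k]
    {P : Fin 40 → Matrix (k × Fin 2) (k × Fin 2) ℂ} {lam : ℝ} (h : Fam P 6 lam)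
    (hJ : ∀ i x, P i *ᵥ Jv x = Jv (P i *ᵥ x)) (hm : (Fintype.card (k × Fin 2) : ℝ) = 18)
    (h0 : 0 < lam) (h1 : lam < 1) (ht1 : 1 - √lam ≤ 11 / 25) :
    ∀ (x : k × Fin 2 → ℂ) (θ : ℝ), star x ⬝ᵥ x = 1 → A P *ᵥ x = (θ : ℂ) • x →
      0 ≤ θ ∧ θ ≤ 40 - 39 * (1 - √lam) - 9 / 5 * (1 - √lam) ^ 2 := by
  intro x θ hx hA
  have hs2 : √lam ^ 2 = lam := Real.sq_sqrt h0.le
  have hs : 0 < √lam := Real.sqrt_pos.mpr h0
  have hs1 : √lam < 1 := by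
    rw [Real.sqrt_lt' one_pos]; simpa using h1
  have hb := h.eig_bounds hs hs2 (by norm_num) hx hA
  refine ⟨hb.1, ?_⟩
  obtain ⟨F, hF1, hF2⟩ := h.top_ineq hJ hm (by norm_num) hx hA
  obtain ⟨t, ht⟩ : ∃ t, t = 1 - √lam := ⟨_, rfl⟩
  have hlam : lam = (1 - t) ^ 2 := by rw [← hs2, ht]; ring
  rw [← ht]
  rw [← ht] at ht1
  have ht0 : 0 < t := by rw [ht]; linarith
  have hlt : t < 1 := by linarith
  rw [hlam] at hF2 h0 h1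
  push_cast at hF1
  norm_num at hF2
  by_contra hc
  push Not at hc
  have ht2 : t ^ 2 ≤ (11 / 25) ^ 2 := pow_le_pow_left₀ ht0.le ht1 2
  have hβ22 : 22 < 40 - 39 * t - 9 / 5 * t ^ 2 := by
    norm_num at ht2
    linarith
  have hθ : 22 < θ := by linarith
  have hθθ : 22 * θ ≤ θ ^ 2 := by nlinarith
  -- F = θ²/40 + δ
  obtain ⟨δ, hδ⟩ : ∃ δ, δ = F - θ ^ 2 / 40 := ⟨_, rfl⟩
  have hδ0 : 0 ≤ δ := by rw [hδ]; linarith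
  have hFe : F = θ ^ 2 / 40 + δ := by rw [hδ]; ring
  rw [hFe] at hF2
  have hbr : (θ ^ 2 / 40) ^ 2 + (θ - θ ^ 2 / 40) ^ 2 / 8 - (1 - (1 - t) ^ 2) * (θ ^ 2 / 40)
      - (1 - t) ^ 2 * θ ^ 2 ≤ 0 := by
    have h3 : 0 ≤ δ * (2 * (θ ^ 2 / 40) - (θ - θ ^ 2 / 40) / 4 - (1 - (1 - t) ^ 2)) := by
      apply mul_nonneg hδ0
      have := sq_nonneg (1 - t)
      linarith
    have h4 : 0 ≤ δ ^ 2 * (9 / 8) := by positivity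
    have e : (θ ^ 2 / 40 + δ) ^ 2 + (θ - (θ ^ 2 / 40 + δ)) ^ 2 / 8
        - (1 - (1 - t) ^ 2) * (θ ^ 2 / 40 + δ) - (1 - t) ^ 2 * θ ^ 2
        = ((θ ^ 2 / 40) ^ 2 + (θ - θ ^ 2 / 40) ^ 2 / 8 - (1 - (1 - t) ^ 2) * (θ ^ 2 / 40)
      - (1 - t) ^ 2 * θ ^ 2)
      + δ * (2 * (θ ^ 2 / 40) - (θ - θ ^ 2 / 40) / 4 - (1 - (1 - t) ^ 2)) + δ ^ 2 * (9 / 8) := by
      ring
    have e2 : 2 * (θ - (θ ^ 2 / 40 + δ)) ^ 2 / 16 = (θ - (θ ^ 2 / 40 + δ)) ^ 2 / 8 := by ring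
    rw [e2] at hF2
    linarith
  have hbr2 : θ ^ 2 * (9 * θ ^ 2 - 80 * θ + 1600 - 320 - 12480 * (1 - t) ^ 2) ≤ 0 := by
    have e : θ ^ 2 * (9 * θ ^ 2 - 80 * θ + 1600 - 320 - 12480 * (1 - t) ^ 2)
        = 12800 * ((θ ^ 2 / 40) ^ 2 + (θ - θ ^ 2 / 40) ^ 2 / 8
          - (1 - (1 - t) ^ 2) * (θ ^ 2 / 40) - (1 - t) ^ 2 * θ ^ 2) := by ring
    rw [e]
    linarith
  have hbr3 : 9 * θ ^ 2 - 80 * θ + 1600 - 320 - 12480 * (1 - t) ^ 2 ≤ 0 := by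
    by_contra hcc
    push Not at hcc
    have : 0 < θ ^ 2 := by positivity
    have := mul_pos this hcc
    linarith
  obtain ⟨β, hβ⟩ : ∃ β, β = 40 - 39 * t - 9 / 5 * t ^ 2 := ⟨_, rfl⟩
  rw [← hβ] at hc hβ22
  have h5 : 0 < (θ - β) * (9 * (θ + β) - 80) := by
    apply mul_pos
    · linarith
    · linarith
  have h6 : 9 * β ^ 2 - 80 * β + 1600 - 320 - 12480 * (1 - t) ^ 2
      = 57 * t ^ 2 + 6318 / 5 * t ^ 3 + 729 / 25 * t ^ 4 := by rw [hβ]; ring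
  have h7 : 0 ≤ 57 * t ^ 2 + 6318 / 5 * t ^ 3 + 729 / 25 * t ^ 4 := by positivity
  have h8 : (θ - β) * (9 * (θ + β) - 80) = (9 * θ ^ 2 - 80 * θ) - (9 * β ^ 2 - 80 * β) := by ring
  linarith

end Helper15.EIso
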